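import Pool.Agent.P.MP_6d14ae_al.B.Ifc

/-! Prime cubes: reduction to the two settings. -/

set_option autoImplicit false

namespace Pool.Agent.P.MP_6d14ae_al.B

open MulAction J T V
open S hiding Dat Lay c_one c_div facN ext_b triK next chi chi_one

section
variable {G X A C : Type} [Group G] [Finite G] [MulAction G X] [AddCommGroup A]
  [DistribMulAction G A] [AddCommGroup C] [DistribMulAction G C] {q : ℕ}

theorem cube_tr [IsPretransitive G X] (hq : q.Prime) (hX : Nat.card X = q ^ 3) (P : Subgroup G)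
    (hP : ¬q ∣ P.index) (x y : X) : ∃ p ∈ P, p • x = y := by
  have : Finite X := Nat.finite_of_card_ne_zero (hX ▸ pow_ne_zero 3 hq.ne_zero)
  have h1 := Subgroup.index_dvd_of_le (inf_le_left : stabilizer G x ⊓ P ≤ stabilizer G x)
  rw [index_stabilizer_of_transitive, hX, ← Subgroup.relIndex_mul_index inf_le_right,
    Subgroup.inf_relIndex_right] at h1
  have h2 := ((hq.coprime_iff_not_dvd.2 hP).pow_left 3).dvd_of_dvd_mul_right h1
  have h3 : (stabilizer G x).relIndex P = (orbit P x).ncard := index_stabilizer P x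
  have h4 : orbit P x = Set.univ := Set.eq_of_subset_of_ncard_le (Set.subset_univ _) (by
    rw [Set.ncard_univ, hX, ← h3]
    exact Nat.le_of_dvd (Nat.pos_of_ne_zero Subgroup.index_ne_zero_of_finite) h2)
  obtain ⟨p, hp⟩ : y ∈ orbit P x := h4 ▸ trivial
  exact ⟨p, p.2, hp⟩

theorem cube_gen (e : Dat G X C) {j L k : ℕ} (hq : q.Prime) (he : e.N2 = q ^ j)
    (hC : ∀ v : C, q ^ j • v = 0) (hL : L.Coprime q) (hG : ∀ g : G, g ^ (L * q ^ j) = 1)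
    (hP : ¬q ∣ e.W.index) (tr : ∀ x y : X, ∃ p ∈ e.W, p • x = y) {x y : X} {g : G}
    (c1 : e.c g = e.b x) (c2 : g ^ k • y = y) (c3 : ¬q ∣ k) (y0 : X) (Y : AddSubgroup C)
    (hY : ∀ p ∈ e.W, ∀ v ∈ Y, p • v ∈ Y) (h0 : ∀ p ∈ e.W, p • y0 = y0 → e.c p ∈ Y) : Y = ⊤ := by
  by_contra h
  have : Finite C := Finite.of_surjective e.c fun v => let ⟨w, _, h⟩ := e.hs v; ⟨w, h⟩
  have pP : IsPGroup q e.W := fun u => ⟨j, Subtype.ext (he ▸ e.hW u u.2)⟩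
  obtain ⟨Y', l1, l2, -, h1⟩ := maxs hq hC pP hY (S := ⊤) (fun _ _ _ _ => trivial)
    (lt_top_iff_ne_top.2 h)
  have h2 : ∀ s t, e.b t - e.b s ∈ Y' := fun s t => by
    obtain ⟨p, hp, rfl⟩ := tr s t
    rw [e.hb]
    exact mem_fx.1 (h1 trivial) p hp
  have h3 : ∀ (g : G) v, g • v - v ∈ Y' := fun g => ext_b e Y' g fun s => e.hb g s ▸ h2 _ _
  let φ : G →* Multiplicative (C ⧸ Y') :=
    (chi e Y' ⊤ fun g _ => h3 g).comp Subgroup.topEquiv.symm.toMonoidHom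
  have hφ : ∀ g, φ g = Multiplicative.ofAdd (e.c g : C ⧸ Y') := fun g => rfl
  have h4 : ((g ^ k) ^ L) ^ q ^ j = 1 := by rw [← pow_mul, hG]
  obtain ⟨t, ht⟩ := W.fixc (D := e.W) hq (W.zp h4) le_top (by rwa [Subgroup.relIndex_top_right])
  obtain ⟨p, hp, e1⟩ := tr (t⁻¹ • y) y0
  have h5 : (g ^ k) ^ L • y = y := pow_mem (show g ^ k ∈ stabilizer G y from c2) L
  have h6 := l1 (h0 _ (mul_mem (mul_mem hp (ht _ (Subgroup.mem_zpowers _))) (inv_mem hp)) (by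
    simp [← e1, mul_smul, h5]))
  have h7 : φ (p * (t⁻¹ * (g ^ k) ^ L * t) * p⁻¹) = 1 := by
    rw [hφ, (QuotientAddGroup.eq_zero_iff _).2 h6, ofAdd_zero]
  simp only [map_mul, map_inv, mul_inv_cancel_comm, inv_mul_cancel_comm, map_pow] at h7
  rw [← pow_mul, hφ, ← ofAdd_nsmul, ofAdd_eq_one, ← QuotientAddGroup.mk_nsmul,
    QuotientAddGroup.eq_zero_iff, c1] at h7
  have h8 := Z.acop Y' ((Nat.Coprime.mul_left (hq.coprime_iff_not_dvd.2 c3).symm hL).pow_right j)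
    h7 (hC _ ▸ Y'.zero_mem)
  refine l2.not_ge (e.hg ▸ (AddSubgroup.closure_le _).2 ?_)
  rintro _ ⟨s, rfl⟩
  simpa using Y'.add_mem (h2 x s) h8

theorem cube_w (d : Dat G X A) {K Lt P : Subgroup G} {B : AddSubgroup A} (I : Lay d K B)
    (hL : Lt.Normal) (hA : ∀ v : A, d.N2 • v = 0) (hP : (Nat.card (P ⊓ Lt :)).Coprime d.N2)
    (hZ : ∀ u ∈ P, d.c u = 0) (sw : ∀ u ∈ P, ∀ w ∈ d.W, ∃ w' ∈ d.W, ∃ u' ∈ P, u * w = w' * u')
    (k5 : ∀ k ∈ Lt, ∀ v, k • v - v ∈ B) (k7 : ¬d.W ≤ K) :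
    ∃ w ∈ d.W, w ≠ 1 ∧ w ∈ Subgroup.normalizer ((P ⊓ Lt : Subgroup G) : Set G) := by
  obtain ⟨w0, h0, n0⟩ := SetLike.not_le_iff_exists.1 k7
  have := Fintype.ofFinite (P ⊓ Lt :)
  obtain ⟨w, hw, e1⟩ := d.hs (∑ p : (P ⊓ Lt :), p.1 • d.c w0)
  refine ⟨w, hw, ?_, inv_mem_iff.1 (Subgroup.mem_normalizer_fintype fun p hp => ?_)⟩
  · rintro rfl
    have h1 := B.sum_mem (t := Finset.univ) fun (p : (P ⊓ Lt :)) _ => k5 p.1 p.2.2 (d.c w0)
    rw [Finset.sum_sub_distrib, ← e1, c_one, zero_sub, neg_mem_iff, Finset.sum_const,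
      Finset.card_univ, ← Nat.card_eq_fintype_card] at h1
    exact n0 ((I.iff w0 h0).1 (Z.acop B hP h1 (hA _ ▸ B.zero_mem)))
  · obtain ⟨w', hw', u', hu', e2⟩ := sw p hp.1 w hw
    have h1 : p • d.c w = d.c w := by
      rw [e1, Finset.smul_sum]
      exact Fintype.sum_equiv (Equiv.mulLeft (⟨p, hp⟩ : (P ⊓ Lt :))) _ _ fun u =>
        (mul_smul p u.1 _).symm
    have h2 := congrArg d.c e2
    rw [d.hc, d.hc, hZ p hp.1, hZ u' hu', h1, zero_add, smul_zero, add_zero] at h2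
    have h3 : w'⁻¹ * w = 1 := cop ⊥ d.hco (d.hP _ (by rw [c_div, h2, sub_self, smul_zero]))
      (d.hW _ (mul_mem (inv_mem hw') hw))
    obtain rfl := inv_mul_eq_one.1 h3
    rw [inv_inv]
    exact ⟨by rwa [mul_assoc, e2, inv_mul_cancel_left], hL.conj_mem' p hp.2 _⟩

theorem cube_inv [Group.IsSolvable G] {P W : Subgroup G} {a b : ℕ} (hc : a.Coprime (2 ^ b))
    (hP : ∀ u ∈ P, u ^ a = 1) (hW : ∀ w ∈ W, w ^ 2 ^ b = 1) {w0 : G} (h0 : w0 ∈ W) (n0 : w0 ≠ 1)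
    (mx : ∀ H : Subgroup G, P ≤ H → ¬H ≤ P → H = ⊤) : ∀ w ∈ W, w * w = 1 := by
  have one : ∀ u ∈ P, u ∈ W → u = 1 := fun u h h' => cop ⊥ hc (hP u h) (hW u h')
  obtain ⟨s, hs, N, hN, l1, -, -, h2, -⟩ := elem2 P.normalCore ⊤ (lt_top_iff_ne_top.2 fun h =>
    n0 (one _ (P.normalCore_le (h ▸ Subgroup.mem_top w0)) h0))
  have h3 := mx (P ⊔ N) le_sup_left fun h =>
    l1.not_ge (Subgroup.normal_le_normalCore.2 (le_sup_right.trans h))
  have h4 : ∀ w ∈ W, w ^ s = 1 := fun w hw => by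
    obtain ⟨p, hp, n, hn, e⟩ := Subgroup.mem_sup_of_normal_right.1 (h3 ▸ Subgroup.mem_top w)
    refine one _ (P.normalCore_le (h2 w (cop N hc ?_ (hW w hw ▸ N.one_mem)))) (pow_mem hw s)
    rw [← QuotientGroup.eq_one_iff, ← e, QuotientGroup.mk_pow, QuotientGroup.mk_mul,
      (QuotientGroup.eq_one_iff n).2 hn, mul_one, ← QuotientGroup.mk_pow, hP p hp,
      QuotientGroup.mk_one]
  obtain rfl : s = 2 := by
    by_contra h
    exact n0 (cop ⊥ (((Nat.coprime_primes hs Nat.prime_two).2 h).pow_right b) (h4 _ h0) (hW _ h0))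
  exact fun w hw => (sq w).symm.trans (h4 w hw)

theorem cube_red [Group.IsSolvable G] [FaithfulSMul G X] (H1 : T2 q) (H2 : TOP q) (e : Dat G X C)
    {j b : ℕ} (hq : q.Prime) (h5 : 5 ≤ q) (he : e.N2 = q ^ j) (hN : e.N1.Coprime q)
    (hC : ∀ v : C, q ^ j • v = 0) (hX : Nat.card X = q ^ 3) {W N : Subgroup G} (nN : N.Normal)
    (hW : ∀ w ∈ W, w ^ 2 ^ b = 1) (hWc : ∀ w ∈ W, e.c w = 0)
    (sw : ∀ w ∈ W, ∀ u ∈ e.W, ∃ u' ∈ e.W, ∃ w' ∈ W, w * u = u' * w')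
    (tr : ∀ x y : X, ∃ p ∈ e.W, p • x = y)
    (gen : ∀ (y : X) (Y : AddSubgroup C), (∀ p ∈ e.W, ∀ v ∈ Y, p • v ∈ Y) →
      (∀ p ∈ e.W, p • y = y → e.c p ∈ Y) → Y = ⊤) (k6 : W ≤ KK X N nN) {w0 : G} (h0 : w0 ∈ W)
    (n0 : w0 ≠ 1) (h1 : w0 ∈ Subgroup.normalizer ((e.W ⊓ KK X N nN : Subgroup G) : Set G)) :
    False := by
  have hL := KK_normal (X := X) N nN
  have hc : e.N2.Coprime (2 ^ b) := he ▸ Nat.coprime_pow_primes j b hq Nat.prime_two (by omega)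
  have one : ∀ u ∈ e.W, u ∈ W → u = 1 := fun u h h' => cop ⊥ hc (e.hW u h) (hW u h')
  let PW : Subgroup G :=
    { carrier := {g | ∃ u ∈ e.W, ∃ w ∈ W, g = u * w}
      one_mem' := ⟨1, one_mem _, 1, one_mem _, (one_mul 1).symm⟩
      mul_mem' := by
        rintro _ _ ⟨u, hu, w, hw, rfl⟩ ⟨u', hu', w', hw', rfl⟩
        obtain ⟨u'', a1, w'', a2, a3⟩ := sw w hw u' hu'
        exact ⟨_, mul_mem hu a1, _, mul_mem a2 hw', by
          rw [mul_assoc, ← mul_assoc w, a3]; simp only [mul_assoc]⟩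
      inv_mem' := by
        rintro _ ⟨u, hu, w, hw, rfl⟩
        rw [mul_inv_rev]
        exact sw _ (inv_mem hw) _ (inv_mem hu) }
  obtain ⟨H, ⟨l1, l2⟩, mn⟩ := wellFounded_lt.has_min {H : Subgroup G | e.W < H ∧
      H ≤ Subgroup.normalizer ((e.W ⊓ KK X N nN : Subgroup G) : Set G) ⊓ PW}
    ⟨Subgroup.normalizer ((e.W ⊓ KK X N nN : Subgroup G) : Set G) ⊓ PW,
      ⟨fun u hu => ⟨Subgroup.mem_normalizer_fintype fun p hp =>
      ⟨e.W.mul_mem (e.W.mul_mem hu hp.1) (e.W.inv_mem hu), hL.conj_mem p hp.2 u⟩,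
      u, hu, 1, one_mem _, (mul_one u).symm⟩,
      fun h => n0 (one _ (h ⟨h1, 1, one_mem _, w0, h0, (one_mul _).symm⟩) h0)⟩, le_rfl⟩
  have mx : ∀ H' : Subgroup H, e.W.subgroupOf H ≤ H' → ¬H' ≤ e.W.subgroupOf H → H' = ⊤ :=
    fun H' a1 a2 => by
      by_contra a3
      refine mn (H'.map H.subtype) ⟨⟨fun u hu => ⟨⟨u, l1.le hu⟩, a1 hu, rfl⟩,
        fun k => a2 fun g hg => k ⟨g, hg, rfl⟩⟩, (Subgroup.map_subtype_le _).trans l2⟩
        ⟨Subgroup.map_subtype_le _, fun k => a3 (eq_top_iff.2 fun g _ => ?_)⟩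
      obtain ⟨g', a4, a5⟩ := k g.2
      exact (Subtype.ext a5 : g' = g) ▸ a4
  have dec : ∀ g : H, ∃ u ∈ e.W.subgroupOf H, ∃ w ∈ W.subgroupOf H, g = u * w := fun g => by
    obtain ⟨u, hu, w, hw, a1⟩ := (l2 g.2).2
    exact ⟨⟨u, l1.le hu⟩, hu, (⟨u, l1.le hu⟩ : H)⁻¹ * g, show u⁻¹ * g.1 ∈ W by
      rwa [a1, inv_mul_cancel_left], (mul_inv_cancel_left _ _).symm⟩
  obtain ⟨i, hi, i0⟩ : ∃ i ∈ W.subgroupOf H, i ≠ 1 := by
    obtain ⟨g, hg, g0⟩ := SetLike.exists_of_lt l1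
    obtain ⟨u, hu, w, hw, a1⟩ := dec ⟨g, hg⟩
    refine ⟨w, hw, fun k => g0 ?_⟩
    rw [k, mul_one] at a1
    exact (a1 ▸ hu : (⟨g, hg⟩ : H) ∈ e.W.subgroupOf H)
  have W2 := cube_inv (G := H) (W := W.subgroupOf H) hc (fun u hu => Subtype.ext (e.hW u hu))
    (fun w hw => Subtype.ext (hW w hw)) hi i0 mx
  let s : Su H X C q :=
    { e :=
        { c := fun g => e.c g, W := e.W.subgroupOf H, N1 := e.N1, N2 := e.N2, b := e.b
          hc := fun g h => e.hc g h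
          hs := fun v => let ⟨u, hu, h⟩ := e.hs v; ⟨⟨u, l1.le hu⟩, hu, h⟩
          hW := fun u hu => Subtype.ext (e.hW u hu), hP := fun g h => Subtype.ext (e.hP g h)
          hco := e.hco, hb := fun g x => e.hb g x, hg := e.hg }
      a := j, hq := hq, h5 := h5, he := he, hN := hN, hC := hC, hX := hX, W := W.subgroupOf H
      hW := fun g => ⟨fun h => hWc g h, fun h => by
        obtain ⟨u, hu, w, hw, rfl⟩ := dec g
        have a1 : e.c (u.1 * w.1) = 0 := h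
        rw [e.hc, hWc w hw, smul_zero, add_zero] at a1
        rwa [show u = 1 from Subtype.ext (cop ⊥ e.hco (e.hP _ a1) (e.hW _ hu)), one_mul]⟩
      W2 := W2
      W0 := fun h => i0 (Subgroup.mem_bot.1 (h ▸ hi))
      tr := fun x y => let ⟨p, hp, h⟩ := tr x y; ⟨⟨p, l1.le hp⟩, hp, h⟩
      gen := fun y Y a1 a2 => gen y Y (fun p hp => a1 ⟨p, l1.le hp⟩ hp)
        fun p hp => a2 ⟨p, l1.le hp⟩ hp }
  have hM : ((e.W ⊓ KK X N nN).subgroupOf H).Normal :=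
    Subgroup.normal_subgroupOf_of_le_normalizer (l2.trans inf_le_left)
  by_cases hT : ∀ x y : X, ∃ n ∈ N, y = n • x
  · rw [inf_eq_left.2 fun g _ => mem_KK.2 fun y => hT y _] at hM
    refine H2 H X C s i hi hM fun g => ?_
    have a1 := mx (e.W.subgroupOf H ⊔ Subgroup.zpowers i) le_sup_left fun k =>
      i0 (Subtype.ext (one _ (k (Subgroup.mem_sup_right (Subgroup.mem_zpowers i))) hi))
    obtain ⟨p, hp, _, ⟨n, rfl⟩, rfl⟩ := Subgroup.mem_sup_of_normal_left.1 (a1 ▸ Subgroup.mem_top g)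
    have a2 : ∀ m : ℤ, i ^ (2 * m) = 1 := fun m => by
      rw [zpow_mul, zpow_two, W2 i hi, one_zpow]
    obtain ⟨m, rfl | rfl⟩ := Int.even_or_odd' n
    · exact .inl (by simpa only [a2, mul_one] using hp)
    · exact .inr (by simpa only [zpow_add, a2, one_mul, zpow_one, mul_assoc, W2 i hi, mul_one]
        using hp)
  · refine H1 H X C s _ hM (fun g hg => hg.1) (fun g w hw => ?_) (fun p hp k => ⟨hp, ?_⟩)
      fun k => hT fun x y => ?_
    · obtain ⟨u, hu, w', hw', a1⟩ := dec (g * w * g⁻¹)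
      refine ⟨w', hw', _, hM.conj_mem' u ⟨hu, ?_⟩ w', by rw [a1]; group⟩
      rw [eq_mul_inv_of_mul_eq a1.symm]
      exact (KK X N nN).mul_mem (hL.conj_mem w.1 (k6 hw) g.1) ((KK X N nN).inv_mem (k6 hw'))
    · refine mem_KK.2 fun y => ?_
      obtain ⟨m, hm, a1⟩ := mem_KK.1 k y
      obtain ⟨n, hn, a2⟩ := mem_KK.1 hm.2 y
      exact ⟨n, hn, a1.trans a2⟩
    · obtain ⟨m, hm, a1⟩ := k x y
      obtain ⟨n, hn, a2⟩ := mem_KK.1 hm.2 x
      exact ⟨n, hn, a1.symm.trans a2⟩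

end

theorem cube {q : ℕ} (H1 : T2 q) (H2 : TOP q) {G X E : Type} [Group G] [Finite G] [MulAction G X]
    [AddCommGroup E] [DistribMulAction G E] (κ : G ≃ E) (hκ : ∀ g h, κ (g * h) = κ g + g • κ h)
    (a : X → E) (ha : ∀ (g : G) x, a (g • x) = g • a x)
    (hg : AddSubgroup.closure (Set.range a) = ⊤) [FaithfulSMul G X] [IsPretransitive G X]
    (hq : q.Prime) (h5 : 5 ≤ q) (hX : Nat.card X = q ^ 3) (h1 : 2 ∣ Nat.card G) {x y : X} {g : G}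
    {k : ℕ} (c1 : κ g = a x) (c2 : g ^ k • y = y) (c3 : ¬q ∣ k) : False := by
  have := solv κ hκ
  have hr := Nat.prime_two
  have hrp : 2 ≠ q := by omega
  have sp : ∀ q : ℕ, q.Prime → ∃ j N, Nat.card G = N * q ^ j ∧ N.Coprime q := fun q hq => by
    obtain ⟨j, N, k1, k2⟩ :=
      Nat.exists_eq_pow_mul_and_not_dvd (Nat.card_pos (α := G)).ne' q hq.one_lt.ne'
    exact ⟨j, N, k2.trans (mul_comm _ _), (hq.coprime_iff_not_dvd.2 k1).symm⟩
  obtain ⟨b, M, hM, cM⟩ := sp 2 hr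
  let _ := S.tact (G := G) (E := E) (2 ^ b)
  obtain ⟨d, d1, d2, d3, d4⟩ := mkd κ hκ a ha hg hM (cM.pow_right b)
  obtain ⟨K, N, B, p, hN, I, -, -, -, -, -, -, k5, k6, k7⟩ := find (d := d)
    (by rw [d2, hX]; exact Nat.coprime_pow_primes b 3 hr hq hrp) ⊥ ⊥ (lay_bot d) fun h => by
      have := (card_sub κ hκ (cM.pow_right b).symm (hM.trans (mul_comm _ _))).1
      rw [← d3, le_bot_iff.1 h, Subgroup.card_bot] at this
      rw [hM, ← this, mul_one] at h1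
      exact hr.one_lt.ne' (Nat.eq_one_of_dvd_coprimes cM h1 dvd_rfl)
  obtain ⟨j, L, hL, cL⟩ := sp q hq
  let _ := S.tact (G := G) (E := E) (q ^ j)
  obtain ⟨e, e1, e2, e3, e4, e5⟩ := mkd2 κ hκ a ha hg hL (cL.pow_right j)
  have hZ : ∀ u ∈ e.W, d.c u = 0 := fun u hu => d4 u (by
    obtain ⟨t, ht⟩ := (Nat.coprime_pow_primes j b hq hr hrp.symm).dvd_of_dvd_mul_right
      (hM ▸ hL ▸ dvd_mul_left _ _)
    rw [e3] at hu
    rw [mem_tor, ht, mul_nsmul, show q ^ j • κ u = 0 from hu, smul_zero])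
  have hWc : ∀ u ∈ d.W, e.c u = 0 := fun u hu => e4 u (by
    obtain ⟨t, ht⟩ := (Nat.coprime_pow_primes b j hr hq hrp).dvd_of_dvd_mul_right
      (hL ▸ hM ▸ dvd_mul_left _ _)
    rw [d3] at hu
    rw [mem_tor, ht, mul_nsmul, show 2 ^ b • κ u = 0 from hu, smul_zero])
  obtain ⟨f1, f2⟩ := card_sub κ hκ (cL.pow_right j).symm (hL.trans (mul_comm _ _))
  rw [← e3] at f1 f2
  have hP : ¬q ∣ e.W.index := f2 ▸ hq.coprime_iff_not_dvd.1 cL.symm
  have tr := cube_tr hq hX e.W hP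
  obtain ⟨w, hw, w0, w1⟩ := cube_w d I (KK_normal N hN) (P := e.W)
    (fun v => by rw [d2]; exact Subtype.ext v.2) (by
      rw [d2]
      exact (Nat.coprime_pow_primes j b hq hr hrp.symm).coprime_dvd_left
        ((Subgroup.card_dvd_of_le inf_le_left).trans f1.dvd)) hZ
    (by rw [d3, e3]; exact fun u hu w hw => swap κ hκ hu hw) k5 k7
  exact cube_red H1 H2 e hq h5 e2 (e1 ▸ cL) (fun v => Subtype.ext v.2) hX hN
    (fun w hw => d2 ▸ d.hW w hw) hWc (by rw [d3, e3]; exact fun u hu w hw => swap κ hκ hu hw) tr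
    (cube_gen e hq e2 (fun v => Subtype.ext v.2) cL (fun g => hL ▸ pow_card_eq_one') hP tr
      (e5 g x c1) c2 c3) k6 hw w0 w1

end Pool.Agent.P.MP_6d14ae_al.B
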