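import Pool.Agent.P.MP_6d14ae_al.U.Fam

/-! An indecomposable cycle set of size 27 with a cycle of length two. -/

set_option autoImplicit false

namespace Pool.Agent.P.MP_6d14ae_al.B

theorem ex27 : U.Cyc 27 2 := by
  have hc : Fintype.card (ZMod 3 × ZMod 3 × ZMod 3) = 27 := by simp
  have h3 : (3 : ZMod 3) = 0 := rfl
  rw [← hc]
  refine U.cyc_of (fun s t => (-(t.1 + s.2.2), -(t.2.1 + t.1 - s.1), -(t.2.2 + s.2.1 + t.2.1)))
    ?_ ?_ ?_ Nat.prime_two 0 (0, 0, 1) (by decide) (by decide)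
  · rintro ⟨a, u, x⟩ ⟨b, v, y⟩ ⟨c, w, z⟩ e
    simp only [Prod.mk.injEq, neg_inj, add_left_inj] at e
    obtain ⟨rfl, e1, e2⟩ := e
    obtain rfl : v = w := by linear_combination e1
    obtain rfl : y = z := by linear_combination e2
    rfl
  · rintro ⟨a, u, x⟩ ⟨b, v, y⟩ ⟨c, w, z⟩
    simp only [Prod.mk.injEq]
    refine ⟨by ring, by ring, ?_⟩
    linear_combination (b - a) * h3
  · rintro P h ⟨b, v, y⟩ ⟨c, w, z⟩
    refine (h 0 (w + c - v - b, y + v - z - w, b - c) _ _ ?_).1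
    simp only [Prod.mk.injEq, Prod.fst_zero, Prod.snd_zero]
    refine ⟨?_, ?_, ?_⟩ <;> ring

end Pool.Agent.P.MP_6d14ae_al.B
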