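import Mathlib

/-! A functional equation over a prime field. -/

set_option autoImplicit false

namespace Pool.Agent.P.MP_6d14ae_al.B

theorem fe2_const {q : ℕ} [Fact q.Prime] {δ : ZMod q} (hδ : δ ≠ 0) (g : ZMod q → ZMod q)
    (h : ∀ t, g (t + δ) = g t) (x : ZMod q) : g x = g 0 := by
  have h1 : ∀ k : ℕ, g (k * δ) = g 0 := fun k => by
    induction k with
    | zero => simp
    | succ k ih => rw [Nat.cast_succ, add_mul, one_mul, h, ih]
  rw [← h1 (x / δ).val, ZMod.natCast_zmod_val, div_mul_cancel₀ _ hδ]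

theorem fe2 {q : ℕ} [Fact q.Prime] (h2 : q ≠ 2) (δ ρ κ : ZMod q) (hδ : δ ≠ 0) (hρ : ρ ≠ 0)
    (φ μ : ZMod q → ZMod q → ZMod q → ZMod q → ZMod q)
    (D : ∀ a u x c, φ a u (x + δ) c = φ a u x c + ρ * (a + x) + κ)
    (E2 : ∀ a u x b v y c, φ a u x c + φ (b + x) (v + φ a u x b) (y + μ a u b v) (c + x) =
      φ b v y c + φ (a + y) (u + φ b v y a) (x + μ a u b v) (c + y)) :
    ∀ a u b v, a ≠ b → μ a u b v = 0 := by
  have t2 : (2 : ZMod q) ≠ 0 := fun h => h2 ((Nat.prime_dvd_prime_iff_eq Fact.out Nat.prime_two).1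
    ((ZMod.natCast_eq_zero_iff 2 q).1 (by exact_mod_cast h)))
  obtain ⟨h, hφ⟩ : ∃ h : ZMod q → ZMod q → ZMod q → ZMod q, ∀ a u x c, φ a u x c =
      h a u c + (ρ * (a * x / δ + x * (x - δ) / (2 * δ)) + κ * x / δ) := by
    refine ⟨fun a u c => φ a u 0 c, fun a u x c => ?_⟩
    have := fe2_const hδ
      (fun x => φ a u x c - (ρ * (a * x / δ + x * (x - δ) / (2 * δ)) + κ * x / δ))
      (fun t => by
        rw [D]
        field_simp
        ring) x
    linear_combination this
  have E : ∀ a u x b v c, h a u c + h (b + x) (v + φ a u x b) (c + x) +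
      ρ / δ * (b - a) * μ a u b v = h b v c + h a (u + φ b v 0 a) c := fun a u x b v c => by
    have := E2 a u x b v 0 c
    rw [hφ a u x c, hφ (b + x), hφ b v 0 c, hφ (a + 0), add_zero a, add_zero c] at this
    have e : (2 * δ)⁻¹ * 2 = δ⁻¹ := by field_simp
    linear_combination this + ρ * x * μ a u b v * e
  have F : ∀ b v c t, h b v c = h (b + δ) t (c + δ) := fun b v c t => by
    obtain ⟨a, ha⟩ : ∃ a, t = v + (ρ * a + κ) := ⟨(t - v - κ) / ρ, by field_simp; ring⟩
    have e1 := E a 0 δ b (v - φ a 0 0 b) c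
    have e2 := E a 0 0 b (v - φ a 0 0 b) c
    have e3 : v - φ a 0 0 b + φ a 0 δ b = t := by
      have := D a 0 0 b
      rw [zero_add] at this
      rw [this, ha]
      ring
    rw [e3] at e1
    rw [sub_add_cancel, add_zero, add_zero] at e2
    linear_combination e2 - e1
  intro a u b v hab
  have e := E a u 0 b v 0
  rw [add_zero, add_zero, F a u 0 0, F b _ 0 0, F b v 0 0, F a _ 0 0] at e
  have e1 : ρ / δ * (b - a) * μ a u b v = 0 := by linear_combination e
  exact (mul_eq_zero.1 e1).resolve_left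
    (mul_ne_zero (div_ne_zero hρ hδ) (sub_ne_zero.2 hab.symm))

end Pool.Agent.P.MP_6d14ae_al.B
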