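import Mathlib

/-! A functional equation over a prime field. -/

set_option autoImplicit false

namespace Pool.Agent.P.MP_6d14ae_al.B

namespace Fe3A

variable {q : ℕ} [Fact q.Prime]

lemma reach (P : ZMod q → Prop) {d : ZMod q} (hd : d ≠ 0) (h : ∀ t, P t → P (t + d))
    {t : ZMod q} (ht : P t) (s : ZMod q) : P s := by
  have k : ∀ n : ℕ, P (t + n * d) := fun n => by
    induction n with
    | zero => simpa using ht
    | succ n ih =>
      have := h _ ih
      rwa [add_assoc, ← add_one_mul, ← Nat.cast_succ] at this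
  have := k ((s - t) / d).val
  rwa [ZMod.natCast_zmod_val, div_mul_cancel₀ _ hd, add_sub_cancel] at this

lemma per (g : ZMod q → ZMod q) {d : ZMod q} (hd : d ≠ 0) (h : ∀ t, g (t + d) = g t)
    (s t : ZMod q) : g s = g t :=
  reach (fun s => g s = g t) hd (fun x hx => (h x).trans hx) rfl s

lemma cyc (g : ZMod q → ZMod q) (h : ∀ u v, g u + g (v + g u) = g v + g (u + g v)) (s t : ZMod q) :
    g s = g t := by
  by_cases h0 : ∀ y, g y = 0
  · rw [h0, h0]
  obtain ⟨y, hy⟩ := not_forall.1 h0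
  by_cases hi : Function.Injective g
  · obtain ⟨x, hx⟩ := Finite.surjective_of_injective hi 0
    have := h x y
    rw [hx, zero_add, add_zero, left_eq_add, ← hx] at this
    exact absurd (by simpa using hi this) hy
  obtain ⟨x, x', e, hne⟩ := Function.not_injective_iff.1 hi
  have k := reach (fun t => g (x + t) = g (x' + t)) hy (t := 0) (fun t ht => by
    have h1 := h (x + t) y
    have h2 := h (x' + t) y
    rw [ht] at h1
    rw [← add_assoc, ← add_assoc]
    linear_combination h2 - h1) (by simpa using e)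
  refine per g (sub_ne_zero.2 hne) (fun t => ?_) s t
  have := k (t - x')
  rwa [add_sub_cancel, show x + (t - x') = t + (x - x') by ring] at this

lemma lin (M : ZMod q → ZMod q → ZMod q) {a b c : ZMod q}
    (h : ∀ u w, M (u + a) (w + b) = M u w + c) (t u w : ZMod q) :
    M (u + t * a) (w + t * b) = M u w + t * c := by
  refine reach (fun t => M (u + t * a) (w + t * b) = M u w + t * c) one_ne_zero (t := 0)
    (fun t ht => ?_) (by simp) t
  rw [add_one_mul, add_one_mul, add_one_mul, ← add_assoc, ← add_assoc, h, ht, add_assoc]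

lemma aff (M : ZMod q → ZMod q → ZMod q) {a b c a' b' c' : ZMod q} (hΔ : a * b' - b * a' ≠ 0)
    (h : ∀ u w, M (u + a) (w + b) = M u w + c) (h' : ∀ u w, M (u + a') (w + b') = M u w + c') :
    ∃ α β, ∀ u w, M u w = M 0 0 + α * u + β * w := by
  refine ⟨(b' * c - b * c') / (a * b' - b * a'), (a * c' - a' * c) / (a * b' - b * a'),
    fun u w => ?_⟩
  have e := lin M h' ((w * a - u * b) / (a * b' - b * a'))
    (0 + (u * b' - w * a') / (a * b' - b * a') * a) (0 + (u * b' - w * a') / (a * b' - b * a') * b)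
  rw [lin M h] at e
  have e1 : 0 + (u * b' - w * a') / (a * b' - b * a') * a +
      (w * a - u * b) / (a * b' - b * a') * a' = u := by
    linear_combination u * mul_inv_cancel₀ hΔ
  have e2 : 0 + (u * b' - w * a') / (a * b' - b * a') * b +
      (w * a - u * b) / (a * b' - b * a') * b' = w := by
    linear_combination w * mul_inv_cancel₀ hΔ
  rw [e1, e2] at e
  rw [e]
  ring

lemma ind (γ : ZMod q → ZMod q) (hγ : ¬ ∀ s t, γ s = γ t) {p : ZMod q} (hp : p ≠ 0) :
    ∃ r r', γ (r - p) * γ r' - γ r * γ (r' - p) ≠ 0 := by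
  by_contra hc
  simp only [not_exists, not_not] at hc
  obtain ⟨r₀, h0⟩ : ∃ r, γ r ≠ 0 := by
    by_contra h
    simp only [not_exists, not_not] at h
    exact hγ fun s t => by rw [h, h]
  obtain ⟨θ, hθ⟩ : ∃ θ, ∀ r, γ (r - p) = θ * γ r := ⟨γ (r₀ - p) / γ r₀, fun r => by
    field_simp
    linear_combination hc r r₀⟩
  have k : ∀ n : ℕ, γ (r₀ - n * p) = θ ^ n * γ r₀ := fun n => by
    induction n with
    | zero => simp
    | succ n ih => rw [Nat.cast_succ, add_one_mul, ← sub_sub, hθ, ih]; ring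
  have := k q
  rw [ZMod.natCast_self, zero_mul, sub_zero, ZMod.pow_card] at this
  have h1 : θ = 1 := mul_right_cancel₀ h0 (by rw [← this, one_mul])
  exact hγ (per γ (neg_ne_zero.2 hp) fun t => by rw [← sub_eq_add_neg, hθ, h1, one_mul])

lemma nz (h5 : 5 ≤ q) {n : ℕ} (h0 : 0 < n) (h : n < 5) : (n : ZMod q) ≠ 0 := fun e => by
  have := Nat.le_of_dvd h0 ((ZMod.natCast_eq_zero_iff _ _).1 e)
  omega

lemma fin (h5 : 5 ≤ q) (ε : ZMod q) (hε : ε = 1 ∨ ε = -1) (γ α : ZMod q → ZMod q)
    (hγ : ¬ ∀ s t, γ s = γ t) (g1 : ∀ p, γ (-p) = ε * γ p) (a1 : ∀ p, α (-p) = -ε * α p)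
    (H : ∀ p r, α p * (γ (r - p) - ε * γ r) = α r * (γ (p - r) - ε * γ p)) (p : ZMod q) :
    α p = 0 := by
  have n2 : (2 : ZMod q) ≠ 0 := by simpa using nz h5 (n := 2) (by omega) (by omega)
  have n3 : (3 : ZMod q) ≠ 0 := by simpa using nz h5 (n := 3) (by omega) (by omega)
  obtain ⟨r₀, h0⟩ : ∃ r, γ r ≠ γ 0 := by
    by_contra h
    simp only [not_exists, not_not] at h
    exact hγ fun s t => by rw [h, h t]
  have stop : ∀ d, d ≠ 0 → ¬ ∀ r, γ r ≠ γ 0 → γ (r - d) ≠ γ 0 := fun d hd h =>
    reach (fun r => γ r ≠ γ 0) (neg_ne_zero.2 hd) (fun t ht => sub_eq_add_neg t d ▸ h t ht) h0 0 rfl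
  by_contra hp
  rcases hε with rfl | rfl
  · have a0 : α 0 = 0 := mul_left_cancel₀ n2 (by
      have := a1 0
      rw [neg_zero] at this
      linear_combination this)
    refine stop p (fun e => hp (e ▸ a0)) fun r hr => ?_
    have h1 := H 0 r
    rw [a0, zero_mul, zero_sub, g1, one_mul, one_mul] at h1
    have h2 := (mul_eq_zero.1 h1.symm).resolve_right (sub_ne_zero.2 hr)
    have h3 := H p r
    rw [h2, zero_mul, one_mul] at h3
    rwa [sub_eq_zero.1 ((mul_eq_zero.1 h3).resolve_left hp)]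
  · have g0 : γ 0 = 0 := mul_left_cancel₀ n2 (by
      have := g1 0
      rw [neg_zero] at this
      linear_combination this)
    rw [g0] at stop h0
    have g2 : ∀ p r, γ (p - r) = -γ (r - p) := fun p r => by
      rw [← neg_sub, g1]; ring
    have h1 : ∀ r, γ r ≠ 0 → α r = -2 * α 0 := fun r hr => mul_left_cancel₀ hr (by
      have := H 0 r
      rw [zero_sub, sub_zero, g1, g0] at this
      linear_combination this)
    by_cases a0 : α 0 = 0
    · refine stop p (fun e => hp (e ▸ a0)) fun r hr e => hr (mul_left_cancel₀ hp ?_)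
      have h3 := H p r
      rw [h1 r hr, a0, e] at h3
      linear_combination h3
    have h2 : ∀ p r, γ p ≠ 0 → γ r ≠ 0 → 2 * γ (r - p) = γ p - γ r := fun p r hp hr =>
      mul_left_cancel₀ (mul_ne_zero n2 a0) (by
        have := H p r
        rw [h1 p hp, h1 r hr, g2 p r] at this
        linear_combination -this)
    have m0 : γ (-r₀) ≠ 0 := by rw [g1]; simpa using h0
    have h3 : γ (2 * r₀) = -γ r₀ := mul_left_cancel₀ n2 (by
      have := h2 (-r₀) r₀ m0 h0
      rw [g1, show r₀ - -r₀ = 2 * r₀ by ring] at this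
      linear_combination this)
    have h4 : γ (3 * r₀) = 0 := mul_left_cancel₀ n2 (by
      have := h2 (-r₀) (2 * r₀) m0 (by rw [h3]; simpa using h0)
      rw [g1, h3, show 2 * r₀ - -r₀ = 3 * r₀ by ring] at this
      linear_combination this)
    have h6 : α (3 * r₀) = α 0 := mul_left_cancel₀ (mul_ne_zero n2 h0) (by
      have := H r₀ (3 * r₀)
      rw [g2 r₀, show 3 * r₀ - r₀ = 2 * r₀ by ring, h3, h4, h1 r₀ h0] at this
      linear_combination -this)
    refine stop (3 * r₀) (mul_ne_zero n3 fun e => h0 (e ▸ g0)) fun r hr e =>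
      hr (mul_left_cancel₀ a0 ?_)
    have := H (3 * r₀) r
    rw [g2 (3 * r₀), e, h4, h6] at this
    linear_combination this

lemma mid (h5 : 5 ≤ q) (ε : ZMod q) (hε : ε = 1 ∨ ε = -1) (γ : ZMod q → ZMod q)
    (m : ZMod q → ZMod q → ZMod q → ZMod q) (hγ : ¬ ∀ s t, γ s = γ t)
    (g1 : ∀ p, γ (-p) = ε * γ p)
    (E : ∀ p r u v w, m p u w + m r (v + γ (p - r)) (w + γ p) =
      m r v w + m p (u + γ (r - p)) (w + γ r))
    (S : ∀ p u w, m p u w = m (-p) w u) (J : ∀ p u w, m (-p) (ε * u) (ε * w) = -m p u w)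
    (p u w : ZMod q) : m p u w = 0 := by
  have n2 : (2 : ZMod q) ≠ 0 := by simpa using nz h5 (n := 2) (by omega) (by omega)
  have e2 : ε * ε = 1 := by rcases hε with rfl | rfl <;> simp
  have A1 : ∀ p r u w, m p (u + γ (r - p)) (w + γ r) - m p u w =
      m p (0 + γ (r - p)) (w + γ r) - m p 0 w := fun p r u w => by
    linear_combination E p r 0 0 w - E p r u 0 w
  have A2 : ∀ p r u w, m p (u + γ (r - p)) (w + γ r) = m p u w +
      (m p (0 + γ (r - p)) (0 + γ r) - m p 0 0) := fun p r u w => by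
    have h1 := A1 (-p) (r - p) w 0
    rw [show r - p - -p = r by ring, ← S, ← S, ← S, ← S] at h1
    linear_combination A1 p r u w + h1
  have F : ∀ p u w, m p u w = m p 1 0 * (u - ε * w) := fun p => by
    have J' : ∀ u w, m p (ε * w) (ε * u) = -m p u w := fun u w => by rw [S, J]
    by_cases hp : p = 0
    · subst hp
      have S0 : ∀ u w, m 0 u w = m 0 w u := fun u w => by rw [S, neg_zero]
      obtain ⟨r, h0⟩ : ∃ r, γ r ≠ 0 := by
        by_contra h
        simp only [not_exists, not_not] at h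
        exact hγ fun s t => by rw [h, h]
      rcases hε with rfl | rfl
      · have z : ∀ u w, m 0 u w = 0 := fun u w => mul_left_cancel₀ n2 (by
          have := J' u w
          rw [one_mul, one_mul, S0] at this
          linear_combination this)
        intro u w
        rw [z, z, zero_mul]
      · obtain ⟨c, hc⟩ : ∃ c, ∀ u w, m 0 (u + γ r) (w + γ r) = m 0 u w + c :=
          ⟨_, fun u w => by simpa only [sub_zero] using A2 0 r u w⟩
        have z : ∀ u w, 2 * m 0 u w = (u + w) / γ r * c := fun u w => by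
          have h1 := lin (m 0) hc ((u + w) / γ r) (-1 * w) (-1 * u)
          rw [div_mul_cancel₀ _ h0, J', show -1 * w + (u + w) = u by ring,
            show -1 * u + (u + w) = w by ring] at h1
          linear_combination h1
        intro u w
        refine mul_left_cancel₀ n2 ?_
        rw [z, ← mul_assoc, z]
        ring
    · obtain ⟨r, r', hr⟩ := ind γ hγ hp
      obtain ⟨α, β, h⟩ := aff (m p) hr (A2 p r) (A2 p r')
      have k0 : m p 0 0 = 0 := mul_left_cancel₀ n2 (by
        have := J' 0 0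
        rw [mul_zero] at this
        linear_combination this)
      have hβ := J' 1 0
      rw [h, h 1 0, k0] at hβ
      intro u w
      rw [h, h 1 0, k0]
      linear_combination ε * w * hβ - β * w * e2
  have := fin h5 ε hε γ (fun p => m p 1 0) hγ g1 (fun p => by
    rw [← S, F]; ring) (fun p r => by
      have h1 := E p r 0 0 0
      rw [F p 0 0, F r 0 0, F r (0 + _), F p (0 + _)] at h1
      linear_combination -h1) p
  rw [F, this, zero_mul]

end Fe3A

open Fe3A in
theorem fe3 {q : ℕ} [Fact q.Prime] (h5 : 5 ≤ q) (ε δ : ZMod q) (hε : ε = 1 ∨ ε = -1) (hδ : δ ≠ 0)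
    (φ μ : ZMod q → ZMod q → ZMod q → ZMod q → ZMod q)
    (D : ∀ a u x c, φ a u (x + δ) c = φ a u x c)
    (E2 : ∀ a u x b v y c, φ a u x c + φ (b + x) (v + φ a u x b) (y + μ a u b v) (c + x) =
      φ b v y c + φ (a + y) (u + φ b v y a) (x + μ a u b v) (c + y))
    (E3 : ∀ a u x b v y c w, μ a u c w + μ (b + x) (v + φ a u x b) (c + x) (w + φ a u x c) =
      μ b v c w + μ (a + y) (u + φ b v y a) (c + y) (w + φ b v y c))
    (S : ∀ a u b v, μ a u b v = μ b v a u)
    (J1 : ∀ a u x c, φ (-a) (ε * u) (-x) (-c) = ε * φ a u x c)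
    (J2 : ∀ a u b v, μ (-a) (ε * u) (-b) (ε * v) = -μ a u b v) :
    (∀ a u b v, μ a u b v = 0) ∨ ∃ k, ∀ a u x c, φ a u x c = k := by
  have e0 : ε ≠ 0 := by rcases hε with rfl | rfl <;> simp
  obtain ⟨h, rfl⟩ : ∃ h : ZMod q → ZMod q → ZMod q → ZMod q, φ = fun a u _ c => h a u c :=
    ⟨fun a u c => φ a u 0 c, by
      funext a u x c
      exact per (fun x => φ a u x c) hδ (fun t => D a u t c) x 0⟩
  obtain ⟨η, rfl⟩ : ∃ η : ZMod q → ZMod q → ZMod q, h = fun a u c => η u (c - a) :=
    ⟨fun u p => h 0 u p, by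
      funext a u c
      have h1 := E2 0 0 a 0 (u - h 0 0 0) 0 (c - a)
      have h2 := E2 0 0 0 0 (u - h 0 0 0) 0 (c - a)
      simp only [zero_add, add_zero, sub_add_cancel] at h1 h2
      linear_combination h1 - h2⟩
  obtain ⟨m, rfl⟩ : ∃ m : ZMod q → ZMod q → ZMod q → ZMod q, μ = fun a u c w => m (c - a) u w :=
    ⟨fun p u w => μ 0 u p w, by
      funext a u c w
      have h1 := E3 0 0 a 0 (u - η 0 0) 0 (c - a) (w - η 0 (c - a))
      have h2 := E3 0 0 0 0 (u - η 0 0) 0 (c - a) (w - η 0 (c - a))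
      simp only [zero_add, add_zero, sub_zero, sub_add_cancel] at h1 h2
      linear_combination h1 - h2⟩
  have F2 : ∀ p r u v, η u p + η (v + η u (p - r)) r = η v r + η (u + η v (r - p)) p :=
    fun p r u v => by simpa using E2 0 u 0 (p - r) v 0 p
  have K1 : ∀ u p, η (ε * u) (-p) = ε * η u p := fun u p => by simpa using J1 0 u 0 p
  have c0 := cyc (fun u => η u 0) fun u v => by simpa using F2 0 0 u v
  obtain ⟨γ, rfl⟩ : ∃ γ : ZMod q → ZMod q, η = fun _ p => γ p := ⟨η 0, by
    funext u p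
    by_cases hz : ∀ v, η v (-p) = 0
    · have z : ∀ u, η u p = 0 := fun u => (mul_eq_zero.1 ((K1 u p).symm.trans (hz _))).resolve_left e0
      rw [z, z]
    · obtain ⟨v, hv⟩ := not_forall.1 hz
      refine per (fun u => η u p) hv (fun t => ?_) u 0
      have h1 := F2 p 0 t v
      rw [zero_sub] at h1
      linear_combination c0 (v + η t (p - 0)) v - h1⟩
  by_cases hγ : ∀ s t, γ s = γ t
  · exact .inr ⟨γ 0, fun a u x c => hγ _ _⟩
  · exact .inl fun a u b v => mid h5 ε hε γ m hγ (K1 0)
      (fun p r u v w => by simpa using E3 0 u 0 (p - r) v 0 p w)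
      (fun p u w => by simpa using S 0 u p w) (fun p u w => by simpa using J2 0 u p w) _ _ _

end Pool.Agent.P.MP_6d14ae_al.B
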