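import Pool.Agent.P.MP_6d14ae_al.B.Ifc
import Pool.Agent.P.MP_6d14ae_al.B.Fe2
import Pool.Agent.P.MP_6d14ae_al.B.Fe3

/-! Prime cubes: coordinates for the main line of the twist. -/

set_option autoImplicit false

namespace Pool.Agent.P.MP_6d14ae_al.B

open MulAction T V
open S hiding Dat Lay c_one c_div facN ext_b triK next chi chi_one

theorem mln_exp {G : Type} [Group G] {q : ℕ} (hq : q.Prime) {H : Subgroup G} {g : G} (h0 : g ∉ H)
    (h1 : g ^ q ∈ H) {a b : ℕ} (h : (g ^ a)⁻¹ * g ^ b ∈ H) : (a : ZMod q) = b := by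
  obtain ⟨r, rfl⟩ : ∃ r, q = r + 1 := ⟨q - 1, by have := hq.pos; omega⟩
  have h2 : g ^ (b + r * a) ∈ H := by
    convert mul_mem h (pow_mem h1 a) using 1
    rw [← pow_mul, mul_assoc, ← pow_add, eq_inv_mul_iff_mul_eq, ← pow_add]
    congr 1
    ring
  have h3 : (r + 1) ∣ b + r * a := by_contra fun k =>
    h0 (cop H (hq.coprime_iff_not_dvd.2 k) h1 h2)
  have h4 := (ZMod.natCast_eq_zero_iff _ _).2 h3
  have h5 := ZMod.natCast_self (r + 1)
  push_cast at h4 h5
  linear_combination (a : ZMod (r + 1)) * h5 - h4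

theorem mln_co {G X : Type} [Group G] [MulAction G X] [FaithfulSMul G X] {q : ℕ} (hq : q.Prime)
    (P T : Subgroup G) (hX : Nat.card X = q ^ 3) (tr : ∀ x y : X, ∃ p ∈ P, p • x = y)
    (j z l y : G) (o : X) (ψ : G → ZMod q) (ε : ℤ) (hP : P.Normal) (jo : j • o = o)
    (ψm : ∀ p ∈ P, ∀ p' ∈ P, ψ (p * p') = ψ p + ψ p') (ψj : ∀ p ∈ P, ψ (j * p * j⁻¹) = -ψ p)
    (ψs : ∀ x : X, ∀ p ∈ P, p • x = x → ψ p = 0) (zP : z ∈ P) (zc : ∀ p ∈ P, p * z = z * p)
    (zq : z ^ q = 1) (z1 : z ≠ 1) (zj : j * z * j⁻¹ = z⁻¹) (ψz : ψ z = 0)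
    (hT : ∀ t, t ∈ T ↔ t ∈ P ∧ ∀ x : X, ∃ k : ℕ, t • x = z ^ k • x)
    (lP : l ∈ P) (ψl : ψ l = 1) (lq : l ^ q ∈ T) (lj : j * l * j⁻¹ * l ∈ T)
    (yP : y ∈ P) (ψy : ψ y = 0) (yT : y ∉ T) (yq : y ^ q ∈ T)
    (yc : ∀ p ∈ P, y⁻¹ * p * y * p⁻¹ ∈ T) (hε : ε = 1 ∨ ε = -1)
    (yj : (y ^ ε)⁻¹ * (j * y * j⁻¹) ∈ T) :
    ∃ (t1 t2 : X → ZMod q) (r : ZMod q → X), t1 o = 0 ∧ (∀ p ∈ P, ∀ x, t1 (p • x) = ψ p + t1 x) ∧
      (∀ x, t1 (j • x) = -t1 x) ∧ (∀ t ∈ T, ∀ x, t2 (t • x) = t2 x) ∧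
      (∀ x, t2 (l • x) = t2 x) ∧ (∀ x, t2 (y • x) = t2 x + 1) ∧ (∀ x, t2 (j • x) = ε * t2 x) ∧
      (∀ x x', t1 x = t1 x' → t2 x = t2 x' → ∃ k : ℕ, x = z ^ k • x') ∧
      ∀ p ∈ P, ∀ x, t2 (p • x) = t2 x + t2 (p • r (t1 x)) := by
  have := Fact.mk hq
  have : Finite X := Nat.finite_of_card_ne_zero (hX ▸ pow_ne_zero 3 hq.ne_zero)
  have ψ1 : ψ 1 = 0 := ψs o 1 P.one_mem (one_smul _ _)
  have ψi : ∀ p ∈ P, ψ p⁻¹ = -ψ p := fun p hp => by
    have := ψm p⁻¹ (inv_mem hp) p hp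
    rw [inv_mul_cancel, ψ1] at this
    linear_combination -this
  have ψp : ∀ p ∈ P, ∀ n : ℕ, ψ (p ^ n) = n * ψ p := fun p hp n => by
    induction n with
    | zero => simpa using ψ1
    | succ n ih => rw [pow_succ, ψm _ (pow_mem hp n) _ hp, ih]; push_cast; ring
  choose g gP go using tr o
  have a0 : ∀ p ∈ P, ψ (g (p • o)) = ψ p := fun p hp => by
    have := ψs o (p⁻¹ * g (p • o)) (mul_mem (inv_mem hp) (gP _)) (by rw [mul_smul, go, inv_smul_smul])
    rw [ψm _ (inv_mem hp) _ (gP _), ψi p hp] at this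
    linear_combination this
  obtain ⟨t1, ht1⟩ : ∃ t1 : X → ZMod q, t1 = fun x => ψ (g x) := ⟨_, rfl⟩
  have a1 : ∀ p ∈ P, ∀ x, t1 (p • x) = ψ p + t1 x := fun p hp x => by
    rw [ht1]
    conv_lhs => rw [← go x, ← mul_smul]
    exact (a0 _ (mul_mem hp (gP x))).trans (ψm _ hp _ (gP x))
  have a2 : t1 o = 0 := by simpa [ht1, ψ1] using a0 1 P.one_mem
  have a3 : ∀ x, t1 (j • x) = -t1 x := fun x => by
    have e : j • x = (j * g x * j⁻¹) • o := by
      rw [mul_smul, inv_smul_eq_iff.2 jo.symm, mul_smul, go]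
    rw [e, a1 _ (hP.conj_mem _ (gP x) j), a2, ψj _ (gP x), add_zero, ht1]
  let π : X → orbitRel.Quotient (Subgroup.zpowers z) X := Quotient.mk''
  have zf : IsOfFinOrder z := isOfFinOrder_iff_pow_eq_one.2 ⟨q, hq.pos, zq⟩
  have r1 : ∀ x x', π x = π x' ↔ ∃ k : ℕ, x = z ^ k • x' := fun x x' => by
    rw [Quotient.eq'', orbitRel_apply]
    constructor
    · rintro ⟨⟨u, hu⟩, e⟩
      obtain ⟨k, rfl⟩ := zf.mem_powers_iff_mem_zpowers.2 hu
      exact ⟨k, e.symm⟩
    · rintro ⟨k, e⟩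
      exact ⟨⟨z ^ k, Subgroup.npow_mem_zpowers z k⟩, e.symm⟩
  have zc' : ∀ p ∈ P, ∀ k : ℕ, p * z ^ k = z ^ k * p := fun p hp k =>
    (Commute.pow_right (zc p hp) k).eq
  have r2 : ∀ p ∈ P, ∀ x x', π x = π x' → π (p • x) = π (p • x') := fun p hp x x' h => by
    obtain ⟨k, rfl⟩ := (r1 _ _).1 h
    exact (r1 _ _).2 ⟨k, by rw [← mul_smul, zc' p hp, mul_smul]⟩
  have r3 : ∀ x x', π x = π x' → π (j • x) = π (j • x') := fun x x' h => by
    obtain ⟨k, rfl⟩ := (r1 _ _).1 h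
    refine ((r1 _ _).2 ⟨k, ?_⟩).symm
    have e : j * z ^ k * j⁻¹ = (z ^ k)⁻¹ := by rw [← conj_pow, zj, inv_pow]
    rw [← mul_smul j, ← inv_mul_cancel_right (j * z ^ k) j, e, mul_smul, smul_inv_smul]
  have r4 : ∀ t ∈ T, ∀ x, π (t • x) = π x := fun t ht x => (r1 _ _).2 (((hT t).1 ht).2 x)
  have r5 : ∀ x x', π x = π x' → t1 x = t1 x' := fun x x' h => by
    obtain ⟨k, rfl⟩ := (r1 _ _).1 h
    rw [a1 _ (pow_mem zP k), ψp z zP, ψz, mul_zero, zero_add]
  have com : ∀ p ∈ P, ∀ (n : ℕ) x, π (y ^ n • p • x) = π (p • y ^ n • x) := fun p hp n => by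
    induction n with
    | zero => simp
    | succ n ih =>
      intro x
      have e : p • y • y ^ n • x = y • (y⁻¹ * p * y * p⁻¹) • p • y ^ n • x := by
        simp [mul_smul]
      rw [pow_succ', mul_smul, mul_smul, e, r2 y yP _ _ (ih x), r2 y yP _ _ (r4 _ (yc p hp) _)]
  have fr : ∀ (u u' : ℕ) x, π (y ^ u • x) = π (y ^ u' • x) → (u : ZMod q) = u' := fun u u' x h => by
    refine mln_exp hq yT yq ((hT _).2 ⟨mul_mem (inv_mem (pow_mem yP _)) (pow_mem yP _),
      fun x' => (r1 _ _).1 ?_⟩)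
    obtain ⟨p, hp, rfl⟩ := tr x x'
    have := r2 _ (inv_mem (pow_mem yP u)) _ _
      ((com p hp u' x).trans ((r2 p hp _ _ h.symm).trans (com p hp u x).symm))
    rwa [inv_smul_smul, ← mul_smul] at this
  have per : ∀ (a a' : ℕ) x, (a : ZMod q) = a' → π (l ^ a • x) = π (l ^ a' • x) := by
    have : ∀ (a : ℕ) x, π (l ^ a • x) = π (l ^ (a % q) • x) := fun a x => by
      conv_lhs => rw [← Nat.mod_add_div a q, pow_add, pow_mul, mul_smul]
      exact r2 _ (pow_mem lP _) _ _ (r4 _ (pow_mem lq _) _)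
    intro a a' x h
    rw [this a, this a', (ZMod.natCast_eq_natCast_iff' _ _ _).1 h]
  have a4 : ∀ a u : ℕ, t1 (l ^ a • y ^ u • o) = a := fun a u => by
    rw [a1 _ (pow_mem lP _), a1 _ (pow_mem yP _), a2, ψp l lP, ψp y yP, ψl, ψy]
    ring
  have inj : ∀ a u a' u' : ℕ, π (l ^ a • y ^ u • o) = π (l ^ a' • y ^ u' • o) →
      (a : ZMod q) = a' ∧ (u : ZMod q) = u' := fun a u a' u' h => by
    have e : (a : ZMod q) = a' := by rw [← a4 a u, r5 _ _ h, a4]
    refine ⟨e, fr u u' o ?_⟩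
    have := r2 _ (inv_mem (pow_mem lP a)) _ _ (h.trans (per _ _ _ e.symm))
    rwa [inv_smul_smul, inv_smul_smul] at this
  let Θ : ZMod q × ZMod q × ZMod q → X := fun v =>
    z ^ v.2.2.val • l ^ v.1.val • y ^ v.2.1.val • o
  have hΘ : Function.Bijective Θ := by
    refine (Nat.bijective_iff_injective_and_card Θ).2 ⟨?_, by simp [hX]; ring⟩
    rintro ⟨a, u, k⟩ ⟨a', u', k'⟩ h
    have h1 := inj _ _ _ _ ((((r1 _ _).2 ⟨_, rfl⟩).symm.trans (congrArg π h)).trans
      ((r1 _ _).2 ⟨_, rfl⟩))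
    simp only [ZMod.natCast_zmod_val] at h1
    obtain ⟨rfl, rfl⟩ := h1
    have h2 : (k.val : ZMod q) = k'.val := mln_exp hq (H := ⊥) z1 zq (by
      refine eq_of_smul_eq_smul (α := X) fun x => ?_
      obtain ⟨p, hp, rfl⟩ := tr (l ^ a.val • y ^ u.val • o) x
      have h3 : z ^ k.val • l ^ a.val • y ^ u.val • o = z ^ k'.val • l ^ a.val • y ^ u.val • o := h
      rw [mul_smul, ← mul_smul _ p, ← zc' p hp, mul_smul, ← h3, ← mul_smul p, zc' p hp, mul_smul,
        inv_smul_smul, one_smul])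
    simp only [ZMod.natCast_zmod_val] at h2
    rw [h2]
  choose Ξ hΞ using hΘ.2
  obtain ⟨t2, ht2⟩ : ∃ t2 : X → ZMod q, t2 = fun x => (Ξ x).2.1 := ⟨_, rfl⟩
  have rp0 : ∀ x, π x = π (l ^ (Ξ x).1.val • y ^ (t2 x).val • o) := fun x =>
    (r1 _ _).2 ⟨(Ξ x).2.2.val, by rw [ht2]; exact (hΞ x).symm⟩
  have ch : ∀ x (a u : ℕ), π x = π (l ^ a • y ^ u • o) → t2 x = u := fun x a u h => by
    simpa using (inj _ _ _ _ ((rp0 x).symm.trans h)).2
  have rp : ∀ x, π x = π (l ^ (t1 x).val • y ^ (t2 x).val • o) := fun x => by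
    rw [r5 _ _ (rp0 x), a4, ZMod.natCast_zmod_val]
    exact rp0 x
  have b0 : ∀ x x', π x = π x' → t2 x = t2 x' := fun x x' h => by
    simpa using ch _ _ _ (h.trans (rp x'))
  have b2 : ∀ x, t2 (l • x) = t2 x := fun x => by
    have := r2 l lP _ _ (rp x)
    rw [← mul_smul, ← pow_succ'] at this
    simpa using ch _ _ _ this
  have b3 : ∀ x, t2 (y • x) = t2 x + 1 := fun x => by
    have := (r2 y yP _ _ (rp x)).trans (by simpa using com _ (pow_mem lP (t1 x).val) 1 _)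
    rw [← mul_smul y, ← pow_succ'] at this
    simpa using ch _ _ _ this
  have b3' : ∀ (n : ℕ) x, t2 (y ^ n • x) = t2 x + n := fun n x => by
    induction n with
    | zero => simp
    | succ n ih => rw [pow_succ', mul_smul, b3, ih]; push_cast; ring
  refine ⟨t1, t2, fun a => l ^ a.val • o, a2, a1, a3, fun t ht x => b0 _ _ (r4 t ht x), b2, b3,
    fun x => ?_, fun x x' h1 h2 => (r1 _ _).1 (by rw [rp x, rp x', h1, h2]), fun p hp x => ?_⟩
  · have c1 : ∀ x, t2 (j • l • x) = t2 (j • x) := fun x => by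
      have e : j • l • x = (j * l * j⁻¹ * l) • l⁻¹ • j • x := by simp [mul_smul]
      rw [e, b0 _ _ (r4 _ lj _), ← b2, smul_inv_smul]
    have c2 : ∀ x, t2 (j • y • x) = t2 (j • x) + ε := fun x => by
      have e : j • y • x = y ^ ε • ((y ^ ε)⁻¹ * (j * y * j⁻¹)) • j • x := by simp [mul_smul]
      rw [e, ← b0 _ _ (r4 _ yj (j • x))]
      rcases hε with rfl | rfl
      · simp [b3]
      · have := b3 (y ^ (-1 : ℤ) • ((y ^ (-1 : ℤ))⁻¹ * (j * y * j⁻¹)) • j • x)
        rw [zpow_neg_one, smul_inv_smul] at this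
        rw [zpow_neg_one, this]
        simp
    have c3 : ∀ a u : ℕ, t2 (j • l ^ a • y ^ u • o) = ε * u := fun a u => by
      induction a with
      | zero =>
        rw [pow_zero, one_smul]
        induction u with
        | zero => simpa [jo] using ch o 0 0 (by simp)
        | succ u ih => rw [pow_succ', mul_smul, c2, ih]; push_cast; ring
      | succ a ih => rw [pow_succ', mul_smul, c1, ih]
    rw [b0 _ _ (r3 _ _ (rp x)), c3, ZMod.natCast_zmod_val]
  · rw [b0 _ _ ((r2 p hp _ _ ((rp x).trans (com _ (pow_mem lP _) _ _).symm)).trans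
      (com p hp _ _).symm), b3', ZMod.natCast_zmod_val, add_comm]

theorem ml {q : ℕ} : ML q := by
  intro G X A _ _ _ _ _ _ s j z l y o ψ τ T δ ρ κ ε jW hP jo ψm ψj ψs zP zc zq zj ψz hT lP ψl lq lj
    yP ψy yT yq yc hε yj τP τc hδ τz τT hκ hρ
  have := Fact.mk s.hq
  have : Finite X := Nat.finite_of_card_ne_zero (s.hX ▸ pow_ne_zero 3 s.hq.ne_zero)
  have z1 : z ≠ 1 := by
    rintro rfl
    exact hδ (by simpa using τz o)
  obtain ⟨t1, t2, r, a0, a1, a2, b1, b2, b3, b4, b5, b6⟩ := mln_co s.hq s.e.W T s.hX s.tr j z l y o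
    ψ ε hP jo ψm ψj ψs zP zc zq z1 zj ψz hT lP ψl lq lj yP ψy yT yq yc hε yj
  obtain ⟨f, hf⟩ : ∃ f : X → ZMod q, ∀ x, ψ (τ x) = f x := ⟨_, fun _ => rfl⟩
  simp only [hf] at τz hρ
  have fz : ∀ (k : ℕ) x, f (z ^ k • x) = f x + k * δ := fun k x => by
    induction k with
    | zero => simp
    | succ k ih => rw [pow_succ', mul_smul, τz, ih]; push_cast; ring
  have ext : ∀ x x', t1 x = t1 x' → t2 x = t2 x' → f x = f x' → x = x' := fun x x' h1 h2 h3 => by
    obtain ⟨k, rfl⟩ := b5 x x' h1 h2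
    rw [fz, add_eq_left, mul_eq_zero, or_iff_left hδ, ZMod.natCast_eq_zero_iff] at h3
    obtain ⟨k, rfl⟩ := h3
    rw [pow_mul, zq, one_pow, one_smul]
  have hΘ : Function.Bijective fun x => (t1 x, t2 x, f x) := by
    refine (Nat.bijective_iff_injective_and_card _).2 ⟨fun x x' h => ?_, by simp [s.hX]; ring⟩
    simp only [Prod.mk.injEq] at h
    exact ext _ _ h.1 h.2.1 h.2.2
  obtain ⟨pt, p1, p2, p3⟩ : ∃ pt : ZMod q → ZMod q → ZMod q → X, (∀ a u x, t1 (pt a u x) = a) ∧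
      (∀ a u x, t2 (pt a u x) = u) ∧ ∀ a u x, f (pt a u x) = x := by
    choose Ξ hΞ using hΘ.2
    exact ⟨fun a u x => Ξ (a, u, x), fun a u x => congrArg (·.1) (hΞ _),
      fun a u x => congrArg (·.2.1) (hΞ _), fun a u x => congrArg (·.2.2) (hΞ _)⟩
  have cj : s.e.c j = 0 := (s.hW j).1 jW
  have cj' : s.e.c j⁻¹ = 0 := (s.hW _).1 (inv_mem jW)
  have τj : ∀ x, τ (j • x) = j * τ x * j⁻¹ := fun x => inv_injective (s.inj (inv_mem (τP _))
    (inv_mem (hP.conj_mem _ (τP x) j)) (by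
      rw [τc, s.e.hb, conj_inv, s.e.hc, s.e.hc, cj, cj', τc, smul_zero, add_zero, zero_add]))
  have fj : ∀ x, f (j • x) = -f x := fun x => by rw [← hf, τj, ψj _ (τP x), hf]
  have law : ∀ x x', τ (τ x • x') * τ x = τ (τ x' • x) * τ x' := fun x x' =>
    inv_injective (s.inj (inv_mem (mul_mem (τP _) (τP _))) (inv_mem (mul_mem (τP _) (τP _))) (by
      simp only [mul_inv_rev, s.e.hc, τc, s.e.hb, inv_smul_smul]
      exact add_comm _ _))
  have law' : ∀ x x' w : X, τ (τ x • x') • τ x • w = τ (τ x' • x) • τ x' • w := fun x x' w => by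
    rw [← mul_smul, law, mul_smul]
  have sy : ∀ x x', f (τ x • x') - f x' = f (τ x' • x) - f x := fun x x' => by
    have := congrArg ψ (law x x')
    rw [ψm _ (τP _) _ (τP _), ψm _ (τP _) _ (τP _), hf, hf, hf, hf] at this
    linear_combination this
  have nz : ∀ x x' x'', t1 x' = t1 x'' → t2 x' = t2 x'' →
      f (τ x • x') - f x' = f (τ x • x'') - f x'' := fun x x' x'' h1 h2 => by
    obtain ⟨k, rfl⟩ := b5 _ _ h1 h2
    rw [← mul_smul, (Commute.pow_right (zc _ (τP x)) k).eq, mul_smul, fz, fz]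
    ring
  obtain ⟨φ, hφ⟩ : ∃ φ : ZMod q → ZMod q → ZMod q → ZMod q → ZMod q,
      ∀ x x', t2 (τ x • x') = t2 x' + φ (t1 x) (t2 x) (f x) (t1 x') :=
    ⟨fun a u x c => t2 (τ (pt a u x) • r c), fun x x' => by
      beta_reduce
      rw [b6 _ (τP x), ext (pt _ _ _) x (p1 _ _ _) (p2 _ _ _) (p3 _ _ _)]⟩
  obtain ⟨μ, hμ⟩ : ∃ μ : ZMod q → ZMod q → ZMod q → ZMod q → ZMod q,
      ∀ x x', f (τ x • x') = f x' + μ (t1 x) (t2 x) (t1 x') (t2 x') :=
    ⟨fun a u b v => f (τ (pt a u 0) • pt b v 0) - f (pt b v 0), fun x x' => by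
      beta_reduce
      rw [nz _ (pt _ _ _) x' (p1 _ _ _) (p2 _ _ _), sy (pt _ _ _),
        nz _ (pt _ _ _) x (p1 _ _ _) (p2 _ _ _), sy x']
      ring⟩
  have h1 : ∀ x x', t1 (τ x • x') = t1 x' + f x := fun x x' => by
    rw [a1 _ (τP x), hf, add_comm]
  have S : ∀ a u b v, μ a u b v = μ b v a u := fun a u b v => by
    have := sy (pt a u 0) (pt b v 0)
    simp only [hμ, p1, p2] at this
    linear_combination this
  have E2 : ∀ a u x b v y c, φ a u x c + φ (b + x) (v + φ a u x b) (y + μ a u b v) (c + x) =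
      φ b v y c + φ (a + y) (u + φ b v y a) (x + μ a u b v) (c + y) := fun a u x b v y c => by
    have := congrArg t2 (law' (pt a u x) (pt b v y) (pt c 0 0))
    simp only [hφ, hμ, h1, p1, p2, p3, S b v a u] at this
    linear_combination this
  have E3 : ∀ a u x b v y c w, μ a u c w + μ (b + x) (v + φ a u x b) (c + x) (w + φ a u x c) =
      μ b v c w + μ (a + y) (u + φ b v y a) (c + y) (w + φ b v y c) := fun a u x b v y c w => by
    have := congrArg f (law' (pt a u x) (pt b v y) (pt c w 0))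
    simp only [hφ, hμ, h1, p1, p2, p3] at this
    linear_combination this
  have zT : z ∈ T := (hT z).2 ⟨zP, fun x => ⟨1, by rw [pow_one]⟩⟩
  have b2' : ∀ (n : ℕ) x, t2 (l ^ n • x) = t2 x := fun n x => by
    induction n with
    | zero => simp
    | succ n ih => rw [pow_succ', mul_smul, b2, ih]
  have b3' : ∀ (n : ℕ) x, t2 (y ^ n • x) = t2 x + n := fun n x => by
    induction n with
    | zero => simp
    | succ n ih => rw [pow_succ', mul_smul, b3, ih]; push_cast; ring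
  have D : ∀ a u x c, φ a u (x + δ) c = φ a u x c + ρ * (a + x) + κ := fun a u x c => by
    obtain ⟨g, hg, e⟩ := s.tr o (τ (pt a u x) • pt a u x)
    have e1 := congrArg t1 e
    rw [a1 g hg, a0, add_zero, h1, p1, p3] at e1
    have e2 := b1 _ (τT _ g hg e) (τ (pt a u x) • pt c 0 0)
    have e3 := b2' δ.val (y ^ (ρ * ψ g + κ).val • ((l ^ δ.val * y ^ (ρ * ψ g + κ).val)⁻¹ *
      (τ (z • pt a u x) * (τ (pt a u x))⁻¹)) • τ (pt a u x) • pt c 0 0)
    rw [b3', e2, ← mul_smul (l ^ δ.val), mul_smul _ (_ * _), smul_inv_smul, mul_smul,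
      inv_smul_smul, hφ, hφ, a1 z zP, b1 z zT, τz, ψz, e1] at e3
    simp only [p1, p2, p3, zero_add, ZMod.natCast_zmod_val] at e3
    linear_combination e3
  have hq0 : 0 < q ^ s.a := pow_pos s.hq.pos _
  have gn : ∀ H : Subgroup G, (∀ x, τ x ∈ H) → ∀ p ∈ s.e.W, p ∈ H := fun H hH p hp =>
    Z.gen s.e hq0 s.hC (fun v => ∀ p ∈ s.e.W, s.e.c p = v → p ∈ H)
      (fun p hp e => s.inj hp s.e.W.one_mem (e.trans (c_one _).symm) ▸ H.one_mem)
      (fun a x ih p' hp' e => by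
        obtain ⟨p, hp, rfl⟩ := s.e.hs a
        rw [s.inj hp' (mul_mem hp (inv_mem (τP (p⁻¹ • x)))) (by
          rw [e, s.e.hc, τc, ← s.e.hb, smul_inv_smul])]
        exact mul_mem (ih p hp rfl) (inv_mem (hH _))) _ p hp rfl
  have hμ0 : ¬∀ a u b v, μ a u b v = 0 := fun h => by
    let H : Subgroup G :=
      { carrier := {p | ∀ t, f (p • t) = f t}
        mul_mem' := fun {a b} ha hb t => by rw [mul_smul, ha, hb]
        one_mem' := fun t => by rw [one_smul]
        inv_mem' := fun {a} ha t => by rw [← ha, smul_inv_smul] }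
    have := gn H (fun x t => by rw [hμ, h, add_zero]) z zP o
    rw [τz, add_eq_left] at this
    exact hδ this
  by_cases h0 : ρ = 0
  · refine (fe3 s.h5 (ε : ZMod q) δ (hε.imp (fun e => by simp [e]) fun e => by simp [e]) hδ φ μ
      (fun a u x c => by rw [D, h0, hκ h0]; ring) E2 E3 S (fun a u x c => ?_)
      fun a u b v => ?_).elim hμ0 ?_
    · have e : τ (j • pt a u x) • j • pt c 0 0 = j • τ (pt a u x) • pt c 0 0 := by
        simp [τj, mul_smul]
      have := congrArg t2 e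
      simp only [hφ, a2, b4, fj, p1, p2, p3] at this
      linear_combination this
    · have e : τ (j • pt a u 0) • j • pt b v 0 = j • τ (pt a u 0) • pt b v 0 := by
        simp [τj, mul_smul]
      have := congrArg f e
      simp only [hμ, a2, b4, fj, p1, p2, p3] at this
      linear_combination this
    rintro ⟨k, hk⟩
    let H : Subgroup G :=
      { carrier := {p | ∀ t, t2 (p • t) - t2 t = t2 (p • o) - t2 o}
        mul_mem' := fun {a b} ha hb t => by
          rw [mul_smul, mul_smul]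
          linear_combination ha (b • t) - ha (b • o) + hb t
        one_mem' := fun t => by simp
        inv_mem' := fun {a} ha t => by
          have h1 := ha (a⁻¹ • t)
          have h2 := ha (a⁻¹ • o)
          rw [smul_inv_smul] at h1 h2
          linear_combination h2 - h1 }
    have hH : ∀ p ∈ s.e.W, ∀ t, t2 (p • t) - t2 t = t2 (p • o) - t2 o :=
      gn H fun x t => by rw [hφ, hφ, hk, hk]; ring
    choose σ σP σc using s.e.hs
    obtain ⟨η, hη⟩ : ∃ η : A → ZMod q, ∀ p ∈ s.e.W, η (s.e.c p) = t2 (p⁻¹ • o) - t2 o :=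
      ⟨fun v => t2 ((σ v)⁻¹ • o) - t2 o, fun p hp => by
        beta_reduce
        rw [s.inj (σP _) hp (σc _)]⟩
    have n0 : η 0 = 0 := by simpa [c_one] using hη 1 s.e.W.one_mem
    have n1 : ∀ p ∈ s.e.W, ∀ p' ∈ s.e.W, η (s.e.c (p * p')) = η (s.e.c p) + η (s.e.c p') :=
      fun p hp p' hp' => by
        rw [hη _ (mul_mem hp hp'), hη _ hp, hη _ hp', mul_inv_rev, mul_smul]
        linear_combination hH _ (inv_mem hp') (p⁻¹ • o)
    have n2 : ∀ v x, η (v + s.e.b x) = η v + k := fun v x => by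
      have := n1 _ (σP v) _ (inv_mem (τP ((σ v)⁻¹ • x)))
      rw [hη _ (inv_mem (τP _)), s.e.hc, τc, ← s.e.hb, smul_inv_smul, σc, inv_inv, hφ, hk] at this
      linear_combination this
    have n3 : ∀ β v, η (v + β) = η v + η β :=
      Z.gen s.e hq0 s.hC (fun β => ∀ v, η (v + β) = η v + η β) (fun v => by simp [n0])
        fun a x ih v => by rw [← add_assoc, n2, n2, ih, add_assoc]
    have n4 := s.gen o (AddMonoidHom.mk' η fun a b => n3 b a).ker (fun p hp v hv => by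
      have h2 := n1 p hp _ (σP v)
      rw [s.e.hc, n3, σc, show η v = 0 from hv] at h2
      exact add_left_cancel h2) fun p hp e => by
        change η _ = 0
        rw [hη p hp, inv_smul_eq_iff.2 e.symm, sub_self]
    have n5 : η (s.e.c y⁻¹) = 0 := (n4.ge (AddSubgroup.mem_top _) :)
    rw [hη _ (inv_mem yP), inv_inv, b3, add_sub_cancel_left] at n5
    exact one_ne_zero n5
  · refine hμ0 fun a u b v => ?_
    by_cases e : a = b
    · subst e
      obtain ⟨m, hm, e⟩ := s.tr (pt a u 0) (pt a v 0)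
      have e1 := congrArg t1 e
      rw [a1 m hm, p1, p1, add_eq_right] at e1
      have := hρ h0 (pt a u 0) m hm e1
      rw [e, hμ, add_eq_left, p1, p2, p1, p2] at this
      exact this
    · exact fe2 (by have := s.h5; omega) δ ρ κ hδ h0 φ μ D E2 a u b v e

end Pool.Agent.P.MP_6d14ae_al.B
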