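import Pool.Agent.P.MP_6d14ae_al.B.Ifc

/-! Prime cubes: the symmetric pairing on the lowest layer. -/

set_option autoImplicit false

namespace Pool.Agent.P.MP_6d14ae_al.B

open MulAction T V
open S hiding Dat Lay c_one c_div facN ext_b triK next chi chi_one

variable {G X A : Type} [Group G] [MulAction G X] [AddCommGroup A] [DistribMulAction G A] {q : ℕ}

theorem non_on (e : Dat G X A) {T : Subgroup G} (hT : T.Normal)
    (hg : ∀ Y : AddSubgroup A, (∀ p ∈ e.W, ∀ v ∈ Y, p • v ∈ Y) → (∀ t ∈ T, e.c t ∈ Y) → Y = ⊤)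
    {S : AddSubgroup A} (hS : ∀ (g : G), ∀ v ∈ S, g • v ∈ S) (h : ⊤ ≤ fx T S) (v : A) :
    ∃ t ∈ T, e.c t - v ∈ S := by
  have h' : ∀ t ∈ T, ∀ v, t • v - v ∈ S := fun t ht v => mem_fx.1 (h trivial) t ht
  let Y : AddSubgroup A :=
    { carrier := {v | ∃ t ∈ T, e.c t - v ∈ S}
      zero_mem' := ⟨1, one_mem _, by simp [c_one]⟩
      add_mem' := by
        rintro v v' ⟨k, hk, a⟩ ⟨k', hk', a'⟩
        refine ⟨k * k', mul_mem hk hk', ?_⟩
        convert S.add_mem (S.add_mem a a') (h' k hk (e.c k')) using 1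
        rw [e.hc]; abel
      neg_mem' := by
        rintro v ⟨k, hk, a⟩
        refine ⟨k⁻¹ * 1, mul_mem (inv_mem hk) (one_mem _), ?_⟩
        convert S.neg_mem (S.add_mem (h' _ (inv_mem hk) (e.c k)) a) using 1
        rw [c_div, c_one, zero_sub, smul_neg]; abel }
  have hY : Y = ⊤ := hg Y (by
    rintro g - v ⟨k, hk, a⟩
    refine ⟨_, hT.conj_mem k hk g, ?_⟩
    have h2 := e.hc (g * k * g⁻¹) g
    rw [inv_mul_cancel_right, e.hc] at h2
    convert S.sub_mem (hS g _ a) (h' _ (hT.conj_mem k hk g) (e.c g)) using 1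
    rw [smul_sub, eq_sub_of_add_eq h2.symm]; abel) fun t ht => ⟨t, ht, by simp⟩
  exact (hY ▸ trivial : v ∈ Y)

variable [Finite G]

theorem non_x [FaithfulSMul G X] (s : Su G X A q) {M T : Subgroup G} (hM : M.Normal)
    (hT : T.Normal) (l1 : T ≤ M) (l2 : M ≤ s.e.W) (hWL : s.W ≤ KK X M hM)
    (iP : M.relIndex s.e.W = q) (iT : ∀ y : X, (stabilizer G y).relIndex T = q)
    (iM : ∀ y : X, (DD T hT y).relIndex M = q)
    (hg : ∀ Y : AddSubgroup A, (∀ p ∈ s.e.W, ∀ v ∈ Y, p • v ∈ Y) → (∀ t ∈ T, s.e.c t ∈ Y) → Y = ⊤)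
    {o : X} {w t : G} (hw : w ∈ s.W) (wo : w • o = o) (ht : t ∈ T) (mv : w • t • o ≠ t • o) :
    ∃ x : X, (¬∃ m ∈ M, x = m • o) ∧ M ⊓ DD T hT x ≤ DD T hT o := by
  have := s.fin
  have pM : IsPGroup q M := s.pP.to_le l2
  have pT : IsPGroup q T := pM.to_le l1
  have wi := s.winv hw
  have ab : ∀ a ∈ T, ∀ b ∈ T, a * b = b * a := fun a ha b hb => by
    have : a * b * a⁻¹ * b⁻¹ = 1 := eq_of_smul_eq_smul (α := X) fun y =>
      ((qidx s.hq pT (iT y)).1 a ha b hb).trans (one_smul _ _).symm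
    rwa [mul_inv_eq_one, mul_inv_eq_iff_eq_mul] at this
  obtain ⟨D, S, -, -, -, hD, hS, n1, n2, n3⟩ := ds (N := T) (B := ⊥) (L := ⊤) s.hq s.hC
    (fun g v hv => by simp_all) (fun _ _ _ => trivial) bot_le fun h => by
      refine s.hq.one_lt.ne' (iP.symm.trans (Subgroup.relIndex_eq_one.2 fun p hp => ?_))
      obtain ⟨t, ht, a⟩ := non_on s.e hT hg (S := ⊥) (fun g v hv => by simp_all) h (s.e.c p)
      exact s.inj (l2 (l1 ht)) hp (sub_eq_zero.1 (AddSubgroup.mem_bot.1 a)) ▸ l1 ht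
  obtain ⟨ν, a1, a2, a3, a4, a5, -⟩ := mu s.e.hc s.e.hb (le_refl T) hS (s.e.hg ▸ n2) (n3 T hT pT)
    (fun _ _ => s.e.hg ▸ trivial) (fun r hr r' hr' => by rw [ab r hr r' hr', sub_self]; exact D.zero_mem)
    fun x => non_on s.e hT hg hS n2 _
  have b4 : ∀ (g : G) x y, (ν (g • x) (g • y) : A ⧸ D) = (g • ν x y : A) := fun g =>
    a4 g (fun r hr => hT.conj_mem r hr g) (s.e.hg ▸ trivial)
  have bS : ∀ x y, ν x y ∈ S := fun x y => by
    obtain ⟨r, hr, e⟩ := a1 x y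
    exact e ▸ mem_fx.1 (n2 trivial) r hr
  have bM : ∀ m ∈ M, ∀ x y, (ν (m • x) (m • y) : A ⧸ D) = ν x y := fun m hm x y =>
    (b4 m x y).trans (QuotientAddGroup.eq_iff_sub_mem.2 (mem_fx.1 (n3 M hM pM (bS x y)) m hm))
  have b3 : ∀ m ∈ T, ∀ x y, (ν (m • x) y : A ⧸ D) = ν x y := fun m hm x y =>
    (a2 _ _).trans ((a3 m hm y x).trans (a2 _ _))
  have iv : ∀ r ∈ T, w • r • o = r⁻¹ • o := fun r hr => by
    have h : (r * w * r * w⁻¹) • o = o := (pm s.hq (iT o) (qidx s.hq pT (iT o)).1 (s.W2 w hw)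
      (fun n hn => hT.conj_mem n hn w) fun n _ (hn : n • o = o) => show (w * n * w⁻¹) • o = o by
        rw [wi, mul_smul, mul_smul, wo, hn, wo]).resolve_left (fun h => mv (by
          have h1 : (t⁻¹ * w * t * w⁻¹) • o = o := h t ht
          rwa [wi, mul_smul, mul_smul, mul_smul, wo, inv_smul_eq_iff] at h1)) r hr
    rwa [wi, mul_smul, mul_smul, mul_smul, wo, smul_eq_iff_eq_inv_smul] at h
  have bw : ∀ x, (ν (w • x) o : A ⧸ D) = -ν x o := fun x => by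
    obtain ⟨r, hr, e⟩ := a1 x o
    have h1 := b4 w x o
    rw [wo] at h1
    rw [h1, ← QuotientAddGroup.mk_neg, QuotientAddGroup.eq_iff_sub_mem]
    convert D.neg_mem (mem_fx.1 (n3 T hT pT (bS x o)) _ (inv_mem hr)) using 1
    rw [e, smul_sub, smul_sub, inv_smul_smul, ← s.e.hb, ← s.e.hb, ← s.e.hb, iv r hr, wo, s.e.hb]
    abel
  obtain ⟨x, hx⟩ : ∃ x, (ν (w • x) o : A ⧸ D) ≠ ν x o := by
    by_contra! h
    refine n1 (s.e.hg ▸ a5 fun x y => ?_)
    obtain ⟨g, -, rfl⟩ := s.tr o y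
    rw [← smul_inv_smul g x, ← QuotientAddGroup.eq_zero_iff, b4, QuotientAddGroup.eq_zero_iff]
    refine hD g _ ?_
    have h2 : 2 • (ν (g⁻¹ • x) o : A ⧸ D) = 0 := by
      rw [two_nsmul, add_eq_zero_iff_eq_neg, ← bw, h]
    have h3 : q ^ s.a • (ν (g⁻¹ • x) o : A ⧸ D) = 0 := by
      rw [← QuotientAddGroup.mk_nsmul, s.hC, QuotientAddGroup.mk_zero]
    rw [← QuotientAddGroup.eq_zero_iff, ← AddMonoid.addOrderOf_eq_one_iff]
    exact Nat.eq_one_of_dvd_coprimes (s.odd.pow_left s.a) (addOrderOf_dvd_of_nsmul_eq_zero h3)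
      (addOrderOf_dvd_of_nsmul_eq_zero h2)
  refine ⟨x, ?_, fun d hd => by_contra fun d0 => hx ?_⟩
  · rintro ⟨m, hm, rfl⟩
    have wD : w ∈ DD T hT o := st_le T hT o wo
    rcases pm s.hq (iM o) (qidx s.hq pM (iM o)).1 (s.W2 w hw) (fun n hn => hM.conj_mem n hn w)
      (fun n _ hn => mul_mem (mul_mem wD hn) (inv_mem wD)) with h | h
    · obtain ⟨k, hk, e⟩ := h m hm
      rw [wi, mul_smul, mul_smul, mul_smul, wo, inv_smul_eq_iff] at e
      refine hx ?_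
      rw [e, ← b3 _ (hT.conj_mem k hk m) (m • o)]
      simp only [mul_smul, inv_smul_smul]
    · obtain ⟨k, hk, e⟩ := h m hm
      rw [wi, mul_smul, mul_smul, mul_smul, wo] at e
      refine hx ?_
      rw [← bM m hm, e, b3 k hk, a2]
  · obtain ⟨m, hm, e⟩ := mem_KK.1 (hWL hw) x
    obtain ⟨k, k', hk', e1⟩ := gen s.hq (iM o) (qidx s.hq pM (iM o)).1 hd.1 d0 _ (inv_mem hm)
    obtain ⟨k'', hk'', e2⟩ := (DD T hT x).inv_mem ((DD T hT x).pow_mem hd.2 k)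
    rw [e, ← bM _ (M.mul_mem (M.inv_mem (M.pow_mem hd.1 k)) (inv_mem hm)), e1, mul_smul, inv_smul_smul,
      e2, b3 _ hk'', a3 _ hk']

theorem n1 {q : ℕ} (H : TW q) : N1 q := by
  intro G X A _ _ _ _ _ _ _ s M T hM hT l1 l2 hWM iP hDM iT iM hK hg ⟨o, ho, j, hj, t, ht, mv⟩
  have := s.pre
  have pM : IsPGroup q M := s.pP.to_le l2
  have hWL : s.W ≤ KK X M hM := fun w hw => mem_KK.2 fun y => by
    obtain ⟨g, rfl⟩ := exists_smul_eq G o y
    obtain ⟨w', hw', m, hm, e⟩ := hWM g⁻¹ w hw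
    refine ⟨_, hM.conj_mem _ (hM.conj_mem m hm w') g, ?_⟩
    rw [inv_inv, mul_assoc, inv_mul_eq_iff_eq_mul] at e
    rw [← mul_smul, e]
    simp only [mul_smul, inv_smul_smul, ho _ (inv_mem hw')]
  obtain ⟨x, x0, hx⟩ := non_x s hM hT l1 l2 hWL iP iT iM hg hj (ho j hj) ht mv
  obtain ⟨p0, hp0, rfl⟩ := s.tr o x
  have p0M : p0 ∉ M := fun h => x0 ⟨p0, h, rfl⟩
  have cM : ∀ a ∈ M, ∀ b ∈ M, a * b * a⁻¹ * b⁻¹ ∈ T := fun a ha b hb =>
    hK _ (mem_KK.2 fun y => (qidx s.hq pM (iM y)).1 a ha b hb)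
  have qM : ∀ a ∈ M, a ^ q ∈ T := fun a ha =>
    hK _ (mem_KK.2 fun y => (qidx s.hq pM (iM y)).2 a ha)
  have nE : s.e.W ≤ s.e.W ⊓ Subgroup.normalizer ((M ⊓ DD T hT o : Subgroup G) : Set G) := by
    refine (pr1 (F := s.e.W ⊓ Subgroup.normalizer ((M ⊓ DD T hT o : Subgroup G) : Set G))
      s.hq iP (fun m hm => ⟨hm.2, Subgroup.mem_normalizer_fintype fun n hn =>
      ⟨hM.conj_mem n hn.1 m, ?_⟩⟩) inf_le_left).resolve_left fun h => p0M (h ⟨hp0,
        Subgroup.mem_normalizer_fintype fun n hn => ⟨hM.conj_mem n hn.1 p0,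
          hx ⟨hM.conj_mem n hn.1 p0, DD_conj hT p0 hn.2⟩⟩⟩)
    simpa using mul_mem (le_DD T hT o (cM m hm.1 n hn.1)) hn.2
  have ET : M ⊓ DD T hT o ≤ T := fun n hn => hK _ (mem_KK.2 fun y => by
    obtain ⟨p, hp, rfl⟩ := s.tr o y
    exact Z.DD_back hT ((Subgroup.mem_normalizer_iff''.1 (nE hp).2 n).1 hn).2)
  have EY : ∀ y : X, M ⊓ DD T hT y ≤ T := fun y n hn => by
    obtain ⟨p, hp, rfl⟩ := s.tr o y
    have h1 := DD_conj hT p⁻¹ hn.2
    rw [inv_smul_smul] at h1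
    simpa [mul_assoc] using hT.conj_mem _ (ET ⟨hM.conj_mem n hn.1 p⁻¹, h1⟩) p
  have iTM : T.relIndex M = q := by
    rw [← iM o, ← Subgroup.inf_relIndex_right (DD T hT o), inf_comm,
      le_antisymm ET (le_inf l1 (le_DD T hT o))]
  have sq : ¬∀ m ∈ M, m ^ 2 ∈ T := fun h => s.hq.one_lt.ne' (iTM.symm.trans
    (Subgroup.relIndex_eq_one.2 fun m hm => cop T s.odd (qM m hm) (h m hm)))
  have iv : ∀ w ∈ s.W, w ≠ 1 → ∀ m ∈ M, (w : G ⧸ T) * m * (w : G ⧸ T)⁻¹ = (m : G ⧸ T)⁻¹ := by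
    intro w hw w1 m hm
    rcases pm s.hq iTM cM (s.W2 w hw) (fun n hn => hM.conj_mem n hn w)
      fun n _ hn => hT.conj_mem n hn w with h | h
    · refine (w1 (s.one (l2 (l1 (hK _ (mem_KK.2 fun y => ?_)))) hw)).elim
      obtain ⟨n, hn, e⟩ := Z.fixo Nat.prime_two s.n2 s.pW hT hM l1 y
        fun u hu => mem_KK.1 (hWL hu) y
      have h1 := DD_conj hT n⁻¹ (e hw)
      rw [inv_smul_smul, inv_inv] at h1
      show w ∈ DD T hT y
      simpa [mul_assoc] using mul_mem (inv_mem (le_DD T hT y (h n hn))) h1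
    · have h1 := (QuotientGroup.eq_one_iff _).2 (h m hm)
      simp only [QuotientGroup.mk_mul, QuotientGroup.mk_inv, mul_assoc] at h1
      rw [mul_assoc]
      exact eq_inv_of_mul_eq_one_right h1
  have j1 : j ≠ 1 := fun h => mv (by rw [h, one_smul])
  have nc : ¬∀ m ∈ M, Commute (j : G ⧸ T) m := fun h => sq fun m hm => by
    have h1 := iv j hj j1 m hm
    rw [(h m hm).mul_inv_cancel] at h1
    rw [← QuotientGroup.eq_one_iff, QuotientGroup.mk_pow, pow_two]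
    exact mul_eq_one_iff_eq_inv.2 h1
  have W2 : ∀ w ∈ s.W, w = 1 ∨ w = j := fun w hw => by
    by_contra! h
    refine nc fun m hm => ?_
    have h1 := iv _ (mul_mem hw hj) (fun e => h.2 ((eq_inv_of_mul_eq_one_left e).trans (s.winv hj)))
      m hm
    rw [← iv w hw h.1 m hm, QuotientGroup.mk_mul, mul_inv_rev, ← mul_assoc, mul_left_inj,
      mul_assoc, mul_assoc, mul_right_inj, ← mul_assoc, mul_inv_eq_iff_eq_mul] at h1
    exact h1
  have jP : j ∉ s.e.W := fun h => j1 (s.one h hj)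
  have GP : ∀ g, g ∈ s.e.W ∨ g * j ∈ s.e.W := fun g => by
    obtain ⟨p, hp, w, hw, rfl⟩ := s.dec g
    rcases W2 w hw with rfl | rfl
    · exact .inl (by simpa using hp)
    · exact .inr (by rwa [mul_assoc, s.W2 w hw, mul_one])
  have nP : s.e.W.Normal := Subgroup.normal_of_index_eq_two (Subgroup.index_eq_two_iff.2
    ⟨j, fun g => by
      rcases em (g ∈ s.e.W) with h | h
      · exact .inr ⟨h, fun h' => jP (by simpa using mul_mem (inv_mem h) h')⟩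
      · exact .inl ⟨(GP g).resolve_left h, h⟩⟩)
  have cP : ∀ u ∈ s.e.W, ∀ n ∈ M, Commute (n : G ⧸ T) u := fun u hu n hn =>
    (Z.cm_iff n u).2 (pr2 s.hq iTM s.pP cM (fun u _ n hn => hM.conj_mem n hn u)
      (fun u _ n _ hn => hT.conj_mem n hn u) u hu n hn)
  have c0 : ∀ u ∈ s.e.W, (∀ n : G, n ∈ s.e.W → Commute (p0 : G ⧸ T) n → Commute (u : G ⧸ T) n) :=
    fun u hu n hn h => by
      obtain ⟨k, hk⟩ := gen s.hq iP (qidx s.hq s.pP iP).1 hp0 p0M u hu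
      have h1 := (h.pow_left k).mul_left (cP n hn _ hk)
      rwa [← QuotientGroup.mk_pow, ← QuotientGroup.mk_mul, mul_inv_cancel_left] at h1
  have aP : ∀ u ∈ s.e.W, ∀ n ∈ s.e.W, Commute (u : G ⧸ T) n := fun u hu n hn =>
    c0 u hu n hn (c0 n hn p0 hp0 (Commute.refl _)).symm
  have mM : ∀ n ∈ s.e.W, Commute (j : G ⧸ T) n → n ∈ s.e.W ⊓ Z.cm T ⊤ := fun n hn h =>
    ⟨hn, Z.mem_cm.2 fun g _ => (GP g).elim (fun hg => aP g hg n hn) fun hg => by
      have h1 := (aP _ hg n hn).mul_left h.inv_left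
      rwa [← QuotientGroup.mk_inv, ← QuotientGroup.mk_mul, mul_inv_cancel_right] at h1⟩
  have lT : T ≤ s.e.W ⊓ Z.cm T ⊤ := fun n hn => mM n (l2 (l1 hn)) (by
    rw [(QuotientGroup.eq_one_iff n).2 hn]; exact Commute.one_right _)
  have tw : ∀ p ∈ s.e.W, p * j * p * j⁻¹ ∈ s.e.W ⊓ Z.cm T ⊤ := fun p hp => by
    have h1 := nP.conj_mem p hp j
    refine mM _ (by simpa [mul_assoc] using mul_mem hp h1) ?_
    have h2 := (aP _ h1 p hp).eq
    have h3 : (j : G ⧸ T) * j = 1 := by rw [← QuotientGroup.mk_mul, s.W2 j hj]; rfl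
    simp only [QuotientGroup.mk_mul, s.winv hj] at h2 ⊢
    show _ * _ = _ * _
    generalize (j : G ⧸ T) = a at *
    generalize (p : G ⧸ T) = b at *
    calc a * (b * a * b * a) = (a * b * a * b) * a := by simp only [mul_assoc]
      _ = _ := by rw [h2]; simp only [mul_assoc]
  refine H G X A s j (s.e.W ⊓ Z.cm T ⊤) hj nP GP inferInstance inf_le_left ?_
    (fun y p hp e => lT (EY y ⟨hDM y p hp (st_le M hM y e), st_le T hT y e⟩)) tw
  have i2 := Subgroup.relIndex_mul_relIndex _ _ _ lT (inf_le_left (a := s.e.W) (b := Z.cm T ⊤))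
  rw [← Subgroup.relIndex_mul_relIndex _ _ _ l1 l2, iTM, iP, ← pow_two] at i2
  obtain ⟨i, hi, e⟩ := (Nat.dvd_prime_pow s.hq).1 (Dvd.intro_left _ i2)
  obtain rfl | rfl | rfl : i = 0 ∨ i = 1 ∨ i = 2 := by omega
  · exact (nc fun m hm => Z.mem_cm.1 (Subgroup.relIndex_eq_one.1 e (l2 hm)).2 j trivial).elim
  · rw [e, pow_one]
  · rw [e, mul_eq_right₀ (pow_ne_zero 2 s.hq.ne_zero)] at i2
    have h1 := l1 (Subgroup.relIndex_eq_one.1 i2 (tw p0 hp0))
    obtain ⟨w, hw, m, hm, e1⟩ := hWM p0⁻¹ j hj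
    rw [inv_inv] at e1
    refine (p0M (cop M s.odd ((qidx s.hq s.pP iP).2 p0 hp0) ?_)).elim
    rcases W2 w hw with rfl | rfl
    · refine (jP ?_).elim
      have := nP.conj_mem _ (l2 hm) p0
      rw [one_mul] at e1
      rwa [← e1, show p0 * (p0⁻¹ * j * p0) * p0⁻¹ = j by group] at this
    · have h2 := hM.conj_mem m hm w
      rw [← e1] at h2
      convert mul_mem h1 (inv_mem h2) using 1
      rw [pow_two]
      group

end Pool.Agent.P.MP_6d14ae_al.B
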