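import Pool.Agent.P.MP_6d14ae_al.B.Ifc

/-! Prime cubes: one layer only. -/

set_option autoImplicit false

namespace Pool.Agent.P.MP_6d14ae_al.B

open MulAction T V
open S hiding Dat Lay c_one c_div facN ext_b triK next chi chi_one

section

open Z

variable {G X C : Type} [Group G] [Finite G] [Group.IsSolvable G] [MulAction G X]
  [IsPretransitive G X] [AddCommGroup C] [DistribMulAction G C]

theorem sl_states [Nonempty X] (e : Dat G X C) {r p b a : ℕ} (hr : r.Prime) (hp : p.Prime)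
    (hrp : r ≠ p) (he : e.N2 = p ^ a) (hpN : e.N1.Coprime p) (hC : ∀ v : C, p ^ a • v = 0)
    (hn : ¬r ∣ Nat.card X) {W K O : Subgroup G} (hW : ∀ w ∈ W, w ^ r ^ b = 1)
    (hWc : ∀ w ∈ W, e.c w = 0) (hK : K.Normal)
    (clo : ∀ g : G, (∀ y : X, ∃ k ∈ K, g • y = k • y) → g ∈ K) (hO : O.Normal) (KO : K ≤ O)
    (O1 : ∀ a ∈ O, a ^ p ∈ K) (O2 : ∀ a ∈ O, ∀ b ∈ O, a * b * a⁻¹ * b⁻¹ ∈ K)
    (hWO : ∀ g, ∀ w ∈ W, ∃ w' ∈ W, ∃ o ∈ O, g * w * g⁻¹ = w' * o)
    (com : ∀ w ∈ W, ∀ w' ∈ W, w * w' * w⁻¹ * w'⁻¹ ∈ K) (WL : W ≤ KK X O hO)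
    (nt : ¬∀ o ∈ O, ∀ w ∈ W, o⁻¹ * w * o * w⁻¹ ∈ K) (lay : ∀ y : X, (DD K hK y).relIndex O = p)
    (fixW : ∀ y : X, W ≤ DD K hK y → ∀ w ∈ W, w • y = y) : False := by
  have : Finite X := Finite.of_surjective (fun g : G => g • Classical.arbitrary X)
    (exists_smul_eq G _)
  have cp : (r ^ b).Coprime p := ((Nat.coprime_primes hr hp).2 hrp).pow_left b
  have pW : IsPGroup r W := fun u => ⟨b, Subtype.ext (hW u u.2)⟩
  let S := W ⊔ O
  have dS : ∀ s ∈ S, ∃ w ∈ W, ∃ o ∈ O, w * o = s := fun s => Subgroup.mem_sup_of_normal_right.1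
  have WS : W ≤ S := le_sup_left
  have OS : O ≤ S := le_sup_right
  have hS : S.Normal := ⟨fun s hs g => by
    obtain ⟨w, hw, o, ho, rfl⟩ := dS s hs
    obtain ⟨w', hw', o', ho', e1⟩ := hWO g w hw
    have := mul_mem (mul_mem (WS hw') (OS ho')) (OS (hO.conj_mem o ho g))
    rw [← e1] at this
    simpa [mul_assoc] using this⟩
  let M := O ⊓ cm K S
  have hM : M.Normal := inferInstance
  have MO : M ≤ O := inf_le_left
  have mM : ∀ o ∈ O, (∀ w ∈ W, o⁻¹ * w * o * w⁻¹ ∈ K) → o ∈ M := fun o ho h =>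
    ⟨ho, mem_cm.2 fun s hs => by
      obtain ⟨w, hw, o', ho', rfl⟩ := dS s hs
      exact (((cm_iff o w).2 (h w hw)).mul_right ((cm_iff' o o').2 (O2 o ho o' ho'))).symm⟩
  have KM : K ≤ M := fun g hg => mM g (KO hg) fun w _ => by
    simpa [mul_assoc] using mul_mem (inv_mem hg) (hK.conj_mem g hg w)
  have cO : ∀ o ∈ O, ∀ w, o⁻¹ * w * o * w⁻¹ ∈ O := fun o ho w => by
    simpa [mul_assoc] using mul_mem (inv_mem ho) (hO.conj_mem o ho w)
  have crit : ∀ o ∈ O, (∀ w ∈ W, o⁻¹ * w * o * w⁻¹ ∈ M) → o ∈ M := fun o ho h =>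
    mM o ho fun w hw => by
      have h1 := mem_cm.1 (h w hw).2 w (WS hw)
      refine cop K cp ?_ (O1 _ (cO o ho w))
      have h2 : ∀ j : ℕ, (w : G ⧸ K) ^ j * o = o * (↑(o⁻¹ * w * o * w⁻¹)) ^ j * (w : G ⧸ K) ^ j :=
        fun j => by
          induction j with
          | zero => simp
          | succ j ih =>
            rw [pow_succ', mul_assoc, ih, pow_succ', mul_assoc _ _ (_ * _ ^ j),
              mul_assoc _ (_ ^ j), mul_assoc _ (_ ^ j), ← mul_assoc (_ ^ j) (w : G ⧸ K),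
              ← (h1.pow_right j).eq]
            simp [mul_assoc]
      have h3 := h2 (r ^ b)
      rw [← QuotientGroup.mk_pow K w, hW w hw] at h3
      rw [← QuotientGroup.eq_one_iff, QuotientGroup.mk_pow]
      simpa using h3.symm
  let Y := W ⊔ M
  have WY : W ≤ Y := le_sup_left
  have MY : M ≤ Y := le_sup_right
  let G0 := Subgroup.normalizer (Y : Set G)
  have nrm : ∀ g, (∀ w ∈ W, g⁻¹ * w * g ∈ Y) → g ∈ G0 := fun g h => by
    refine inv_mem_iff.1 (Subgroup.mem_normalizer_fintype fun y hy => ?_)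
    obtain ⟨w, hw, m, hm, rfl⟩ := Subgroup.mem_sup_of_normal_right.1 hy
    simpa [mul_assoc] using mul_mem (h w hw) (MY (hM.conj_mem' m hm g))
  have HS : ∀ s ∈ S, e.c s = 0 → s ∈ Y := fun s hs h => by
    obtain ⟨w, hw, o, ho, rfl⟩ := dS s hs
    rw [e.hc, hWc w hw, zero_add, smul_eq_zero_iff_eq] at h
    exact mul_mem (WY hw) (MY (KM (cop K hpN (e.hP o h ▸ K.one_mem) (O1 o ho))))
  have H0 : ∀ h, e.c h = 0 → h ∈ G0 := fun h hh => nrm h fun w hw =>
    HS _ (hS.conj_mem' w (WS hw) h) (by rw [mul_assoc, c_div, e.hc, hWc w hw, hh]; simp)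
  have YG : Y ≤ G0 := Subgroup.le_normalizer
  have GO : ∀ o ∈ O, o ∈ G0 → o ∈ M := fun o ho h => crit o ho fun w hw => by
    obtain ⟨w', hw', m, hm, e1⟩ := Subgroup.mem_sup_of_normal_right.1
      (mul_mem ((Subgroup.mem_normalizer_iff''.1 h w).1 (WY hw)) (inv_mem (WY hw)))
    have : w' ∈ O := by simpa [← e1] using mul_mem (cO o ho w) (inv_mem (MO hm))
    exact e1 ▸ mul_mem (KM (cop K cp (hW w' hw' ▸ K.one_mem) (O1 w' this))) hm
  have ex : ∀ g, ∃ o ∈ O, o⁻¹ * g ∈ G0 := fun g => by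
    obtain ⟨i, hi⟩ := pw Y O hp (fun a ha b hb => MY (KM (O2 a ha b hb))) fun a ha =>
      MY (KM (O1 a ha))
    have h1 : Y.relIndex S = p ^ i := hi ▸ le_antisymm
      ((cardle _ S O Set.univ fun s hs => by
        obtain ⟨w, hw, o, ho, rfl⟩ := dS s hs
        exact ⟨⟨_, hO.conj_mem o ho w⟩, by simpa [mul_assoc] using WY hw, trivial⟩).trans
        (Nat.card_univ).le)
      (Subgroup.relIndex_le_of_le_right OS Subgroup.index_ne_zero_of_finite)
    obtain ⟨z, hz, h2⟩ := fixc hr Y S W pW (h1 ▸ fun h => hrp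
      ((Nat.prime_dvd_prime_iff_eq hr hp).1 (hr.dvd_of_dvd_pow h))) g
      fun w hw => hS.conj_mem' w (WS hw) g
    obtain ⟨w, hw, o, ho, e1⟩ := dS _ (hS.conj_mem _ (inv_mem hz) (g * z))
    refine ⟨_, hO.conj_mem o ho w, ?_⟩
    convert mul_mem (YG (WY hw)) (nrm _ h2) using 1
    rw [e1]; group
  choose σ σ1 σ2 using ex
  let π := QuotientGroup.mk' M
  let Ob := O.map π
  have nb : Ob.Normal := hO.map _ (QuotientGroup.mk'_surjective M)
  have cb : ∀ o ∈ O, ∀ v ∈ Ob, π o * v * (π o)⁻¹ = v := by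
    rintro o ho _ ⟨o', ho', rfl⟩
    rw [← mul_inv_eq_one]
    exact (QuotientGroup.eq_one_iff _).2 (KM (O2 o ho o' ho'))
  let _ : CommGroup Ob := { (inferInstance : Group Ob) with
    mul_comm := by
      rintro ⟨_, o, ho, rfl⟩ v
      exact Subtype.ext (mul_inv_eq_iff_eq_mul.1 (cb o ho v v.2)) }
  let _ : DistribMulAction G (Additive Ob) :=
    { smul := fun g v => Additive.ofMul ⟨_, nb.conj_mem _ v.toMul.2 (π g)⟩
      one_smul := fun v => Subtype.ext (show π 1 * _ * (π 1)⁻¹ = _ by simp; rfl)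
      mul_smul := fun g h v => Subtype.ext
        (show π (g * h) * _ * (π (g * h))⁻¹ = π g * (π h * _ * (π h)⁻¹) * (π g)⁻¹ by
          simp [mul_assoc])
      smul_zero := fun g => Subtype.ext (show π g * 1 * (π g)⁻¹ = 1 by simp)
      smul_add := fun g u v => Subtype.ext (show π g * (u.toMul.1 * v.toMul.1) * (π g)⁻¹ =
        π g * u.toMul.1 * (π g)⁻¹ * (π g * v.toMul.1 * (π g)⁻¹) by simp [mul_assoc]) }
  let mk : ∀ o ∈ O, Additive Ob := fun o ho => Additive.ofMul ⟨π o, o, ho, rfl⟩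
  have sur : ∀ v, ∃ o ho, mk o ho = v := by
    rintro ⟨_, o, ho, rfl⟩
    exact ⟨o, ho, rfl⟩
  have mkeq : ∀ o ho o' ho', o⁻¹ * o' ∈ M → mk o ho = mk o' ho' := fun o ho o' ho' h =>
    Subtype.ext (QuotientGroup.eq.2 h)
  have mk0 : ∀ o ho, o ∈ M → mk o ho = 0 := fun o ho h =>
    Subtype.ext ((QuotientGroup.eq_one_iff o).2 h)
  let τ : G → Additive Ob := fun g => mk _ (σ1 g)
  have τe : ∀ g o (ho : o ∈ O), o⁻¹ * g ∈ G0 → τ g = mk o ho := fun g o ho h =>
    mkeq _ (σ1 g) _ ho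
    (GO _ (mul_mem (inv_mem (σ1 g)) ho) (by simpa [mul_assoc] using mul_mem (σ2 g) (inv_mem h)))
  have τG : ∀ g ∈ G0, τ g = 0 := fun g hg => τe g 1 (one_mem _) (by simpa using hg)
  have hτ : ∀ g h, τ (g * h) = τ g + g • τ h := fun g h => by
    rw [τe _ _ (mul_mem (σ1 g) (hO.conj_mem _ (σ1 h) ((σ g)⁻¹ * g)))
      (by simpa [mul_assoc] using mul_mem (σ2 g) (σ2 h))]
    refine Subtype.ext ?_
    have := cb _ (inv_mem (σ1 g)) _ (nb.conj_mem _ ⟨_, σ1 h, rfl⟩ (π g))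
    show π _ = π (σ g) * (π g * π (σ h) * (π g)⁻¹)
    rw [← this]
    simp [mul_assoc]
  let R : X → AddSubgroup (Additive Ob) := fun x =>
    Subgroup.toAddSubgroup (((DD M hM x).map π).subgroupOf Ob)
  have mR : ∀ x o ho, mk o ho ∈ R x ↔ o ∈ DD M hM x := fun x o ho =>
    ⟨fun ⟨δ, h1, h2⟩ => by simpa using mul_mem h1 (le_DD M hM x (QuotientGroup.eq.1 h2)),
      fun h => ⟨o, h, rfl⟩⟩
  have iR : ∀ x, (R x).index = (DD M hM x).relIndex (DD O hO x) := fun x => by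
    rw [rel_eq hM hO, Subgroup.index_toAddSubgroup, ← Subgroup.relIndex, Subgroup.relIndex_map_map,
      QuotientGroup.ker_mk', sup_eq_left.2 (le_DD M hM x), sup_eq_left.2 MO]
  have hV : ∀ v : Additive Ob, p • v = 0 := fun v => by
    obtain ⟨o, ho, rfl⟩ := sur v
    exact mk0 _ (pow_mem ho p) (KM (O1 o ho))
  have VW : ∀ v : Additive Ob, (∀ w ∈ W, w • v = v) → v = 0 := fun v h => by
    obtain ⟨o, ho, rfl⟩ := sur v
    refine mk0 o ho (crit o ho fun w hw => ?_)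
    have : π o = π (w * o * w⁻¹) := congrArg (fun v => v.toMul.1) (h w hw).symm
    simpa [mul_assoc] using QuotientGroup.eq.1 this
  have RW : ∀ x, ∀ w ∈ W, ∀ v ∈ R x, w • v ∈ R x := fun x w hw v hv => by
    obtain ⟨o, ho, rfl⟩ := sur v
    exact (mR x _ (hO.conj_mem o ho w)).2 (norL hM hO (fun a ha b hb => KM (O2 a ha b hb)) x
      (WL hw) o ho ((mR x o ho).1 hv))
  have R0 : ∀ o ∈ O, (∀ x : X, o ∈ DD M hM x) → o ∈ M := fun o ho h =>
    mM o ho fun w hw => clo _ fun y => by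
      obtain ⟨m, hm, e1⟩ := h y
      have d1 := inv_mul_DD K hK e1
      have d2 := mul_mem (inv_mem (MO hm)) ho
      have := mul_mem (mul_mem (inv_mem d1) (le_DD K hK y
        ((cm_iff m w).1 (mem_cm.1 hm.2 w (WS hw)).symm))) (norL hK hO O2 y (WL hw) _ d2 d1)
      show _ ∈ DD K hK y
      convert this using 1
      group
  have Ri : ∀ x, (R x).index = p ^ 1 := fun x => by
    have h0 : (R x).index ∣ p := by
      rw [iR, ← lay x, ← rel_eq hK hO]
      exact Subgroup.relIndex_dvd_of_le_left _ (DD_mono hK hM KM x)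
    rcases (Nat.dvd_prime hp).1 h0 with h1 | h1
    · refine absurd (fun o ho w hw => (cm_iff o w).1 (mem_cm.1 (R0 o ho fun y => ?_).2 w
        (WS hw)).symm) nt
      obtain ⟨g, rfl⟩ := exists_smul_eq G x y
      exact DD_back hM ((mR x _ (hO.conj_mem' o ho g)).1
        (AddSubgroup.index_eq_one.1 h1 ▸ trivial))
    · rw [h1, pow_one]
  have MK : ∀ y : X, DD M hM y ≤ DD K hK y := fun y => by
    have h1 := Subgroup.relIndex_mul_relIndex _ _ _ (DD_mono hK hM KM y) (DD_mono hM hO MO y)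
    rw [← iR, Ri, rel_eq hK hO, lay, pow_one] at h1
    exact Subgroup.relIndex_eq_one.1 (mul_right_cancel₀ hp.ne_zero (h1.trans (one_mul p).symm))
  choose ω ω1 ω2 using fun x : X => fixo hr hn pW hM hO MO x fun w hw => mem_KK.1 (WL hw) x
  refine abs (e := e) (V := Additive Ob) (k := 1)
    { W := W, O := O, τ := τ, R := R, η := fun x => -mk _ (ω1 x), hp := hp, hr := hr, hrp := hrp
      he := he, hpN := hpN, hC := hC, hW := pW, hWc := hWc, nO := hO
      hO := fun o ho v => Subtype.ext (cb o ho _ v.toMul.2)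
      hWO := hWO, com := fun w hw w' hw' => KO (com w hw w' hw'), hτ := hτ
      τ0 := fun g h => τG g (H0 g h), hV := hV, VW := VW
      sil := fun g g' x h1 h2 => ?_ } hp.not_dvd_one (fun i _ => one_dvd i) (fun v => ?_) RW Ri fun v hv => ?_
  · rw [sub_neg_eq_add] at h1
    obtain ⟨m, hm, e1⟩ := (DD M hM x).inv_mem ((mR x _ (mul_mem (σ1 g) (ω1 x))).1 h1)
    have a1 : W ≤ DD M hM ((σ g)⁻¹ • x) := (ω2 x).trans (by
      have := DD_tr hM (inv_mem (hM.conj_mem m hm (ω x))) ((σ g)⁻¹ • x)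
      rwa [show (ω x * m * (ω x)⁻¹)⁻¹ • (σ g)⁻¹ • x = ω x • x by
        rw [inv_smul_eq_iff, mul_smul, inv_smul_smul, mul_smul, ← e1]; simp [mul_smul]] at this)
    have a2 : W ≤ DD M hM (g⁻¹ • x) := fun w hw => by
      have := DD_back hM (z := ((σ g)⁻¹ * g)⁻¹) (u := w)
        (sup_le a1 (le_DD M hM _) (by
          simpa using (Subgroup.mem_normalizer_iff.1 (σ2 g) w).1 (WY hw)))
      simpa [smul_smul] using this
    obtain ⟨h, b1, b2, b3⟩ : ∃ h ∈ M, e.c h = 0 ∧ ∀ w ∈ W, w • h • g⁻¹ • x = h • g⁻¹ • x :=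
      ⟨1, M.one_mem, hWc 1 W.one_mem, fun w hw => by
        rw [one_smul]
        exact fixW _ (a2.trans (MK _)) w hw⟩
    obtain ⟨u, -, hu⟩ := e.hs (e.b (g⁻¹ • x))
    have b4 : u ∈ G0 := by
      simpa using mul_mem (inv_mem (YG (MY b1))) (nrm (h * u) fun w hw =>
        HS _ (hS.conj_mem' w (WS hw) _) (mul_assoc _ w _ ▸ silent e b2 hu (hWc w hw) (b3 w hw)))
    have b5 := mul_mem b4 (H0 ((g * u)⁻¹ * g') (by rw [c_div, h2, e.hc, hu, e.hb]; simp))
    have := hτ g (u * ((g * u)⁻¹ * g'))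
    rwa [τG _ b5, smul_zero, add_zero, ← mul_assoc, mul_inv_cancel_left] at this
  · obtain ⟨o, ho, rfl⟩ := sur v
    exact ⟨o, τe o o ho (by simp)⟩
  · obtain ⟨o, ho, rfl⟩ := sur v
    exact mk0 o ho (R0 o ho fun x => (mR x o ho).1 (hv x))

end

theorem sl (q : ℕ) : SL q := by
  intro G X A _ _ _ _ _ _ _ s W K O hK hO l clo KO O1 O2 hWO WL nt lay fixW
  have := s.pre
  have := s.ne
  refine sl_states (b := 1) s.e Nat.prime_two s.hq (by have := s.h5; omega) s.he s.hN s.hC s.n2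
    (fun w hw => by simpa [sq] using s.W2 w (l hw)) (fun w hw => (s.hW w).1 (l hw)) hK clo hO KO
    O1 O2 hWO (fun w hw w' hw' => ?_) WL nt lay fixW
  rw [s.wcom (l hw) (l hw')]
  simp

end Pool.Agent.P.MP_6d14ae_al.B
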