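import Pool.Agent.P.MP_6d14ae_al.B.Ifc

/-! Prime cubes: the top layer of the twist. -/

set_option autoImplicit false

namespace Pool.Agent.P.MP_6d14ae_al.B

open MulAction T V
open S hiding Dat Lay c_one c_div facN ext_b triK next chi chi_one

theorem top_cm {H : Type} [Group H] {a b : H} (h : a⁻¹ * b * a * b⁻¹ = 1) : Commute b a := by
  have h2 : a * (a⁻¹ * b * a * b⁻¹) * b = a * b := by rw [h, mul_one]
  show b * a = a * b
  rw [← h2]; group

theorem top_iv {H : Type} [Group H] {a b : H} (h : a * b * a * b⁻¹ = 1) : b * a * b⁻¹ = a⁻¹ := by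
  rw [eq_inv_iff_mul_eq_one, mul_eq_one_comm, ← h]; group

theorem top {q : ℕ} (H1 : T2 q) (H2 : TW q) : TOP q := by
  intro G X A _ _ _ _ _ _ _ s j hj hP hg
  have jj : j * j = 1 := s.W2 j hj
  have Wj : ∀ w ∈ s.W, w = 1 ∨ w = j := fun w hw => (hg w).imp (fun h => s.one h hw) fun h => by
    have := s.one h (mul_mem hw hj)
    rw [eq_inv_of_mul_eq_one_left this, s.winv hj]
  have := s.ne
  have := s.pre
  obtain ⟨K, ⟨hK, lK, nK⟩, mx⟩ := wellFounded_gt.has_min
    {K : Subgroup G | K.Normal ∧ K ≤ s.e.W ∧ ¬∀ x y : X, ∃ k ∈ K, k • x = y}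
    ⟨⊥, inferInstance, bot_le, fun h => by
      have : Subsingleton X := ⟨fun x y => by
        obtain ⟨k, hk, e⟩ := h x y
        rw [← e, Subgroup.mem_bot.1 hk, one_smul]⟩
      have h1 := Nat.card_of_subsingleton (Classical.arbitrary X)
      rw [s.hX] at h1
      exact (Nat.one_lt_pow (by norm_num) s.hq.one_lt).ne' h1⟩
  have clK : ∀ p ∈ s.e.W, p ∈ KK X K hK → p ∈ K := fun p hp h => by
    by_contra h0
    have := KK_normal (X := X) K hK
    refine mx (KK X K hK ⊓ s.e.W) ⟨inferInstance, inf_le_right, fun k => nK fun x y => ?_⟩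
      ⟨le_inf (W.le_KK hK) lK, fun k => h0 (k ⟨h, hp⟩)⟩
    obtain ⟨u, hu, e⟩ := k x y
    obtain ⟨v, hv, e'⟩ := mem_KK.1 hu.1 x
    exact ⟨v, hv, e'.symm.trans e⟩
  have lt : K < s.e.W := ⟨lK, fun h => nK fun x y =>
    let ⟨p, hp, e⟩ := s.tr x y; ⟨p, h hp, e⟩⟩
  obtain ⟨n, hn, n0, nq, ce, alt⟩ := eig s.hq hK hP lt hP s.pP le_rfl jj
  obtain ⟨π, one⟩ : ∃ π : G →* G ⧸ K, ∀ {g : G}, π g = 1 ↔ g ∈ K :=
    ⟨QuotientGroup.mk' K, fun {g} => QuotientGroup.eq_one_iff g⟩
  have cm : ∀ {b : G}, n⁻¹ * b * n * b⁻¹ ∈ K → Commute (π b) (π n) := fun {b} h =>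
    top_cm (by simpa using one.2 h)
  have iv : n * j * n * j⁻¹ ∈ K → π j * π n * (π j)⁻¹ = (π n)⁻¹ := fun h =>
    top_iv (by simpa using one.2 h)
  have cj : ∀ g, π g * π n * (π g)⁻¹ ∈ Subgroup.zpowers (π n) := fun g => by
    rcases hg g with h | h
    · rw [(cm (ce g h)).mul_inv_cancel]
      exact Subgroup.mem_zpowers _
    · have e : π g = π (g * j) * π j := by rw [← map_mul, mul_assoc, jj, mul_one]
      have c := cm (ce _ h)
      have e2 : π g * π n * (π g)⁻¹ = π (g * j) * (π j * π n * (π j)⁻¹) * (π (g * j))⁻¹ := by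
        rw [e]; group
      rcases alt with k | k
      · rw [e2, (cm k).mul_inv_cancel, c.mul_inv_cancel]
        exact Subgroup.mem_zpowers _
      · rw [e2, iv k, c.inv_right.mul_inv_cancel]
        exact inv_mem (Subgroup.mem_zpowers _)
  have hN : ((Subgroup.zpowers (π n)).comap π).Normal := ⟨by
    rintro m ⟨k, hk⟩ g
    show π (g * m * g⁻¹) ∈ Subgroup.zpowers (π n)
    rw [map_mul, map_mul, map_inv, ← hk, ← conj_zpow]
    exact zpow_mem (cj g) k⟩
  have l2 : (Subgroup.zpowers (π n)).comap π ≤ s.e.W := by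
    rintro m ⟨k, hk⟩
    have : (n ^ k)⁻¹ * m ∈ K := one.1 (by rw [map_mul, map_inv, map_zpow, ← hk, inv_mul_cancel])
    simpa using mul_mem (zpow_mem hn k) (lK this)
  have l1 : K ≤ (Subgroup.zpowers (π n)).comap π := fun k hk => by
    show π k ∈ Subgroup.zpowers (π n)
    rw [one.2 hk]
    exact one_mem _
  have tr : ∀ x y : X, ∃ m ∈ (Subgroup.zpowers (π n)).comap π, m • x = y := by
    by_contra h
    exact mx _ ⟨hN, l2, h⟩ ⟨l1, fun k => n0 (k (Subgroup.mem_zpowers (π n)))⟩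
  have key : ∀ y : X, ∀ d ∈ s.e.W, d ∈ DD K hK y → d ∈ K := fun y d hd e =>
    clK d hd (Subgroup.mem_iInf.2 fun z => by
      obtain ⟨m, ⟨k, hk⟩, rfl⟩ := tr y z
      have h1 : m⁻¹ * d * m * d⁻¹ ∈ K := one.1 (by
        simp only [map_mul, map_inv]
        rw [← hk, mul_assoc _ (π d), ((cm (ce d hd)).zpow_right k).eq]
        group)
      have := DD_conj hK m (mul_mem (le_DD K hK y h1) e)
      rwa [show m * (m⁻¹ * d * m * d⁻¹ * d) * m⁻¹ = d by group] at this)
  have l3 : ∀ p ∈ s.e.W, ∃ k : ℤ, π n ^ k = π p := fun p hp => by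
    obtain ⟨m, hm, e⟩ := tr (Classical.arbitrary X) (p • Classical.arbitrary X)
    have := mul_mem hm (l1 (key _ _ (mul_mem (inv_mem (l2 hm)) hp) (inv_mul_DD K hK e.symm)))
    rwa [mul_inv_cancel_left] at this
  rcases alt with k | k
  · refine H1 G X A s K hK lK (fun g w hw => ?_) clK nK
    rcases Wj w hw with rfl | rfl
    · exact ⟨1, hw, 1, one_mem _, by simp⟩
    have c : ∀ p ∈ s.e.W, Commute (π w) (π p) := fun p hp => by
      obtain ⟨i, hi⟩ := l3 p hp
      exact hi ▸ (cm k).zpow_right i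
    have c2 : Commute (π w) (π g) := by
      rcases hg g with h | h
      · exact c g h
      · have e : π g = π (g * w) * π w := by rw [← map_mul, mul_assoc, jj, mul_one]
        exact e ▸ (c _ h).mul_right (Commute.refl _)
    refine ⟨w, hw, w⁻¹ * (g * w * g⁻¹), one.1 ?_, by group⟩
    simp only [map_mul, map_inv]
    rw [c2.symm.mul_inv_cancel, inv_mul_cancel]
  · refine H2 G X A s j K hj hP hg hK lK ?_ (fun y p hp e => key y p hp ⟨1, one_mem _, by
      rw [e, one_smul]⟩) fun p hp => ?_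
    · have e1 : K = (⊥ : Subgroup (G ⧸ K)).comap π := by
        ext g
        exact one.symm
      have e2 : s.e.W.map π = Subgroup.zpowers (π n) := le_antisymm
        (by rintro _ ⟨p, hp, rfl⟩; exact l3 p hp)
        (Subgroup.zpowers_le.2 ⟨n, hn, rfl⟩)
      have := Fact.mk s.hq
      have e3 : ((⊥ : Subgroup (G ⧸ K)).comap π).relIndex s.e.W = q := by
        rw [Subgroup.relIndex_comap, e2, Subgroup.relIndex_bot_left, Nat.card_zpowers]
        exact orderOf_eq_prime (by rw [← map_pow]; exact one.2 nq) fun h => n0 (one.1 h)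
      rwa [← e1] at e3
    · obtain ⟨i, hi⟩ := l3 p hp
      refine one.1 ?_
      simp only [map_mul, map_inv]
      rw [← hi, mul_assoc, mul_assoc, ← mul_assoc (π j), ← conj_zpow, iv k, inv_zpow,
        mul_inv_cancel]

end Pool.Agent.P.MP_6d14ae_al.B
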