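import Pool.Agent.P.MP_6d14ae_al.B.Ifc

/-! Prime cubes: the kernel of the cocycle fixes the blocks. -/

set_option autoImplicit false

namespace Pool.Agent.P.MP_6d14ae_al.B

open MulAction T V
open S hiding Dat Lay c_one c_div facN ext_b triK next chi chi_one

section

variable {G X A : Type} [Group G] [MulAction G X]

theorem ttab (y : X) : DD (⊥ : Subgroup G) inferInstance y = stabilizer G y :=
  le_antisymm (by rintro g ⟨k, rfl, e⟩; exact e.trans (one_smul _ _)) (st_le _ _ y)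

theorem ttak [IsPretransitive G X] {T N : Subgroup G} (hT : T.Normal) (hN : N.Normal) {y : X}
    (h : N ≤ DD T hT y) : N ≤ KK X T hT := fun n hn => mem_KK.2 fun z => by
  obtain ⟨g, rfl⟩ := exists_smul_eq G y z
  exact Z.DD_back hT (h (hN.conj_mem' n hn g))

theorem ttao [FaithfulSMul G X] {g : G} (h : ∀ y : X, g • y = y) : g = 1 :=
  eq_of_smul_eq_smul (α := X) fun y => (h y).trans (one_smul _ _).symm

variable [Finite G]

theorem ttaf {K N : Subgroup G} (hK : K.Normal) (hN : N.Normal) (l : K ≤ N) (y : X) :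
    (stabilizer G y).relIndex K * (DD K hK y).relIndex N = (stabilizer G y).relIndex N := by
  refine Nat.eq_of_mul_eq_mul_right (Nat.pos_of_ne_zero
    (Subgroup.index_ne_zero_of_finite (H := DD N hN y))) ?_
  rw [mul_assoc, fac2 hK hN l, ← ttab, fac2 _ hK bot_le, fac2 _ hN bot_le]

theorem ttau [IsPretransitive G X] {N : Subgroup G} (hN : N.Normal) (y t : X) :
    (stabilizer G t).relIndex N = (stabilizer G y).relIndex N := by
  rw [← ttab, ← ttab]; exact uni2 _ hN bot_le y t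

variable [AddCommGroup A] [DistribMulAction G A] {q : ℕ} (s : Su G X A q)

theorem ttax {N U : Subgroup G} (hN : N.Normal) (l : U ≤ s.W) (y : X) (h : U ≤ DD N hN y) :
    ∃ n ∈ N, ∀ w ∈ U, w • n • y = n • y := by
  have := s.pre
  obtain ⟨n, hn, e⟩ := Z.fixo Nat.prime_two s.n2 (s.pW.to_le l) inferInstance hN bot_le y h
  exact ⟨n, hn, fun w hw => (ttab (n • y)).le (e hw)⟩

theorem ttai : ¬2 ∣ s.W.index := by
  have := Fact.mk s.hq
  obtain ⟨i, hi⟩ := IsPGroup.iff_card.1 s.pP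
  rw [(Subgroup.isComplement'_of_disjoint_and_mul_eq_univ (H := s.e.W) (K := s.W)
    (Subgroup.disjoint_def.2 s.one) (Set.eq_univ_of_forall fun g =>
      let ⟨p, hp, w, hw, e⟩ := s.dec g; ⟨p, hp, w, hw, e.symm⟩)).index_eq_card, hi]
  exact fun h => Nat.prime_two.one_lt.ne'
    (Nat.eq_one_of_dvd_coprimes (s.odd.pow_left i) h dvd_rfl)

variable [Group.IsSolvable G] [FaithfulSMul G X]

theorem ttaa (H1 : SL q) {N U : Subgroup G} (hN : N.Normal) (l : N ≤ s.e.W)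
    (h : ∀ y : X, (stabilizer G y).relIndex N = q) (l1 : U ≤ s.W) (l2 : U ≤ KK X N hN)
    (hc : ∀ g, ∀ w ∈ U, ∃ w' ∈ U, ∃ n ∈ N, g * w * g⁻¹ = w' * n) : ∀ w ∈ U, w = 1 := by
  by_contra h0
  have k := fun y => qidx s.hq (s.pP.to_le l) (h y)
  refine H1 G X A s U ⊥ N inferInstance hN l1 (fun g hg => ttao fun y => (ttab y).le (hg y)) bot_le
    (fun a ha => ttao fun y => (k y).2 a ha) (fun a ha b hb => ttao fun y => (k y).1 a ha b hb)
    hc l2 (fun e => h0 fun w hw => ttao fun y : X => ?_) (fun y => ttab (G := G) y ▸ h y)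
    fun y e w hw => (ttab y).le (e hw)
  obtain ⟨n, hn, e1⟩ := ttax s hN l1 y fun u hu => mem_KK.1 (l2 hu) y
  rw [← mul_inv_eq_one.1 (e n hn w hw), mul_smul, mul_smul, e1 w hw, inv_smul_smul]

theorem ttam (H1 : SL q) (H2 : N1 q) {M : Subgroup G} (hM : M.Normal) (l : M ≤ s.e.W)
    (hW : ∀ g, ∀ w ∈ s.W, ∃ w' ∈ s.W, ∃ m ∈ M, g * w * g⁻¹ = w' * m)
    (clo : ∀ p ∈ s.e.W, p ∈ KK X M hM → p ∈ M) (WL : s.W ≤ KK X M hM)
    (h2 : ∀ y : X, (stabilizer G y).relIndex M = q ^ 2)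
    (cl : ∀ y : X, ∀ p ∈ s.e.W, p ∈ DD M hM y → p ∈ M) (hi : M.relIndex s.e.W = q) : False := by
  have := s.pre
  have := s.fin
  obtain ⟨o⟩ := s.ne
  have W0 : ¬∀ w ∈ s.W, w = 1 := fun h => s.W0 ((Subgroup.eq_bot_iff_forall _).2 h)
  have q1 : q ^ 2 ≠ 1 := (Nat.one_lt_pow two_ne_zero s.hq.one_lt).ne'
  obtain ⟨T, ⟨hT, TM, nT⟩, mx0⟩ := wellFounded_gt.has_min
    {T : Subgroup G | ∃ hT : T.Normal, T ≤ M ∧ ¬M ≤ KK X T hT}
    ⟨⊥, inferInstance, bot_le, fun h => q1 ((h2 o).symm.trans (Subgroup.relIndex_eq_one.2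
      fun m hm => (ttab o).le (mem_KK.1 (h hm) o)))⟩
  have mx : ∀ (T' : Subgroup G) (hT' : T'.Normal), T ≤ T' → T' ≤ M → ¬M ≤ KK X T' hT' → T' ≤ T :=
    fun T' hT' a b c => by_contra fun d => mx0 T' ⟨hT', b, c⟩ ⟨a, d⟩
  have nK := KK_normal (X := X) T hT
  have kM : ∀ m ∈ M, m ∈ KK X T hT → m ∈ T := fun m hm h =>
    mx (KK X T hT ⊓ M) inferInstance (le_inf (W.le_KK hT) TM) inf_le_right (fun k => nT
      fun n hn => mem_KK.2 fun y => let ⟨_, h1, e⟩ := mem_KK.1 (k hn) y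
        let ⟨t, ht, e'⟩ := mem_KK.1 h1.1 y; ⟨t, ht, e.trans e'⟩) ⟨h, hm⟩
  have hc : T = ⊥ ∨ (∀ y : X, (stabilizer G y).relIndex T = q) ∧
      ∀ y : X, (DD T hT y).relIndex M = q := by
    have e := (ttaf hT hM TM o).trans (h2 o)
    obtain ⟨i, i2, hi⟩ := (Nat.dvd_prime_pow s.hq).1 (Dvd.intro_left _ e)
    rw [hi] at e
    obtain rfl | rfl | rfl : i = 0 ∨ i = 1 ∨ i = 2 := by omega
    · exact (nT (ttak hT hM (Subgroup.relIndex_eq_one.1 hi))).elim
    · refine .inr ⟨fun y => (ttau hT o y).trans ?_, fun y => (uni2 hT hM TM o y).trans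
        (hi.trans (pow_one q))⟩
      exact Nat.eq_of_mul_eq_mul_right s.hq.pos (by simpa [sq] using e)
    · refine .inl ((Subgroup.eq_bot_iff_forall _).2 fun t ht => ttao fun y =>
        Subgroup.relIndex_eq_one.1 ((ttau hT o y).trans ?_) ht)
      exact Nat.eq_of_mul_eq_mul_right (pow_pos s.hq.pos 2) (by simpa using e)
  have qi := fun (h : ∀ y : X, (DD T hT y).relIndex M = q) y => qidx s.hq (s.pP.to_le l) (h y)
  have O2 : ∀ a ∈ M, ∀ b ∈ M, a * b * a⁻¹ * b⁻¹ ∈ T := fun a ha b hb => by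
    rcases hc with rfl | h
    swap
    · exact kM _ (mul_mem (hM.conj_mem b hb a) (inv_mem hb))
        (mem_KK.2 fun y => (qi h.2 y).1 a ha b hb)
    obtain ⟨n, hn, n0, -, n1, -⟩ := eig s.hq hT hM ⟨bot_le, fun k => nT (k.trans bot_le)⟩ hM
      (s.pP.to_le l) le_rfl (one_mul 1)
    have k : M ≤ KK X (M ⊓ Subgroup.centralizer M) inferInstance := by_contra fun k =>
      n0 (mx _ _ bot_le inf_le_left k ⟨hn, fun u hu => by
        have := mul_inv_eq_one.1 (n1 u hu)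
        rwa [mul_assoc, inv_mul_eq_iff_eq_mul] at this⟩)
    refine mul_inv_eq_one.2 (mul_inv_eq_iff_eq_mul.2 (eq_of_smul_eq_smul (α := X) fun y => ?_))
    obtain ⟨z, hz, e⟩ := mem_KK.1 (k ha) y
    obtain ⟨z', hz', e'⟩ := mem_KK.1 (k hb) y
    rw [mul_smul, mul_smul, e', e, ← mul_smul, hz'.2 a ha, mul_smul, e, ← mul_smul,
      ← mul_smul b, hz.2 b hb, mul_smul z, e', ← mul_smul, hz.2 z' hz'.1]
  have fx0 := fun y : X => ttax s hM le_rfl y fun u hu => mem_KK.1 (WL hu) y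
  have K1 : ∀ u ∈ M, ∀ w ∈ s.W, u * w ∈ KK X T hT → u ∈ T := fun u hu w hw h =>
    kM u hu (mem_KK.2 fun y => by
      obtain ⟨n, hn, e⟩ := fx0 y
      have h1 : u ∈ DD T hT (n • y) := by
        obtain ⟨t, ht, e1⟩ := mem_KK.1 h (n • y)
        exact ⟨t, ht, by rw [← e1, mul_smul u, e w hw]⟩
      have h3 := DD_conj hT n⁻¹ h1
      rw [inv_smul_smul] at h3
      show u ∈ DD T hT y
      simpa [mul_assoc] using mul_mem (inv_mem (le_DD T hT y (O2 _ (inv_mem hn) u hu))) h3)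
  have W1 : ∀ w ∈ s.W, w ∈ KK X T hT → w = 1 := fun w hw h => by
    rcases hc with rfl | hc
    · exact ttao fun y => (ttab y).le (mem_KK.1 h y)
    refine ttaa s H1 (U := s.W ⊓ KK X T hT) hT (TM.trans l) hc.1 inf_le_left inf_le_right
      (fun g u hu => ?_) w ⟨hw, h⟩
    obtain ⟨w', a1, m, a2, e⟩ := hW g u hu.1
    have a3 : w' * m ∈ KK X T hT := e ▸ nK.conj_mem u hu.2 g
    have a4 : m ∈ T := by
      simpa [mul_assoc] using hT.conj_mem' _
        (K1 _ (hM.conj_mem m a2 w') w' a1 (by simpa using a3)) w'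
    exact ⟨w', ⟨a1, by simpa using mul_mem a3 (inv_mem (W.le_KK hT a4))⟩, m, a4, e⟩
  have kT : ∀ g ∈ KK X T hT, g ∈ T := fun g hg => by
    obtain ⟨p, hp, w, hw, rfl⟩ := s.dec g
    have a1 := K1 p (clo p hp (by
      simpa using mul_mem (show p * w ∈ KK X M hM from mem_KK.2 fun y =>
        DD_mono hT hM TM y (mem_KK.1 hg y)) (inv_mem (WL hw)))) w hw hg
    rw [W1 w hw (by simpa using mul_mem (inv_mem (W.le_KK hT a1)) hg), mul_one]
    exact a1
  have nW : (M ⊔ s.W).Normal := ⟨fun x hx g => by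
    obtain ⟨m, hm, w, hw, rfl⟩ := Subgroup.mem_sup_of_normal_left.1 hx
    obtain ⟨w', a1, m', a2, e⟩ := hW g w hw
    rw [show g * (m * w) * g⁻¹ = g * m * g⁻¹ * (g * w * g⁻¹) by group, e]
    exact mul_mem (Subgroup.mem_sup_left (hM.conj_mem m hm g))
      (mul_mem (Subgroup.mem_sup_right a1) (Subgroup.mem_sup_left a2))⟩
  have hC : ∀ m ∈ M, (∀ w ∈ s.W, m⁻¹ * w * m * w⁻¹ ∈ T) → m ∈ T := fun m hm h => by
    refine mx (M ⊓ Z.cm T (M ⊔ s.W)) inferInstance (fun t ht => ⟨TM ht, Z.mem_cm.2 fun n _ => by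
      rw [(QuotientGroup.eq_one_iff t).2 ht]; exact Commute.one_right _⟩) inf_le_left
      (fun k => W0 fun w hw => W1 w hw (mem_KK.2 fun y => ?_)) ⟨hm, Z.mem_cm.2 fun n hn => ?_⟩
    · obtain ⟨n, hn, e⟩ := fx0 y
      obtain ⟨z, hz, e1⟩ := mem_KK.1 (k (inv_mem hn)) (n • y)
      refine ⟨_, (Z.cm_iff' w z).1 (Z.mem_cm.1 hz.2 w (Subgroup.mem_sup_right hw)), ?_⟩
      rw [inv_smul_smul] at e1
      rw [e1]
      simp only [mul_smul, inv_smul_smul]
      rw [e _ (inv_mem hw)]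
    · obtain ⟨m', hm', w, hw, rfl⟩ := Subgroup.mem_sup_of_normal_left.1 hn
      exact ((Z.cm_iff' m' m).2 (O2 m' hm' m hm)).mul_left ((Z.cm_iff m w).2 (h w hw)).symm
  have gT : ∀ Y : AddSubgroup A, (∀ p ∈ s.e.W, ∀ v ∈ Y, p • v ∈ Y) → (∀ t ∈ T, s.e.c t ∈ Y) →
      Y = ⊤ := fun Y hY h => by_contra fun k => by
    obtain ⟨Y', a1, a2, a3, a4⟩ := maxs s.hq s.hC s.pP hY (S := ⊤) (fun _ _ _ _ => trivial)
      (lt_top_iff_ne_top.2 k)
    let χ := chi s.e Y' ⊤ fun g _ => ext_b s.e Y' g fun y => by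
      obtain ⟨p, hp, e⟩ := s.tr y (g • y)
      rw [← s.e.hb, ← e, s.e.hb]
      exact mem_fx.1 (a4 trivial) p hp
    let R := (χ.comp Subgroup.topEquiv.symm.toMonoidHom).ker
    have hR : ∀ g, g ∈ R ↔ s.e.c g ∈ Y' := fun g => QuotientAddGroup.eq_zero_iff _
    have WR : s.W ≤ R := fun w hw => (hR w).2 ((s.hW w).1 hw ▸ Y'.zero_mem)
    have WZ : s.W ≤ (M ⊔ s.W) ⊓ R := le_inf le_sup_right WR
    refine a2.ne (s.gen o Y' a3 fun p hp e => ?_)
    have pM := cl o p hp (st_le M hM o e)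
    obtain ⟨z, hz, e1⟩ := Z.fixc Nat.prime_two s.W ((M ⊔ s.W) ⊓ R) s.W s.pW
      (fun d => ttai s (d.trans (Subgroup.relIndex_dvd_index_of_le WZ))) p
      fun u hu => (inferInstance : ((M ⊔ s.W) ⊓ R).Normal).conj_mem' u (WZ hu) p
    obtain ⟨m, hm, w, hw, rfl⟩ := Subgroup.mem_sup_of_normal_left.1 hz.1
    have a5 := hC _ (mul_mem pM hm) fun u hu => by
      rw [s.one (p := (p * m)⁻¹ * u * (p * m) * u⁻¹) (l (by
        simpa [mul_assoc] using (mul_mem (inv_mem (mul_mem pM hm))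
        (hM.conj_mem _ (mul_mem pM hm) u)))) (by
          simpa [mul_assoc] using mul_mem (mul_mem (mul_mem hw (e1 u hu)) (inv_mem hw))
            (inv_mem hu))]
      exact T.one_mem
    have a6 := mul_mem (mul_mem ((hR _).2 (a1 (h _ a5))) (WR hw)) (inv_mem hz.2)
    exact (hR p).1 (by simpa [mul_assoc] using a6)
  have nM : ¬M ≤ T := fun k => nT (k.trans (W.le_KK hT))
  replace hc := hc.resolve_left fun e => nM fun m hm => by
    have k := gT ⊥ (fun p _ v hv => by rw [show v = 0 from hv]; exact smul_zero p) fun t ht => by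
      rw [show t = 1 from e.le ht]; exact c_one _
    rw [s.one (l hm) ((s.hW m).2 (k.ge trivial))]
    exact T.one_mem
  by_cases h : ∀ y : X, s.W ≤ DD T hT y → ∀ w ∈ s.W, w • y = y
  · exact H1 G X A s s.W T M hT hM le_rfl (fun g hg => kT g (mem_KK.2 hg)) TM
      (fun a ha => kM _ (pow_mem ha q) (mem_KK.2 fun y => (qi hc.2 y).2 a ha)) O2 hW WL
      (fun k => nM fun m hm => hC m hm (k m hm)) hc.2 h
  · push Not at h
    obtain ⟨y, a1, w, hw, a2⟩ := h
    obtain ⟨t, ht, e⟩ := ttax s hT le_rfl y a1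
    exact H2 G X A s M T hM hT TM l hW hi cl hc.1 hc.2 kT gT
      ⟨_, e, w, hw, t⁻¹, inv_mem ht, by simpa using a2⟩

end

theorem t2 {q : ℕ} (H1 : SL q) (H2 : N1 q) : T2 q := by
  intro G X A _ _ _ _ _ _ _ s M hM l hW clo nt
  have := s.pre
  obtain ⟨x⟩ := s.ne
  obtain ⟨n, -, ho⟩ := ttax s (N := ⊤) inferInstance le_rfl x (le_top.trans (le_DD _ _ x))
  generalize n • x = o at ho
  have W0 : ¬∀ w ∈ s.W, w = 1 := fun h => s.W0 ((Subgroup.eq_bot_iff_forall _).2 h)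
  have WL : s.W ≤ KK X M hM := fun w hw => mem_KK.2 fun y => by
    obtain ⟨g, rfl⟩ := exists_smul_eq G o y
    obtain ⟨w', a1, m, a2, e⟩ := hW g⁻¹ w hw
    refine Z.DD_back hM ⟨_, hM.conj_mem m a2 w', ?_⟩
    rw [inv_inv] at e
    rw [e, mul_smul _ w'⁻¹, ho _ (inv_mem a1)]
  have e : ∀ y : X, (stabilizer G y).relIndex M * (DD M hM y).index = q ^ 3 := fun y => by
    rw [← ttab, fac2 _ hM bot_le, ttab, index_stabilizer_of_transitive, s.hX]
  obtain ⟨i, i3, hi⟩ := (Nat.dvd_prime_pow s.hq).1 (Dvd.intro _ (e o))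
  have h1 : ∀ y : X, (stabilizer G y).relIndex M = q ^ i := fun y => (ttau hM o y).trans hi
  have nt' : ∀ y : X, ¬s.e.W ≤ DD M hM y := fun y k => nt fun a b => by
    obtain ⟨p, hp, rfl⟩ := s.tr y a
    obtain ⟨p', hp', rfl⟩ := s.tr y b
    obtain ⟨m, hm, e1⟩ := k hp
    obtain ⟨m', hm', e2⟩ := k hp'
    exact ⟨m' * m⁻¹, mul_mem hm' (inv_mem hm), by rw [e1, e2, mul_smul, inv_smul_smul]⟩
  obtain rfl | rfl | rfl | rfl : i = 0 ∨ i = 1 ∨ i = 2 ∨ i = 3 := by omega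
  · refine W0 fun w hw => ttao fun y : X => ?_
    obtain ⟨m, hm, e1⟩ := mem_KK.1 (WL hw) y
    exact e1.trans (Subgroup.relIndex_eq_one.1 (h1 y) hm)
  · exact W0 (ttaa s H1 hM l (fun y => (h1 y).trans (pow_one q)) le_rfl WL hW)
  · have h3 : ∀ y : X, (DD M hM y).relIndex s.e.W = q := fun y => by
      have := Fact.mk s.hq
      have a1 : (DD M hM y).index = q := Nat.eq_of_mul_eq_mul_left (pow_pos s.hq.pos 2)
        (by rw [← pow_succ, ← e y, h1 y])
      obtain ⟨j, hj⟩ := s.pP.index ((DD M hM y).subgroupOf s.e.W)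
      have a2 : q ^ j ≤ q ^ 1 := by
        rw [← hj, pow_one]
        exact (Subgroup.relIndex_le_of_le_right le_top Subgroup.index_ne_zero_of_finite).trans
          ((Subgroup.relIndex_top_right _).trans a1).le
      obtain rfl | rfl : j = 0 ∨ j = 1 := by
        have := (Nat.pow_le_pow_iff_right s.hq.one_lt).1 a2
        omega
      · exact (nt' y (Subgroup.relIndex_eq_one.1 hj)).elim
      · exact hj.trans (pow_one q)
    have cl : ∀ y : X, ∀ p ∈ s.e.W, p ∈ DD M hM y → p ∈ M := fun y p hp h =>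
      clo p hp (mem_KK.2 fun z => by
        obtain ⟨a, ha, rfl⟩ := s.tr y z
        exact Z.DD_back hM (by
          simpa using mul_mem ((qidx s.hq s.pP (h3 y)).1 _ (inv_mem ha) p hp) h))
    refine ttam s H1 H2 hM l hW clo WL h1 cl (Eq.trans ?_ (h3 o))
    rw [← Subgroup.inf_relIndex_right (DD M hM o)]
    congr 1
    exact le_antisymm (le_inf (le_DD M hM o) l) fun p hp => cl o p hp.2 hp.1
  · refine nt' o (le_top.trans (Subgroup.index_eq_one.1 ?_).ge)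
    exact Nat.eq_of_mul_eq_mul_left (pow_pos s.hq.pos 3) (by rw [mul_one, ← hi, e o, hi])

end Pool.Agent.P.MP_6d14ae_al.B
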