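import Pool.Agent.P.MP_6d14ae_al.B.Td
import Pool.Agent.P.MP_6d14ae_al.B.Sl
import Pool.Agent.P.MP_6d14ae_al.B.Top
import Pool.Agent.P.MP_6d14ae_al.B.Cube
import Pool.Agent.P.MP_6d14ae_al.B.Tta
import Pool.Agent.P.MP_6d14ae_al.B.Non
import Pool.Agent.P.MP_6d14ae_al.B.Mln
import Pool.Agent.P.MP_6d14ae_al.B.Ex

/-! Prime cubes: a group of even order forces all cycle lengths to be multiples of the prime. -/

set_option autoImplicit false

namespace Pool.Agent.P.MP_6d14ae_al.B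

open MulAction

theorem cube3 {q : ℕ} {G X E : Type} [Group G] [Finite G] [MulAction G X]
    [AddCommGroup E] [DistribMulAction G E] (κ : G ≃ E) (hκ : ∀ g h, κ (g * h) = κ g + g • κ h)
    (a : X → E) (ha : ∀ (g : G) x, a (g • x) = g • a x)
    (hg : AddSubgroup.closure (Set.range a) = ⊤) [FaithfulSMul G X] [IsPretransitive G X]
    (hq : q.Prime) (h5 : 5 ≤ q) (hX : Nat.card X = q ^ 3) (h1 : 2 ∣ Nat.card G) {x y : X} {g : G}
    {k : ℕ} (c1 : κ g = a x) (c2 : g ^ k • y = y) (c3 : ¬q ∣ k) : False :=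
  have H := t2 (sl q) (n1 (tw ml))
  cube H (top H (tw ml)) κ hκ a ha hg hq h5 hX h1 c1 c2 c3

end Pool.Agent.P.MP_6d14ae_al.B
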