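import Pool.Agent.P.MP_6d14ae_al.W.Aa
import Pool.Agent.P.MP_6d14ae_al.Z.All

/-! Prime cubes: the setting and the common tools. -/

set_option autoImplicit false

namespace Pool.Agent.P.MP_6d14ae_al.B

open MulAction T V
open S hiding Dat Lay c_one c_div facN ext_b triK next chi chi_one

/-- the setting: `e.W` is the Sylow subgroup `P`, `W` is the kernel of the cocycle -/
structure Su (G X A : Type) [Group G] [MulAction G X] [AddCommGroup A] [DistribMulAction G A]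
    (q : ℕ) where
  e : Dat G X A
  a : ℕ
  hq : q.Prime
  h5 : 5 ≤ q
  he : e.N2 = q ^ a
  hN : e.N1.Coprime q
  hC : ∀ v : A, q ^ a • v = 0
  hX : Nat.card X = q ^ 3
  W : Subgroup G
  hW : ∀ w, w ∈ W ↔ e.c w = 0
  W2 : ∀ w ∈ W, w * w = 1
  W0 : W ≠ ⊥
  tr : ∀ x y : X, ∃ p ∈ e.W, p • x = y
  gen : ∀ (y : X) (Y : AddSubgroup A), (∀ p ∈ e.W, ∀ v ∈ Y, p • v ∈ Y) →
    (∀ p ∈ e.W, p • y = y → e.c p ∈ Y) → Y = ⊤

/-- the twist with a top layer that the involution inverts -/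
def TW (q : ℕ) : Prop :=
  ∀ (G X A : Type) [Group G] [Finite G] [Group.IsSolvable G] [MulAction G X] [FaithfulSMul G X]
    [AddCommGroup A] [DistribMulAction G A] (s : Su G X A q) (j : G) (M : Subgroup G),
    j ∈ s.W → s.e.W.Normal → (∀ g, g ∈ s.e.W ∨ g * j ∈ s.e.W) → M.Normal → M ≤ s.e.W →
    M.relIndex s.e.W = q → (∀ (y : X), ∀ p ∈ s.e.W, p • y = y → p ∈ M) →
    (∀ p ∈ s.e.W, p * j * p * j⁻¹ ∈ M) → False

/-- one layer only -/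
def SL (q : ℕ) : Prop :=
  ∀ (G X A : Type) [Group G] [Finite G] [Group.IsSolvable G] [MulAction G X] [FaithfulSMul G X]
    [AddCommGroup A] [DistribMulAction G A] (s : Su G X A q) (W K O : Subgroup G) (hK : K.Normal)
    (hO : O.Normal), W ≤ s.W → (∀ g : G, (∀ y : X, ∃ k ∈ K, g • y = k • y) → g ∈ K) → K ≤ O →
    (∀ a ∈ O, a ^ q ∈ K) → (∀ a ∈ O, ∀ b ∈ O, a * b * a⁻¹ * b⁻¹ ∈ K) →
    (∀ g, ∀ w ∈ W, ∃ w' ∈ W, ∃ o ∈ O, g * w * g⁻¹ = w' * o) → W ≤ KK X O hO →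
    (¬∀ o ∈ O, ∀ w ∈ W, o⁻¹ * w * o * w⁻¹ ∈ K) → (∀ y : X, (DD K hK y).relIndex O = q) →
    (∀ y : X, W ≤ DD K hK y → ∀ w ∈ W, w • y = y) → False

/-- the kernel of the cocycle fixes the blocks -/
def T2 (q : ℕ) : Prop :=
  ∀ (G X A : Type) [Group G] [Finite G] [Group.IsSolvable G] [MulAction G X] [FaithfulSMul G X]
    [AddCommGroup A] [DistribMulAction G A] (s : Su G X A q) (M : Subgroup G) (hM : M.Normal),
    M ≤ s.e.W → (∀ g, ∀ w ∈ s.W, ∃ w' ∈ s.W, ∃ m ∈ M, g * w * g⁻¹ = w' * m) →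
    (∀ p ∈ s.e.W, p ∈ KK X M hM → p ∈ M) → (¬∀ x y : X, ∃ m ∈ M, m • x = y) → False

/-- the twist -/
def TOP (q : ℕ) : Prop :=
  ∀ (G X A : Type) [Group G] [Finite G] [Group.IsSolvable G] [MulAction G X] [FaithfulSMul G X]
    [AddCommGroup A] [DistribMulAction G A] (s : Su G X A q) (j : G),
    j ∈ s.W → s.e.W.Normal → (∀ g, g ∈ s.e.W ∨ g * j ∈ s.e.W) → False

section

variable {G : Type} [Group G] [Finite G] {q : ℕ}

theorem qidx (hq : q.Prime) {D R : Subgroup G} (hR : IsPGroup q R) (h : D.relIndex R = q) :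
    (∀ a ∈ R, ∀ b ∈ R, a * b * a⁻¹ * b⁻¹ ∈ D) ∧ ∀ a ∈ R, a ^ q ∈ D := by
  have := Fact.mk hq
  obtain ⟨i, hi⟩ := IsPGroup.iff_card.1 hR
  have i0 : i ≠ 0 := by
    rintro rfl
    have := (D.subgroupOf R).index_dvd_card
    rw [hi, show (D.subgroupOf R).index = q from h] at this
    exact hq.one_lt.ne' (Nat.dvd_one.1 this)
  have hn : (D.subgroupOf R).Normal := Subgroup.normal_of_index_eq_minFac_card (by
    rw [hi, hq.pow_minFac i0]; exact h)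
  have hc : Nat.card (R ⧸ D.subgroupOf R) = q := h
  have := isCyclic_of_prime_card hc
  refine ⟨fun a ha b hb => ?_, fun a ha => ?_⟩
  · have h1 : (((⟨a, ha⟩ : R) * ⟨b, hb⟩ * ⟨a, ha⟩⁻¹ * ⟨b, hb⟩⁻¹ : R) : R ⧸ D.subgroupOf R) = 1 := by
      let _ : CommGroup (R ⧸ D.subgroupOf R) := IsCyclic.commGroup
      simp only [QuotientGroup.mk_mul, QuotientGroup.mk_inv]
      rw [mul_inv_cancel_comm, mul_inv_cancel]
    exact (QuotientGroup.eq_one_iff (N := D.subgroupOf R) _).1 h1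
  · have h1 : (((⟨a, ha⟩ : R) ^ q : R) : R ⧸ D.subgroupOf R) = 1 := by
      rw [QuotientGroup.mk_pow, ← hc, pow_card_eq_one']
    exact (QuotientGroup.eq_one_iff (N := D.subgroupOf R) _).1 h1

theorem pm (hq : q.Prime) {D R : Subgroup G} (h : D.relIndex R = q)
    (hF : ∀ a ∈ R, ∀ b ∈ R, a * b * a⁻¹ * b⁻¹ ∈ D) {w : G} (hw : w * w = 1)
    (h1 : ∀ n ∈ R, w * n * w⁻¹ ∈ R) (h2 : ∀ n ∈ R, n ∈ D → w * n * w⁻¹ ∈ D) :
    (∀ r ∈ R, r⁻¹ * w * r * w⁻¹ ∈ D) ∨ ∀ r ∈ R, r * w * r * w⁻¹ ∈ D := by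
  obtain ⟨F, a1, -⟩ := W.fxr (b := 1) Nat.prime_two (by rwa [pow_one, sq]) D R hF h1 h2
  refine (pr1 hq h (fun m hm => (a1 m).2 ⟨hm.2, by
    simpa [mul_assoc] using D.mul_mem (D.inv_mem hm.1) (h2 m hm.2 hm.1)⟩)
    fun m hm => ((a1 m).1 hm).1).symm.imp (fun k r hr => ((a1 r).1 (k hr)).2) fun k r hr => ?_
  have e : w⁻¹ = w := inv_eq_of_mul_eq_one_right hw
  have h3 := h1 r hr
  suffices h : r * (w * r * w⁻¹) ∈ D by simpa [mul_assoc] using h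
  refine k ((a1 _).2 ⟨mul_mem hr h3, ?_⟩)
  convert hF _ (inv_mem h3) _ (inv_mem hr) using 1
  simp only [mul_inv_rev, inv_inv, e, mul_assoc]
  rw [hw, mul_one]

theorem cen (hq : q.Prime) {K N U : Subgroup G} (hK : K.Normal) (hN : N.Normal) (hl : K < N)
    (h1 : ∀ a ∈ N, ∀ b ∈ N, a * b * a⁻¹ * b⁻¹ ∈ K) (h2 : ∀ a ∈ N, a ^ q ∈ K)
    (min : ∀ M : Subgroup G, M.Normal → K < M → M ≤ N → N ≤ M) (hU : U.Normal)
    (pU : IsPGroup q U) : ∀ n ∈ N, ∀ u ∈ U, n⁻¹ * u * n * u⁻¹ ∈ K := by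
  obtain ⟨F, a1, a2⟩ := cnt K N U hq pU h1
    (fun u _ n hn => hN.conj_mem n hn u) fun u _ n _ h => hK.conj_mem n h u
  have l1 : F ≤ N ⊓ Z.cm K U := fun n hn => ⟨((a1 n).1 hn).1, Z.mem_cm.2 fun t ht =>
    ((Z.cm_iff n t).2 (((a1 n).1 hn).2 t ht)).symm⟩
  have l2 := min (N ⊓ Z.cm K U) inferInstance ⟨fun k hk => ⟨hl.le hk, Z.mem_cm.2 fun t _ => by
    rw [(QuotientGroup.eq_one_iff k).2 hk]; exact Commute.one_right _⟩, fun h => by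
      obtain ⟨i, hi⟩ := pw K N hq h1 h2
      rw [Subgroup.relIndex_eq_one.2 (l1.trans h), hi] at a2
      rcases i with _ | i
      · exact hl.not_ge (Subgroup.relIndex_eq_one.1 hi)
      · exact hq.one_lt.ne' (Nat.dvd_one.1 ((a2.dvd_iff dvd_rfl).1
          (dvd_pow_self q i.succ_ne_zero)))⟩ inf_le_left
  exact fun n hn u hu => (Z.cm_iff n u).1 (Z.mem_cm.1 (l2 hn).2 u hu).symm

theorem eig [Group.IsSolvable G] (hq : q.Prime) {K N P : Subgroup G} (hK : K.Normal) (hN : N.Normal)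
    (hl : K < N) (hP : P.Normal) (pP : IsPGroup q P) (l : N ≤ P) {j : G} (hj : j * j = 1) :
    ∃ n ∈ N, n ∉ K ∧ n ^ q ∈ K ∧ (∀ u ∈ P, n⁻¹ * u * n * u⁻¹ ∈ K) ∧
      (n⁻¹ * j * n * j⁻¹ ∈ K ∨ n * j * n * j⁻¹ ∈ K) := by
  obtain ⟨r, hr, N0, hN0, l1, l2, h1, h2, min⟩ := elem2 K N hl
  obtain ⟨n, hn, n0⟩ := SetLike.exists_of_lt l1
  obtain rfl : r = q := by
    by_contra h
    obtain ⟨k, hk⟩ := pP ⟨n, l (l2 hn)⟩
    exact n0 (cop K (((Nat.coprime_primes hr hq).2 h).pow_right k) (h2 n hn)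
      ((show n ^ q ^ k = 1 from congrArg Subtype.val hk) ▸ K.one_mem))
  have ce := cen hq hK hN0 l1 h1 h2 min hP pP
  by_cases h : n * j * n * j⁻¹ ∈ K
  · exact ⟨n, l2 hn, n0, h2 n hn, ce n hn, Or.inr h⟩
  have h3 := hN0.conj_mem n hn j
  have h4 := mul_mem hn h3
  refine ⟨_, l2 h4, by simpa [mul_assoc] using h, h2 _ h4, ce _ h4, Or.inl ?_⟩
  have e : j⁻¹ = j := inv_eq_of_mul_eq_one_right hj
  convert h1 _ (inv_mem h3) _ (inv_mem hn) using 1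
  simp only [mul_inv_rev, inv_inv, e, mul_assoc]
  rw [hj, mul_one]

end

variable {G X A : Type} [Group G] [MulAction G X] [AddCommGroup A] [DistribMulAction G A] {q a : ℕ}

theorem fxq [Finite A] (hq : q.Prime) (hC : ∀ v : A, q ^ a • v = 0) {U : Subgroup G}
    (hU : IsPGroup q U) {D S : AddSubgroup A} (hD : ∀ u ∈ U, ∀ v ∈ D, u • v ∈ D)
    (hS : ∀ u ∈ U, ∀ v ∈ S, u • v ∈ S) (l : ¬S ≤ D) :
    ∃ v ∈ S, v ∉ D ∧ ∀ u ∈ U, u • v - v ∈ D := by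
  let _ := Z.subAct (G := U) S fun u v hv => hS u u.2 v hv
  obtain ⟨v, h1, h2⟩ := fixq (G := U) (A := S) (a := a) hq (fun v => Subtype.ext (hC v)) ⊤
    (hU.to_subgroup ⊤) (D := D.addSubgroupOf S) (fun u v hv => hD u u.2 _ hv)
    fun h => l (AddSubgroup.addSubgroupOf_eq_top.1 h)
  exact ⟨v, v.2, h1, fun u hu => h2 ⟨u, hu⟩ trivial⟩

/-- the vectors that a subgroup fixes modulo `D` -/
def fx (U : Subgroup G) (D : AddSubgroup A) : AddSubgroup A :=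
  ⨅ u ∈ U, D.comap (DistribSMul.toAddMonoidHom A u - AddMonoidHom.id A)

theorem mem_fx {U : Subgroup G} {D : AddSubgroup A} {v : A} :
    v ∈ fx U D ↔ ∀ u ∈ U, u • v - v ∈ D := by
  simp [fx]

theorem fx_smul {U : Subgroup G} {D : AddSubgroup A} {g : G} (h1 : ∀ u ∈ U, g⁻¹ * u * g ∈ U)
    (hD : ∀ v ∈ D, g • v ∈ D) {v : A} (h : v ∈ fx U D) : g • v ∈ fx U D := mem_fx.2 fun u hu => by
  simpa [smul_sub, mul_smul] using hD _ (mem_fx.1 h _ (h1 u hu))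

theorem maxs [Finite A] (hq : q.Prime) (hC : ∀ v : A, q ^ a • v = 0) {U : Subgroup G}
    (hU : IsPGroup q U) {Y S : AddSubgroup A} (hY : ∀ u ∈ U, ∀ v ∈ Y, u • v ∈ Y)
    (hS : ∀ u ∈ U, ∀ v ∈ S, u • v ∈ S) (l : Y < S) :
    ∃ Y', Y ≤ Y' ∧ Y' < S ∧ (∀ u ∈ U, ∀ v ∈ Y', u • v ∈ Y') ∧ S ≤ fx U Y' := by
  obtain ⟨D, ⟨l1, l2, hD⟩, mx⟩ := wellFounded_gt.has_min {D : AddSubgroup A |
    Y ≤ D ∧ D < S ∧ ∀ u ∈ U, ∀ v ∈ D, u • v ∈ D} ⟨Y, le_rfl, l, hY⟩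
  refine ⟨D, l1, l2, hD, ?_⟩
  obtain ⟨v, h1, h2, h3⟩ := fxq hq hC hU hD hS l2.not_ge
  have l3 : D ≤ S ⊓ fx U D := fun w hw => ⟨l2.le hw, mem_fx.2 fun u hu => sub_mem (hD u hu w hw) hw⟩
  by_contra h
  exact mx (S ⊓ fx U D) ⟨l1.trans l3, ⟨inf_le_left, fun k => h (k.trans inf_le_right)⟩,
    fun u hu w hw => ⟨hS u hu w hw.1, fx_smul (fun t ht => mul_mem (mul_mem (inv_mem hu) ht) hu)
      (hD u hu) hw.2⟩⟩ ⟨l3, fun k => h2 (k ⟨h1, mem_fx.2 h3⟩)⟩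

theorem ds [Finite A] (hq : q.Prime) (hC : ∀ v : A, q ^ a • v = 0) {N : Subgroup G}
    {B L : AddSubgroup A} (hB : ∀ (g : G), ∀ v ∈ B, g • v ∈ B) (hL : ∀ (g : G), ∀ v ∈ L, g • v ∈ L)
    (l : B ≤ L) (h : ¬L ≤ fx N B) :
    ∃ D S : AddSubgroup A, B ≤ D ∧ D ≤ S ∧ S ≤ L ∧ (∀ (g : G), ∀ v ∈ D, g • v ∈ D) ∧
      (∀ (g : G), ∀ v ∈ S, g • v ∈ S) ∧ ¬L ≤ fx N D ∧ L ≤ fx N S ∧
      ∀ U : Subgroup G, U.Normal → IsPGroup q U → S ≤ fx U D := by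
  obtain ⟨D, ⟨l1, l2, hD, n1⟩, mx⟩ := wellFounded_gt.has_min {D : AddSubgroup A |
    B ≤ D ∧ D ≤ L ∧ (∀ (g : G), ∀ v ∈ D, g • v ∈ D) ∧ ¬L ≤ fx N D} ⟨B, le_rfl, l, hB, h⟩
  have lf : ∀ U : Subgroup G, D ≤ fx U D := fun U w hw =>
    mem_fx.2 fun u _ => sub_mem (hD u w hw) hw
  obtain ⟨S, ⟨l3, l4, hS⟩, mn⟩ := wellFounded_lt.has_min {S : AddSubgroup A |
    D < S ∧ S ≤ L ∧ ∀ (g : G), ∀ v ∈ S, g • v ∈ S}
    ⟨L, ⟨l2, fun k => n1 (k.trans (lf N))⟩, le_rfl, hL⟩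
  refine ⟨D, S, l1, l3.le, l4, hD, hS, n1, by_contra fun k => mx S ⟨l1.trans l3.le, l4, hS, k⟩ l3,
    fun U hU pU => by_contra fun k => ?_⟩
  obtain ⟨v, h1, h2, h3⟩ := fxq hq hC pU (fun u _ => hD u) (fun u _ => hS u) l3.not_ge
  exact mn (S ⊓ fx U D) ⟨⟨le_inf l3.le (lf U), fun k => h2 (k ⟨h1, mem_fx.2 h3⟩)⟩,
    inf_le_left.trans l4, fun g w hw => ⟨hS g w hw.1,
      fx_smul (fun t ht => hU.conj_mem' t ht g) (hD g) hw.2⟩⟩
    ⟨inf_le_left, fun k' => k (k'.trans inf_le_right)⟩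

theorem mu {c : G → A} (hc : ∀ g h, c (g * h) = c g + g • c h) {b : X → A}
    (hb : ∀ (g : G) x, b (g • x) = g • b x) {N R : Subgroup G} (l : R ≤ N) {D S : AddSubgroup A}
    (hS : ∀ (g : G), ∀ v ∈ S, g • v ∈ S)
    (h1 : AddSubgroup.closure (Set.range b) ≤ fx N S) (h2 : S ≤ fx N D)
    (h3 : ∀ r ∈ R, c r ∈ AddSubgroup.closure (Set.range b))
    (sy : ∀ r ∈ R, ∀ r' ∈ R, c (r * r') - c (r' * r) ∈ D)
    (on : ∀ s, ∃ n ∈ R, c n - b s ∈ S) :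
    ∃ ν : X → X → A, (∀ s t, ∃ r ∈ R, ν s t = r • b t - b t) ∧
      (∀ s t, (ν s t : A ⧸ D) = ν t s) ∧ (∀ m ∈ N, ∀ s t, (ν s (m • t) : A ⧸ D) = ν s t) ∧
      (∀ g, (∀ r ∈ R, g * r * g⁻¹ ∈ R) → c g ∈ AddSubgroup.closure (Set.range b) → ∀ s t,
        (ν (g • s) (g • t) : A ⧸ D) = (g • ν s t : A)) ∧
      ((∀ s t, ν s t ∈ D) → AddSubgroup.closure (Set.range b) ≤ fx R D) ∧
      ∀ r ∈ R, c r ∈ S → ∀ v ∈ AddSubgroup.closure (Set.range b), r • v - v ∈ D := by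
  choose n n1 n2 using on
  have hb' : ∀ s, b s ∈ AddSubgroup.closure (Set.range b) := fun s =>
    AddSubgroup.subset_closure ⟨s, rfl⟩
  have k0 : ∀ r ∈ N, ∀ v w : A, v - w ∈ S → ((r • v - v : A) : A ⧸ D) = (r • w - w : A) :=
    fun r hr v w h => QuotientAddGroup.eq_iff_sub_mem.2 (by
      convert mem_fx.1 (h2 h) r hr using 1
      rw [smul_sub]; abel)
  have k1 : ∀ r ∈ R, ∀ t, ((r • b t - b t : A) : A ⧸ D) = (n t • c r - c r : A) := fun r hr t => by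
    rw [← k0 r (l hr) _ _ (n2 t)]
    refine QuotientAddGroup.eq_iff_sub_mem.2 ?_
    convert sy r hr _ (n1 t) using 1
    rw [hc, hc]; abel
  have k2 : ∀ r ∈ R, ∀ s t, c r - b s ∈ S →
      ((r • b t - b t : A) : A ⧸ D) = (n t • b s - b s : A) := fun r hr s t h =>
    (k1 r hr t).trans (k0 _ (l (n1 t)) _ _ h)
  have k3 : ∀ r : G, (∀ t, r • b t - b t ∈ D) → ∀ v ∈ AddSubgroup.closure (Set.range b),
      r • v - v ∈ D := fun r h v hv => by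
    induction hv using AddSubgroup.closure_induction with
    | mem _ h' => obtain ⟨t, rfl⟩ := h'; exact h t
    | zero => simp
    | add x y _ _ hx hy => convert add_mem hx hy using 1; rw [smul_add]; abel
    | neg x _ hx => convert neg_mem hx using 1; rw [smul_neg]; abel
  refine ⟨fun s t => n s • b t - b t, fun s t => ⟨n s, n1 s, rfl⟩, fun s t => k2 _ (n1 s) s t (n2 s),
    fun m hm s t => k0 _ (l (n1 s)) _ _ (hb m t ▸ mem_fx.1 (h1 (hb' t)) m hm),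
    fun g hg h s t => ?_, fun h v hv => mem_fx.2 fun r hr => k3 r (fun t => ?_) v hv,
    fun r hr h => k3 r fun t => ?_⟩
  · have h4 := hg _ (n1 s)
    rw [k2 _ (n1 _) _ _ (n2 _), ← k2 _ h4 (g • s) (g • t), hb]
    · simp [mul_smul, smul_sub]
    · have h5 := hc (g * n s * g⁻¹) g
      rw [inv_mul_cancel_right, hc] at h5
      convert sub_mem (hS g _ (n2 s)) (mem_fx.1 (h1 h) _ (l h4)) using 1
      rw [hb, smul_sub, eq_sub_of_add_eq h5.symm]; abel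
  · exact (QuotientAddGroup.eq_zero_iff _).1 ((k1 r hr t).trans
      ((QuotientAddGroup.eq_zero_iff _).2 (k3 _ (h t) _ (h3 r hr))))
  · exact (QuotientAddGroup.eq_zero_iff _).1 ((k1 r hr t).trans
      ((QuotientAddGroup.eq_zero_iff _).2 (mem_fx.1 (h2 h) _ (l (n1 t)))))

namespace Su

variable (s : Su G X A q)

theorem dec (g : G) : ∃ p ∈ s.e.W, ∃ w ∈ s.W, g = p * w := by
  obtain ⟨p, hp, e⟩ := s.e.hs (s.e.c g)
  exact ⟨p, hp, p⁻¹ * g, (s.hW _).2 (by rw [c_div, e, sub_self, smul_zero]), by simp⟩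

theorem pq {p : G} (hp : p ∈ s.e.W) : p ^ q ^ s.a = 1 := s.he ▸ s.e.hW p hp

theorem pP : IsPGroup q s.e.W := fun u => ⟨s.a, Subtype.ext (s.pq u.2)⟩

theorem pW : IsPGroup 2 s.W := fun u => ⟨1, Subtype.ext (by simpa [sq] using s.W2 u u.2)⟩

include s in
theorem odd : q.Coprime 2 :=
  (Nat.coprime_primes s.hq Nat.prime_two).2 (by have := s.h5; omega)

theorem one {p : G} (hp : p ∈ s.e.W) (h : p ∈ s.W) : p = 1 :=
  cop ⊥ (s.odd.pow_left s.a) (s.pq hp) (show p ^ 2 = 1 from (sq p).trans (s.W2 p h))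

theorem inj {p p' : G} (hp : p ∈ s.e.W) (hp' : p' ∈ s.e.W) (h : s.e.c p = s.e.c p') : p = p' :=
  inv_mul_eq_one.1 (s.one (mul_mem (inv_mem hp) hp')
    ((s.hW _).2 (by rw [c_div, h, sub_self, smul_zero])))

theorem winv {w : G} (h : w ∈ s.W) : w⁻¹ = w := inv_eq_of_mul_eq_one_right (s.W2 w h)

theorem wcom {w w' : G} (h : w ∈ s.W) (h' : w' ∈ s.W) : w * w' = w' * w := by
  rw [← s.winv (mul_mem h h'), mul_inv_rev, s.winv h, s.winv h']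

include s in
theorem pre : IsPretransitive G X := ⟨fun x y => let ⟨p, _, h⟩ := s.tr x y; ⟨p, h⟩⟩

include s in
theorem fin [Finite G] : Finite A :=
  Finite.of_surjective s.e.c fun v => let ⟨w, _, h⟩ := s.e.hs v; ⟨w, h⟩

include s in
theorem ne : Nonempty X := (Nat.card_ne_zero.1 (s.hX ▸ pow_ne_zero 3 s.hq.ne_zero)).1

include s in
theorem n2 : ¬2 ∣ Nat.card X := fun h => Nat.prime_two.one_lt.ne'
  (Nat.eq_one_of_dvd_coprimes (s.odd.pow_left 3) (s.hX ▸ h) dvd_rfl)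

end Su

end Pool.Agent.P.MP_6d14ae_al.B
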