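import Pool.Agent.P.MP_6d14ae_al.B.Bas

/-! Prime cubes: two more steps, stated apart. -/

set_option autoImplicit false

namespace Pool.Agent.P.MP_6d14ae_al.B

open MulAction T V
open S hiding Dat Lay c_one c_div facN ext_b triK next chi chi_one

/-- the kernel of the cocycle moves both lower layers -/
def N1 (q : ℕ) : Prop :=
  ∀ (G X A : Type) [Group G] [Finite G] [Group.IsSolvable G] [MulAction G X] [FaithfulSMul G X]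
    [AddCommGroup A] [DistribMulAction G A] (s : Su G X A q) (M T : Subgroup G) (hM : M.Normal)
    (hT : T.Normal), T ≤ M → M ≤ s.e.W →
    (∀ g, ∀ w ∈ s.W, ∃ w' ∈ s.W, ∃ m ∈ M, g * w * g⁻¹ = w' * m) → M.relIndex s.e.W = q →
    (∀ y : X, ∀ p ∈ s.e.W, p ∈ DD M hM y → p ∈ M) →
    (∀ y : X, (stabilizer G y).relIndex T = q) → (∀ y : X, (DD T hT y).relIndex M = q) →
    (∀ g ∈ KK X T hT, g ∈ T) →
    (∀ Y : AddSubgroup A, (∀ p ∈ s.e.W, ∀ v ∈ Y, p • v ∈ Y) → (∀ t ∈ T, s.e.c t ∈ Y) → Y = ⊤) →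
    (∃ o : X, (∀ w ∈ s.W, w • o = o) ∧ ∃ w ∈ s.W, ∃ t ∈ T, w • t • o ≠ t • o) → False

/-- the main line of the twist, in coordinates -/
def ML (q : ℕ) : Prop :=
  ∀ (G X A : Type) [Group G] [Finite G] [MulAction G X] [FaithfulSMul G X]
    [AddCommGroup A] [DistribMulAction G A] (s : Su G X A q) (j z l y : G) (o : X)
    (ψ : G → ZMod q) (τ : X → G) (T : Subgroup G) (δ ρ κ : ZMod q) (ε : ℤ),
    j ∈ s.W → s.e.W.Normal → j • o = o →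
    (∀ p ∈ s.e.W, ∀ p' ∈ s.e.W, ψ (p * p') = ψ p + ψ p') →
    (∀ p ∈ s.e.W, ψ (j * p * j⁻¹) = -ψ p) → (∀ x : X, ∀ p ∈ s.e.W, p • x = x → ψ p = 0) →
    z ∈ s.e.W → (∀ p ∈ s.e.W, p * z = z * p) → z ^ q = 1 → j * z * j⁻¹ = z⁻¹ → ψ z = 0 →
    (∀ t, t ∈ T ↔ t ∈ s.e.W ∧ ∀ x : X, ∃ k : ℕ, t • x = z ^ k • x) →
    l ∈ s.e.W → ψ l = 1 → l ^ q ∈ T → j * l * j⁻¹ * l ∈ T →
    y ∈ s.e.W → ψ y = 0 → y ∉ T → y ^ q ∈ T → (∀ p ∈ s.e.W, y⁻¹ * p * y * p⁻¹ ∈ T) →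
    (ε = 1 ∨ ε = -1) → (y ^ ε)⁻¹ * (j * y * j⁻¹) ∈ T →
    (∀ x, τ x ∈ s.e.W) → (∀ x, s.e.c (τ x)⁻¹ = s.e.b x) → δ ≠ 0 →
    (∀ x, ψ (τ (z • x)) = ψ (τ x) + δ) →
    (∀ x, ∀ g ∈ s.e.W, g • o = τ x • x →
      (l ^ δ.val * y ^ (ρ * ψ g + κ).val)⁻¹ * (τ (z • x) * (τ x)⁻¹) ∈ T) →
    (ρ = 0 → κ = 0) →
    (ρ ≠ 0 → ∀ x, ∀ m ∈ s.e.W, ψ m = 0 → ψ (τ (τ x • m • x)) = ψ (τ (m • x))) → False

end Pool.Agent.P.MP_6d14ae_al.B
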