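import Pool.Agent.P.MP_6d14ae_al.B.Ifc

/-! Prime cubes: the twist, data and the pairing on the middle layer. -/

set_option autoImplicit false
set_option linter.unusedSectionVars false

namespace Pool.Agent.P.MP_6d14ae_al.B

open MulAction T V
open S hiding Dat Lay c_one c_div facN ext_b triK next chi chi_one

variable {G X A : Type} [Group G] [MulAction G X] [AddCommGroup A] [DistribMulAction G A] {q : ℕ}

/-- the image of `z - 1` -/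
def La (A : Type) [AddCommGroup A] [DistribMulAction G A] (z : G) : AddSubgroup A :=
  (DistribSMul.toAddMonoidHom A z - AddMonoidHom.id A).range

theorem mem_La {z : G} {v : A} : v ∈ La A z ↔ ∃ w, z • w - w = v := Iff.rfl

/-- the stabiliser of a coset -/
def sc (D : AddSubgroup A) (hD : ∀ (g : G), ∀ v ∈ D, g • v ∈ D) (v : A) : Subgroup G where
  carrier := {g | g • v - v ∈ D}
  one_mem' := by simp
  mul_mem' := fun {a b} ha hb => by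
    have := add_mem (hD a _ hb) ha
    rwa [smul_sub, sub_add_sub_cancel, ← mul_smul] at this
  inv_mem' := fun {a} ha => by
    have := neg_mem (hD a⁻¹ _ ha)
    rwa [smul_sub, inv_smul_smul, neg_sub] at this

theorem ccj {c : G → A} (hc : ∀ g h, c (g * h) = c g + g • c h) (g r : G) :
    c (g * r * g⁻¹) = g • c r - ((g * r * g⁻¹) • c g - c g) := by
  have h5 := hc (g * r * g⁻¹) g
  rw [inv_mul_cancel_right, hc] at h5
  rw [eq_sub_of_add_eq h5.symm]; abel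

/-- the classes of the values of a cocycle on a subgroup that acts trivially on them -/
def im {c : G → A} (hc : ∀ g h, c (g * h) = c g + g • c h) (R : Subgroup G) (S : AddSubgroup A)
    (h : ∀ r ∈ R, ∀ r' ∈ R, r • c r' - c r' ∈ S) : AddSubgroup A where
  carrier := {v | ∃ n ∈ R, c n - v ∈ S}
  zero_mem' := ⟨1, R.one_mem, by simp [Z.f_one hc]⟩
  add_mem' := by
    rintro v w ⟨n, h1, h2⟩ ⟨m, h3, h4⟩
    refine ⟨n * m, mul_mem h1 h3, ?_⟩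
    convert add_mem (add_mem h2 h4) (h n h1 m h3) using 1
    rw [hc]; abel
  neg_mem' := by
    rintro v ⟨n, h1, h2⟩
    refine ⟨n⁻¹, inv_mem h1, ?_⟩
    have := Z.f_div hc n 1
    rw [mul_one, Z.f_one hc, zero_sub, smul_neg] at this
    convert neg_mem (add_mem h2 (h _ (inv_mem h1) n h1)) using 1
    rw [this]; abel

theorem im_smul {c : G → A} {hc : ∀ g h, c (g * h) = c g + g • c h} {R : Subgroup G}
    {S : AddSubgroup A} {h : ∀ r ∈ R, ∀ r' ∈ R, r • c r' - c r' ∈ S} {g : G}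
    (hS : ∀ v ∈ S, g • v ∈ S) (h1 : ∀ r ∈ R, g * r * g⁻¹ ∈ R) (h2 : ∀ r ∈ R, r • c g - c g ∈ S) :
    ∀ v ∈ im hc R S h, g • v ∈ im hc R S h := by
  rintro v ⟨n, h3, h4⟩
  refine ⟨_, h1 n h3, ?_⟩
  convert sub_mem (hS _ h4) (h2 _ (h1 n h3)) using 1
  rw [ccj hc, smul_sub]; abel

theorem clo_fx {b : X → A} {U : Subgroup G} {D : AddSubgroup A}
    (h : ∀ u ∈ U, ∀ x, u • b x - b x ∈ D) : AddSubgroup.closure (Set.range b) ≤ fx U D :=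
  (AddSubgroup.closure_le _).2 (Set.range_subset_iff.2 fun x => mem_fx.2 fun u hu => h u hu x)

theorem fx_mono {U U' : Subgroup G} {D D' : AddSubgroup A} (h : U' ≤ U) (h' : D ≤ D') :
    fx U D ≤ fx U' D' := fun _ hv => mem_fx.2 fun u hu => h' (mem_fx.1 hv u (h hu))

theorem mu2 {c : G → A} (hc : ∀ g h, c (g * h) = c g + g • c h) {b : X → A}
    {N R : Subgroup G} (hb : ∀ g ∈ N, ∀ x, b (g • x) = g • b x) (l : R ≤ N) {D S : AddSubgroup A}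
    (hS : ∀ (g : G), ∀ v ∈ S, g • v ∈ S)
    (h1 : AddSubgroup.closure (Set.range b) ≤ fx N S) (h2 : S ≤ fx N D)
    (h3 : ∀ r ∈ R, c r ∈ AddSubgroup.closure (Set.range b))
    (sy : ∀ r ∈ R, ∀ r' ∈ R, c (r * r') - c (r' * r) ∈ D)
    (on : ∀ s, ∃ n ∈ R, c n - b s ∈ S) :
    ∃ ν : X → X → A, (∀ s t, ∃ r ∈ R, ν s t = r • b t - b t) ∧
      (∀ s t, (ν s t : A ⧸ D) = ν t s) ∧ (∀ m ∈ N, ∀ s t, (ν s (m • t) : A ⧸ D) = ν s t) ∧
      (∀ g, (∀ r ∈ R, g * r * g⁻¹ ∈ R) → c g ∈ AddSubgroup.closure (Set.range b) → ∀ ε : ℤ,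
        ε * ε = 1 → ∀ s t s' t', b s' - ε • g • b s ∈ S → b t' - ε • g • b t ∈ S →
        (ν s' t' : A ⧸ D) = (g • ν s t : A)) ∧
      ((∀ s t, ν s t ∈ D) → AddSubgroup.closure (Set.range b) ≤ fx R D) ∧
      ∀ r ∈ R, c r ∈ S → ∀ v ∈ AddSubgroup.closure (Set.range b), r • v - v ∈ D := by
  choose n n1 n2 using on
  have hb' : ∀ s, b s ∈ AddSubgroup.closure (Set.range b) := fun s =>
    AddSubgroup.subset_closure ⟨s, rfl⟩
  have k0 : ∀ r ∈ N, ∀ v w : A, v - w ∈ S → ((r • v - v : A) : A ⧸ D) = (r • w - w : A) :=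
    fun r hr v w h => QuotientAddGroup.eq_iff_sub_mem.2 (by
      convert mem_fx.1 (h2 h) r hr using 1
      rw [smul_sub]; abel)
  have k1 : ∀ r ∈ R, ∀ t, ((r • b t - b t : A) : A ⧸ D) = (n t • c r - c r : A) := fun r hr t => by
    rw [← k0 r (l hr) _ _ (n2 t)]
    refine QuotientAddGroup.eq_iff_sub_mem.2 ?_
    convert sy r hr _ (n1 t) using 1
    rw [hc, hc]; abel
  have k2 : ∀ r ∈ R, ∀ s t, c r - b s ∈ S →
      ((r • b t - b t : A) : A ⧸ D) = (n t • b s - b s : A) := fun r hr s t h =>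
    (k1 r hr t).trans (k0 _ (l (n1 t)) _ _ h)
  have k3 : ∀ r : G, (∀ t, r • b t - b t ∈ D) → ∀ v ∈ AddSubgroup.closure (Set.range b),
      r • v - v ∈ D := fun r h v hv => by
    induction hv using AddSubgroup.closure_induction with
    | mem _ h' => obtain ⟨t, rfl⟩ := h'; exact h t
    | zero => simp
    | add x y _ _ hx hy => convert add_mem hx hy using 1; rw [smul_add]; abel
    | neg x _ hx => convert neg_mem hx using 1; rw [smul_neg]; abel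
  refine ⟨fun s t => n s • b t - b t, fun s t => ⟨n s, n1 s, rfl⟩, fun s t => k2 _ (n1 s) s t (n2 s),
    fun m hm s t => k0 _ (l (n1 s)) _ _ (hb m hm t ▸ mem_fx.1 (h1 (hb' t)) m hm),
    fun g hg h ε he s t s' t' a1 a2 => ?_, fun h v hv => mem_fx.2 fun r hr => k3 r (fun t => ?_) v hv,
    fun r hr h => k3 r fun t => ?_⟩
  · have h4 := hg _ (n1 s)
    have k4 : ∀ r ∈ N, ∀ v w : A, v - ε • w ∈ S →
        ((r • v - v : A) : A ⧸ D) = ε • ((r • w - w : A) : A ⧸ D) := fun r hr v w h => by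
      rw [k0 r hr _ _ h, ← QuotientAddGroup.mk_zsmul, smul_sub, smul_comm r ε w]
    have h5 : g • b s - c (g * n s * g⁻¹) ∈ S := by
      convert sub_mem (mem_fx.1 (h1 h) _ (l h4)) (hS g _ (n2 s)) using 1
      rw [ccj hc, smul_sub]; abel
    rw [k2 _ (n1 _) _ _ (n2 _), k4 _ (l (n1 t')) _ _ a1, k0 _ (l (n1 t')) _ _ h5, ← k1 _ h4,
      k4 _ (l h4) _ _ a2, smul_smul, he, one_smul]
    simp [mul_smul, smul_sub]
  · exact (QuotientAddGroup.eq_zero_iff _).1 ((k1 r hr t).trans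
      ((QuotientAddGroup.eq_zero_iff _).2 (k3 _ (h t) _ (h3 r hr))))
  · exact (QuotientAddGroup.eq_zero_iff _).1 ((k1 r hr t).trans
      ((QuotientAddGroup.eq_zero_iff _).2 (mem_fx.1 (h2 h) _ (l (n1 t)))))

/-- the data of the twist -/
structure Tw (s : Su G X A q) where
  j : G
  M : Subgroup G
  o : X
  ψ : G → ZMod q
  ι : A → G
  z : G
  hj : j ∈ s.W
  nP : s.e.W.Normal
  dj : ∀ g, g ∈ s.e.W ∨ g * j ∈ s.e.W
  nM : M.Normal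
  lM : M ≤ s.e.W
  iM : M.relIndex s.e.W = q
  st : ∀ (y : X), ∀ p ∈ s.e.W, p • y = y → p ∈ M
  jo : j • o = o
  ψa : ∀ p ∈ s.e.W, ∀ p' ∈ s.e.W, ψ (p * p') = ψ p + ψ p'
  ψj : ∀ p ∈ s.e.W, ψ (j * p * j⁻¹) = -ψ p
  ψ0 : ∀ p ∈ s.e.W, ψ p = 0 ↔ p ∈ M
  ι1 : ∀ v, ι v ∈ s.e.W
  ι2 : ∀ v, s.e.c (ι v) = v
  z1 : z ∈ M
  z0 : z ≠ 1
  zq : z ^ q = 1
  zc : ∀ p ∈ s.e.W, p * z = z * p
  zj : j * z * j⁻¹ = z ∨ j * z * j⁻¹ = z⁻¹
  mn : ∀ N : Subgroup G, N.Normal → N ≤ M → (∀ n ∈ N, s.e.c n ∈ La A z) → N = ⊥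

theorem gind {P : Subgroup G} {j : G} (dj : ∀ g, g ∈ P ∨ g * j ∈ P) (hj : j⁻¹ = j) (Q : G → Prop)
    (h1 : ∀ p ∈ P, Q p) (h2 : Q j) (h3 : ∀ a b, Q a → Q b → Q (a * b)) (g : G) : Q g :=
  (dj g).elim (h1 g) fun h => by simpa [mul_assoc] using h3 _ _ (h1 _ h) (hj.symm ▸ h2 : Q j⁻¹)

theorem La_smul {P : Subgroup G} {j z : G} (dj : ∀ g, g ∈ P ∨ g * j ∈ P) (hj : j⁻¹ = j)
    (zc : ∀ p ∈ P, p * z = z * p) (zj : j * z * j⁻¹ = z ∨ j * z * j⁻¹ = z⁻¹) (g : G) :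
    ∀ v ∈ La A z, g • v ∈ La A z := by
  refine gind dj hj (fun g => ∀ v ∈ La A z, g • v ∈ La A z) ?_ ?_
    (fun a b ha hb v hv => mul_smul a b v ▸ ha _ (hb v hv)) g
  · rintro p hp _ ⟨w, rfl⟩
    exact mem_La.2 ⟨p • w, by simp [smul_sub, smul_smul, zc p hp]⟩
  · rintro _ ⟨w, rfl⟩
    have : j • z • w = (j * z * j⁻¹) • j • w := by simp [mul_smul]
    rcases zj with h | h
    · exact mem_La.2 ⟨j • w, by simp [smul_sub, this, h]⟩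
    · exact mem_La.2 ⟨-(z⁻¹ • j • w), by simp [this, h, sub_eq_neg_add, add_comm]⟩

theorem two0 [Fact q.Prime] (h5 : 5 ≤ q) {x : ZMod q} (h : x = -x) : x = 0 := by
  have h2 : ((2 : ℕ) : ZMod q) ≠ 0 := fun e =>
    absurd (Nat.le_of_dvd two_pos ((ZMod.natCast_eq_zero_iff 2 q).1 e)) (by omega)
  exact (mul_eq_zero.1 (by push_cast; linear_combination h : ((2 : ℕ) : ZMod q) * x = 0)).resolve_left
    h2

namespace Tw

variable {s : Su G X A q} (t : Tw s)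

theorem ji : t.j⁻¹ = t.j := s.winv t.hj

theorem cj : s.e.c t.j = 0 := (s.hW _).1 t.hj

theorem cjj (p : G) : s.e.c (t.j * p * t.j⁻¹) = t.j • s.e.c p := by simp [ccj s.e.hc, t.cj]

theorem ιc {p : G} (hp : p ∈ s.e.W) : t.ι (s.e.c p) = p := s.inj (t.ι1 _) hp (t.ι2 _)

theorem zP : t.z ∈ s.e.W := t.lM t.z1

theorem hL (g : G) : ∀ v ∈ La A t.z, g • v ∈ La A t.z := La_smul t.dj t.ji t.zc t.zj g

theorem nZ : (Subgroup.zpowers t.z).Normal := ⟨by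
  rintro _ ⟨k, rfl⟩ g
  rw [← conj_zpow]
  refine zpow_mem (gind t.dj t.ji (fun g => g * t.z * g⁻¹ = t.z ∨ g * t.z * g⁻¹ = t.z⁻¹)
    (fun p hp => Or.inl (by simp [t.zc p hp])) t.zj (fun a b ha hb => ?_) g |>.elim
      (fun h => h.symm ▸ Subgroup.mem_zpowers _) fun h => h.symm ▸ inv_mem (Subgroup.mem_zpowers _)) k
  have e : a * b * t.z * (a * b)⁻¹ = a * (b * t.z * b⁻¹) * a⁻¹ := by group
  have e' : a * t.z⁻¹ * a⁻¹ = (a * t.z * a⁻¹)⁻¹ := by group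
  rw [e]
  rcases hb with h | h <;> rcases ha with k | k <;> simp [h, k, e']⟩

/-- the stabiliser of a line -/
def D (y : X) : Subgroup G := DD _ t.nZ y

/-- the kernel on the lines -/
def T : Subgroup G := s.e.W ⊓ KK X _ t.nZ

theorem nT : t.T.Normal :=
  have := t.nP
  have := KK_normal (X := X) _ t.nZ
  inferInstanceAs (s.e.W ⊓ _).Normal

theorem mT {g : G} : g ∈ t.T ↔ g ∈ s.e.W ∧ ∀ y, g ∈ t.D y := and_congr_right' mem_KK

theorem lZ : Subgroup.zpowers t.z ≤ t.T :=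
  le_inf (Subgroup.zpowers_le.2 t.zP) (W.le_KK _)

theorem TM : t.T ≤ t.M := fun g hg => by
  obtain ⟨k, hk, e⟩ := (t.mT.1 hg).2 t.o
  have h1 := Subgroup.zpowers_le.2 t.z1 hk
  simpa using mul_mem h1 (t.st t.o (k⁻¹ * g) (mul_mem (inv_mem (t.lM h1)) hg.1)
    (by rw [mul_smul, e, inv_smul_smul]))

theorem ψ1 : t.ψ 1 = 0 := (t.ψ0 1 (one_mem _)).2 (one_mem _)

theorem ψi {p : G} (hp : p ∈ s.e.W) : t.ψ p⁻¹ = -t.ψ p := by
  have := t.ψa p hp _ (inv_mem hp)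
  rw [mul_inv_cancel, t.ψ1] at this
  exact eq_neg_of_add_eq_zero_right this.symm

theorem ψp {p : G} (hp : p ∈ s.e.W) (k : ℕ) : t.ψ (p ^ k) = k * t.ψ p := by
  induction k with
  | zero => simp [t.ψ1]
  | succ k ih => rw [pow_succ, t.ψa _ (pow_mem hp k) _ hp, ih]; push_cast; ring

theorem ψs {h : G} (hh : h ∈ s.e.W) (h0 : h ∉ t.M) (a : ZMod q) : ∃ k : ℕ, t.ψ (h ^ k) = a := by
  have := Fact.mk s.hq
  refine ⟨(a * (t.ψ h)⁻¹).val, ?_⟩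
  rw [t.ψp hh, ZMod.natCast_zmod_val, inv_mul_cancel_right₀ (mt (t.ψ0 h hh).1 h0)]

theorem gM {h : G} (hh : h ∈ s.e.W) (h0 : h ∉ t.M) {p : G} (hp : p ∈ s.e.W) :
    ∃ k : ℕ, (h ^ k)⁻¹ * p ∈ t.M := by
  obtain ⟨k, e⟩ := t.ψs hh h0 (t.ψ p)
  have h1 := inv_mem (pow_mem hh k)
  exact ⟨k, (t.ψ0 _ (mul_mem h1 hp)).1 (by rw [t.ψa _ h1 _ hp, t.ψi (pow_mem hh k), e]; ring)⟩

theorem exP : ∃ h ∈ s.e.W, h ∉ t.M := by
  by_contra! h
  exact s.hq.one_lt.ne ((Subgroup.relIndex_eq_one.2 h).symm.trans t.iM)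

theorem tL : ⊤ ≤ fx t.T (La A t.z) := s.e.hg ▸ clo_fx fun u hu x => by
  obtain ⟨k, hk, e⟩ := (t.mT.1 hu).2 x
  rw [← s.e.hb, e, s.e.hb]
  exact Subgroup.zpowers_le.2 (show t.z ∈ sc _ t.hL (s.e.b x) from ⟨_, rfl⟩) hk

theorem LT {g : G} (h : g ∈ t.T) (h' : s.e.c g ∈ La A t.z) : g = 1 := by
  have := t.mn (t.T ⊓ Z.cz s.e.hc _ t.hL) ⟨fun n hn g => ⟨t.nT.conj_mem n hn.1 g, by
    show s.e.c _ ∈ La A t.z
    rw [ccj s.e.hc]
    exact sub_mem (t.hL _ _ hn.2) (mem_fx.1 (t.tL trivial) _ (t.nT.conj_mem n hn.1 g))⟩⟩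
    (inf_le_left.trans t.TM) fun n hn => hn.2
  exact Subgroup.mem_bot.1 (this ▸ ⟨h, h'⟩)

variable [Finite G] [FaithfulSMul G X]

theorem zf {k : G} (hk : k ∈ Subgroup.zpowers t.z) {y : X} (h : k • y = y) : k = 1 :=
  eq_of_smul_eq_smul (α := X) fun x => by
    obtain ⟨p, hp, rfl⟩ := s.tr y x
    obtain ⟨i, rfl⟩ := hk
    rw [one_smul, ← mul_smul, ← ((show Commute p t.z from t.zc p hp).zpow_right i).eq, mul_smul, h]

theorem iD (y : X) : (t.D y).relIndex t.M = q := by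
  have := s.pre
  have := Fact.mk s.hq
  have h := fac t.nZ t.nM (Subgroup.zpowers_le.2 t.z1) y
  have b1 : DD (⊥ : Subgroup G) inferInstance y = stabilizer G y :=
    le_antisymm (fun g ⟨k, hk, e⟩ => by simpa [show k = 1 from hk] using e) (st_le _ _ y)
  have h1 : (stabilizer G y).relIndex (DD _ t.nZ y) = q := by
    rw [← b1, rel_eq, b1, ← Subgroup.inf_relIndex_right, show stabilizer G y ⊓ _ = ⊥ from
      eq_bot_iff.2 fun k hk => t.zf hk.2 hk.1, Subgroup.relIndex_bot_left, Nat.card_zpowers,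
      orderOf_eq_prime t.zq t.z0]
  have h2 : (DD t.M t.nM y).index = q := by
    have : DD s.e.W t.nP y = ⊤ := eq_top_iff.2 fun g _ =>
      let ⟨p, hp, e⟩ := s.tr y (g • y); ⟨p, hp, e.symm⟩
    rw [← Subgroup.relIndex_top_right, ← this, rel_eq, ← Subgroup.inf_relIndex_right]
    refine Eq.trans (congrArg (Subgroup.relIndex · s.e.W) ?_) t.iM
    refine le_antisymm (fun g ⟨⟨m, hm, e⟩, hg⟩ => ?_) (le_inf (le_DD _ _ y) t.lM)
    simpa using mul_mem hm (t.st y (m⁻¹ * g) (mul_mem (inv_mem (t.lM hm)) hg)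
      (by rw [mul_smul, e, inv_smul_smul]))
  rw [h1, h2, s.hX, show q ^ 3 = q * q * q by ring] at h
  exact (Nat.eq_of_mul_eq_mul_left s.hq.pos (Nat.eq_of_mul_eq_mul_right s.hq.pos h)).symm

theorem pM : IsPGroup q t.M := s.pP.to_le t.lM

theorem cD (y : X) : ∀ a ∈ t.M, ∀ b ∈ t.M, a * b * a⁻¹ * b⁻¹ ∈ t.D y :=
  (qidx s.hq t.pM (t.iD y)).1

theorem cT {a b : G} (ha : a ∈ t.M) (hb : b ∈ t.M) : a * b * a⁻¹ * b⁻¹ ∈ t.T :=
  t.mT.2 ⟨t.lM (mul_mem (mul_mem (mul_mem ha hb) (inv_mem ha)) (inv_mem hb)),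
    fun y => t.cD y a ha b hb⟩

theorem cl {b : X → A} (hb : ∀ g ∈ s.e.W, ∀ x, b (g • x) = g • b x) {L D S : AddSubgroup A}
    (eL : AddSubgroup.closure (Set.range b) = L) (hL : ∀ (g : G), ∀ v ∈ L, g • v ∈ L)
    (hD : ∀ (g : G), ∀ v ∈ D, g • v ∈ D) (hS : ∀ (g : G), ∀ v ∈ S, g • v ∈ S) (l1 : D ≤ S)
    (l2 : S ≤ L) (n1 : ¬L ≤ fx t.M D) (f1 : L ≤ fx t.M S) (f2 : S ≤ fx s.e.W D)
    (f3 : L ≤ fx t.T D) (cT : ∀ g ∈ t.T, s.e.c g ∈ L → s.e.c g ∈ D)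
    (on : ∀ x, ∃ n ∈ t.M, s.e.c n ∈ L ∧ s.e.c n - b x ∈ S)
    (hH : ∃ h ∈ s.e.W, s.e.c h ∈ L ∧ h ∉ t.M) {ε : ℤ} (he : ε * ε = 1)
    (bj : ∀ x, b (t.j • x) - ε • t.j • b x ∈ S) : False := by
  have := Fact.mk s.hq
  subst eL
  have bL : ∀ x, b x ∈ AddSubgroup.closure (Set.range b) := fun x =>
    AddSubgroup.subset_closure ⟨x, rfl⟩
  let H := Z.cz s.e.hc _ hL
  obtain ⟨ν, m1, m2, m3, m4, m5, m6⟩ := mu2 s.e.hc (N := t.M) (R := t.M ⊓ H)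
    (fun g hg => hb g (t.lM hg)) inf_le_left hS f1
    (f2.trans (fx_mono t.lM le_rfl)) (fun r hr => hr.2) (fun r hr r' hr' => by
      have h1 := cT _ (t.cT (inv_mem hr.1) (inv_mem hr'.1))
        (H.mul_mem (H.mul_mem (H.mul_mem (inv_mem hr.2) (inv_mem hr'.2)) (inv_mem (inv_mem hr.2)))
          (inv_mem (inv_mem hr'.2)))
      have h2 := hD (r' * r) _ h1
      rwa [show r⁻¹ * r'⁻¹ * r⁻¹⁻¹ * r'⁻¹⁻¹ = (r' * r)⁻¹ * (r * r') by group, c_div,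
        smul_inv_smul] at h2) fun x => let ⟨n, h1, h2, h3⟩ := on x; ⟨n, ⟨h1, h2⟩, h3⟩
  have kr : ∀ y, t.M ⊓ sc D hD (b y) ≤ t.D y := fun y =>
    (pr1 (F := t.M ⊓ sc D hD (b y)) s.hq (t.iD y) (fun m ⟨⟨k, hk, e⟩, hm⟩ => ⟨hm, by
      show m • b y - b y ∈ D
      rw [← hb _ (t.lM hm), e, hb _ (t.lZ hk).1]
      exact mem_fx.1 (f3 (bL y)) k (t.lZ hk)⟩) inf_le_left).resolve_right fun h =>
      n1 (clo_fx fun u hu x => by
        obtain ⟨p, hp, rfl⟩ := s.tr y x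
        simpa [hb p hp, smul_sub, mul_smul] using hD p _ (h (t.nM.conj_mem' u hu p)).2)
  have k1 : ∀ r ∈ t.M, r ∈ H → (∀ x, r • b x - b x ∈ D) → s.e.c r ∈ D := fun r h1 h2 h =>
    cT r (t.mT.2 ⟨t.lM h1, fun y => kr y ⟨h1, h y⟩⟩) h2
  have k2 : ∀ r ∈ t.M, s.e.c r ∈ S → s.e.c r ∈ D := fun r h1 h =>
    k1 r h1 (l2 h) fun x => m6 r ⟨h1, l2 h⟩ h _ (bL x)
  obtain ⟨x, y, n0⟩ : ∃ x y, ν x y ∉ D := by
    by_contra! h
    refine n1 (((AddSubgroup.closure_le S).2 (Set.range_subset_iff.2 fun x => ?_)).trans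
      (f2.trans (fx_mono t.lM le_rfl)))
    obtain ⟨n, h1, h2, h3⟩ := on x
    simpa using sub_mem (l1 (k1 n h1 h2 fun x => mem_fx.1 (m5 h (bL x)) n ⟨h1, h2⟩)) h3
  have νS : ∀ x y, ν x y ∈ S := fun x y => by
    obtain ⟨r, hr, e⟩ := m1 x y
    exact e ▸ mem_fx.1 (f1 (bL y)) r hr.1
  obtain ⟨h, h1, h2, h3⟩ := hH
  obtain ⟨g1, a1, rfl⟩ := s.tr t.o x
  obtain ⟨g2, a2, rfl⟩ := s.tr t.o y
  obtain ⟨k, hk⟩ := t.ψs h1 h3 (-t.ψ g1 - t.ψ g2)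
  have a3 := pow_mem h1 k
  have sw : ∀ g ∈ s.e.W, ∀ g' ∈ s.e.W, t.ψ (h ^ k) = -t.ψ g - t.ψ g' →
      ∃ m ∈ t.M, t.j • g • t.o = m • h ^ k • g' • t.o := fun g hg g' hg' e => by
    have b1 := t.nP.conj_mem g hg t.j
    have b2 := mul_mem a3 hg'
    refine ⟨t.j * g * t.j⁻¹ * (h ^ k * g')⁻¹, (t.ψ0 _ (mul_mem b1 (inv_mem b2))).1 ?_, ?_⟩
    · rw [t.ψa _ b1 _ (inv_mem b2), t.ψi b2, t.ψa _ a3 _ hg', t.ψj _ hg, e]; ring
    · simp [mul_smul, t.ji, t.jo]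
  obtain ⟨m, hm, e1⟩ := sw g1 a1 g2 a2 hk
  obtain ⟨m', hm', e2⟩ := sw g2 a2 g1 a1 (by rw [hk]; ring)
  have jH : t.j ∈ H := by
    show s.e.c t.j ∈ AddSubgroup.closure (Set.range b)
    rw [t.cj]; exact zero_mem _
  have nr : ∀ g ∈ H, ∀ r ∈ t.M ⊓ H, g * r * g⁻¹ ∈ t.M ⊓ H := fun g hg r hr =>
    ⟨t.nM.conj_mem r hr.1 g, H.mul_mem (H.mul_mem hg hr.2) (inv_mem hg)⟩
  have e3 := m4 t.j (nr _ jH) jH ε he (g1 • t.o) (g2 • t.o) _ _ (bj _) (bj _)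
  rw [e1, e2, m3 _ hm', m2, m3 _ hm, m4 _ (nr _ (H.pow_mem h2 k)) (H.pow_mem h2 k)
      1 rfl (g1 • t.o) (g2 • t.o) _ _ (by simp [hb _ a3]) (by simp [hb _ a3]),
    QuotientAddGroup.eq_iff_sub_mem.2 (mem_fx.1 (f2 (νS _ _)) _ a3)] at e3
  have vS := νS (g1 • t.o) (g2 • t.o)
  generalize ν (g1 • t.o) (g2 • t.o) = v at e3 n0 vS
  obtain ⟨l, hl, rfl⟩ := s.e.hs v
  have l0 : l ∉ t.M := fun e => n0 (k2 l e vS)
  have b1 := t.nP.conj_mem l hl t.j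
  have b2 := mul_mem (inv_mem hl) b1
  have b3 : l⁻¹ * (t.j * l * t.j⁻¹) ∈ Z.cz s.e.hc D hD := by
    show s.e.c _ ∈ D
    rw [c_div, t.cjj]
    exact hD _ _ (QuotientAddGroup.eq_iff_sub_mem.1 e3.symm)
  obtain ⟨i, hi⟩ := t.gM b2 (fun e => l0 ((t.ψ0 l hl).1 (two0 s.h5 (by
    have := (t.ψ0 _ b2).2 e
    rw [t.ψa _ (inv_mem hl) _ b1, t.ψi hl, t.ψj l hl] at this
    linear_combination -this)))) hl
  have b4 := pow_mem b3 i
  have b5 : _ ∈ Z.cz s.e.hc D hD := k2 _ hi ((Z.cz s.e.hc S hS).mul_mem (inv_mem (l1 b4)) vS)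
  exact n0 (show l ∈ Z.cz s.e.hc D hD by simpa using mul_mem b4 b5)

end Tw

end Pool.Agent.P.MP_6d14ae_al.B
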