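import Pool.Agent.P.MP_6d14ae_al.B.Ta

/-! Prime cubes: the twist, reduction to the main line. -/

set_option autoImplicit false
set_option linter.unusedSectionVars false
set_option linter.dupNamespace false

namespace Pool.Agent.P.MP_6d14ae_al.B

open MulAction T V
open S hiding Dat Lay c_one c_div facN ext_b triK next chi chi_one

variable {G X A : Type} [Group G] [MulAction G X] [AddCommGroup A] [DistribMulAction G A] {q : ℕ}

namespace Tw

variable {s : Su G X A q} (t : Tw s)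

/-- the top homomorphism read on the additive group -/
def pb (v : A) : ZMod q := t.ψ (t.ι v)

theorem pc {p : G} (hp : p ∈ s.e.W) : t.pb (s.e.c p) = t.ψ p := by rw [pb, t.ιc hp]

theorem pa (v w : A) : t.pb (v + w) = t.pb v + t.pb ((t.ι v)⁻¹ • w) := by
  have := t.pc (mul_mem (t.ι1 v) (t.ι1 ((t.ι v)⁻¹ • w)))
  rwa [s.e.hc, t.ι2, t.ι2, smul_inv_smul, t.ψa _ (t.ι1 _) _ (t.ι1 _)] at this

theorem pj (v : A) : t.pb (t.j • v) = -t.pb v := by
  have := t.pc (t.nP.conj_mem _ (t.ι1 v) t.j)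
  rwa [t.cjj, t.ι2, t.ψj _ (t.ι1 v)] at this

theorem p0 : t.pb 0 = 0 := by
  have := t.pc (one_mem _)
  rwa [c_one, t.ψ1] at this

/-- the largest submodule inside the kernel -/
def B : AddSubgroup A where
  carrier := {v | ∀ g ∈ s.e.W, t.pb (g • v) = 0}
  zero_mem' := fun g _ => by rw [smul_zero, t.p0]
  add_mem' := fun {v w} hv hw g hg => by
    rw [smul_add, t.pa, hv g hg, smul_smul, hw _ (mul_mem (inv_mem (t.ι1 _)) hg), add_zero]
  neg_mem' := fun {v} hv g hg => by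
    have := t.pa (g • -v) (g • v)
    rwa [← smul_add, neg_add_cancel, smul_zero, t.p0, smul_smul,
      hv _ (mul_mem (inv_mem (t.ι1 _)) hg), add_zero, eq_comm] at this

theorem hB (g : G) : ∀ v ∈ t.B, g • v ∈ t.B :=
  gind t.dj t.ji (fun g => ∀ v ∈ t.B, g • v ∈ t.B)
    (fun p hp v hv g hg => by rw [smul_smul]; exact hv _ (mul_mem hg hp))
    (fun v hv g hg => by
      have := t.pj ((t.j⁻¹ * g * t.j) • v)
      rw [hv _ (t.nP.conj_mem' g hg _), neg_zero] at this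
      simpa [mul_smul] using this)
    (fun a b ha hb v hv => mul_smul a b v ▸ ha _ (hb v hv)) g

theorem pB (v : A) {w : A} (hw : w ∈ t.B) : t.pb (v + w) = t.pb v := by
  rw [t.pa, hw _ (inv_mem (t.ι1 _)), add_zero]

theorem cB {N : Subgroup G} (hN : N.Normal) (l : N ≤ t.M) (h : ⊤ ≤ fx N t.B) :
    ∀ n ∈ N, s.e.c n ∈ t.B := fun n hn g hg => by
  have h1 := hN.conj_mem n hn g
  have := t.pB (s.e.c (g * n * g⁻¹)) (mem_fx.1 (h (AddSubgroup.mem_top (s.e.c g))) _ h1)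
  rwa [t.pc (t.lM (l h1)), (t.ψ0 _ (t.lM (l h1))).2 (l h1), ccj s.e.hc, sub_add_cancel] at this

variable [Finite G] [FaithfulSMul G X]

theorem exL : ∃ h ∈ s.e.W, s.e.c h ∈ La A t.z ∧ h ∉ t.M := by
  have := s.fin
  by_contra! h
  have lB : La A t.z ≤ t.B := fun v hv g _ =>
    (t.ψ0 _ (t.ι1 _)).2 (h _ (t.ι1 _) ((t.ι2 _).symm ▸ t.hL g v hv))
  have f1 := t.tL.trans (fx_mono le_rfl lB)
  obtain ⟨p, hp, p0⟩ := t.exP
  obtain ⟨D, S, l0, l1, -, hD, hS, n1, f2, f3⟩ := ds (N := t.M) s.hq s.hC t.hB (L := ⊤)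
    (fun _ _ _ => trivial) le_top fun k => by
      have := s.gen t.o t.B (fun p _ => t.hB p) fun p hp e => t.cB t.nM le_rfl k p (t.st _ p hp e)
      have h1 : s.e.c p ∈ t.B := this ▸ trivial
      exact p0 ((t.ψ0 p hp).1 (by simpa [t.pc hp] using h1 1 (one_mem _)))
  have f4 : ∀ r ∈ t.M, ∀ v, r • v - v ∈ S := fun r hr v => mem_fx.1 (f2 trivial) r hr
  have h1 := s.gen t.o (im s.e.hc t.M S fun r hr _ _ => f4 r hr _)
    (fun p _ => im_smul (hS p) (fun r hr => t.nM.conj_mem r hr p) fun r hr => f4 r hr _)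
    fun p hp e => ⟨p, t.st _ p hp e, by simp⟩
  refine t.cl (fun g _ => s.e.hb g) s.e.hg (fun _ _ _ => trivial) hD hS l1 le_top n1 f2 (f3 _ t.nP s.pP)
    (f1.trans (fx_mono le_rfl l0)) (fun g hg _ => l0 (t.cB t.nT t.TM f1 g hg)) (fun x => ?_)
    ⟨p, hp, trivial, p0⟩ (ε := 1) rfl fun x => by simp [s.e.hb]
  obtain ⟨n, h2, h3⟩ : s.e.b x ∈ im s.e.hc t.M S fun r hr _ _ => f4 r hr _ := h1 ▸ trivial
  exact ⟨n, h2, trivial, h3⟩

/-- the generators of the image of `z - 1` -/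
def la (x : X) : A := t.z • s.e.b x - s.e.b x

theorem la_smul {p : G} (hp : p ∈ s.e.W) (x : X) : t.la (p • x) = p • t.la x := by
  simp [la, s.e.hb, smul_sub, smul_smul, t.zc p hp]

theorem la_mem (x : X) : t.la x ∈ La A t.z := ⟨_, rfl⟩

theorem la_clo : AddSubgroup.closure (Set.range t.la) = La A t.z := by
  rw [La, AddMonoidHom.range_eq_map, ← s.e.hg, AddMonoidHom.map_closure, ← Set.range_comp]; rfl

theorem main : ∃ Y : AddSubgroup A, Y < La A t.z ∧ (∀ p ∈ s.e.W, ∀ v ∈ Y, p • v ∈ Y) ∧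
    La A t.z ≤ fx s.e.W Y ∧ ∀ e ∈ t.M, s.e.c e ∈ La A t.z → s.e.c e ∈ Y := by
  have := s.fin
  have := Fact.mk s.hq
  by_contra no
  let H := Z.cz s.e.hc _ t.hL
  obtain ⟨h, h1, h2, h3⟩ := t.exL
  have nE : ∀ g ∈ H, ∀ r ∈ t.M ⊓ H, g * r * g⁻¹ ∈ t.M ⊓ H := fun g hg r hr =>
    ⟨t.nM.conj_mem r hr.1 g, H.mul_mem (H.mul_mem hg hr.2) (inv_mem hg)⟩
  have key : ∀ S : AddSubgroup A, (∀ (g : G), ∀ v ∈ S, g • v ∈ S) → S ≤ La A t.z →
      La A t.z ≤ fx t.M S → ∀ v ∈ La A t.z, ∃ n ∈ t.M ⊓ H, s.e.c n - v ∈ S := fun S hS l f => by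
    have f1 : ∀ r ∈ t.M, ∀ v ∈ La A t.z, r • v - v ∈ S := fun r hr v hv => mem_fx.1 (f hv) r hr
    let Y := im s.e.hc (t.M ⊓ H) S fun r hr r' hr' => f1 r hr.1 _ hr'.2
    have l1 : Y ≤ La A t.z := fun v ⟨n, a1, a2⟩ => by
      simpa using sub_mem (show s.e.c n ∈ La A t.z from a1.2) (l a2)
    by_contra k
    obtain ⟨Y', a1, a2, a3, a4⟩ := maxs s.hq s.hC s.pP (Y := Y) (fun p hp v hv => by
      obtain ⟨i, hi⟩ := t.gM h1 h3 hp
      have b1 : ((h ^ i)⁻¹ * p) • v ∈ Y := by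
        obtain ⟨n, b1, b2⟩ := id hv
        exact ⟨n, b1, by simpa using sub_mem b2 (f1 _ hi v (l1 hv))⟩
      simpa [smul_smul] using im_smul (hS (h ^ i)) (nE _ (H.pow_mem h2 i))
        (fun r hr => f1 r hr.1 _ (H.pow_mem h2 i)) _ b1) (fun p _ => t.hL p) ⟨l1, k⟩
    exact no ⟨Y', a2, a3, a4, fun e b1 b2 => a1 ⟨e, ⟨b1, b2⟩, by simp⟩⟩
  obtain ⟨D, S, -, l1, l2, hD, hS, n1, f2, f3⟩ := ds (N := t.M) s.hq s.hC (B := ⊥)
    (fun g v hv => by simp_all) t.hL bot_le fun k => by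
      obtain ⟨n, a1, a2⟩ := key ⊥ (fun g v hv => by simp_all) bot_le k _ h2
      exact h3 (s.inj (t.lM a1.1) h1 (sub_eq_zero.1 a2) ▸ a1.1)
  have on := fun x => key S hS l2 f2 _ (t.la_mem x)
  have f4 := f3 _ t.nP s.pP
  by_cases f5 : La A t.z ≤ fx t.T D
  · have e1 : ∀ x, t.la (t.j • x) = t.j • ((t.j⁻¹ * t.z * t.j) • s.e.b x - s.e.b x) := fun x => by
      simp [la, s.e.hb, smul_sub, mul_smul]
    have e2 := t.zj
    rw [← congrArg (· * t.z * t.j⁻¹) t.ji, congrArg (t.j⁻¹ * t.z * ·) t.ji] at e2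
    have cl := fun ε : ℤ => t.cl (fun _ => t.la_smul) t.la_clo t.hL hD hS l1 l2 n1 f2 f4 f5
      (fun g a1 a2 => by rw [t.LT a1 a2, c_one]; exact zero_mem _)
      (fun x => let ⟨n, a1, a2⟩ := on x; ⟨n, a1.1, a1.2, a2⟩) ⟨h, h1, h2, h3⟩ (ε := ε)
    rcases e2 with e2 | e2
    · exact cl 1 rfl fun x => by rw [e1, e2]; simp [la]
    · refine cl (-1) rfl fun x => ?_
      convert hS t.j _ (neg_mem (mem_fx.1 (f2 (t.la_mem x)) _ (inv_mem t.z1))) using 1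
      rw [e1, e2]
      simp only [la, smul_sub, inv_smul_smul, neg_smul, one_smul, smul_neg]
      abel
  have z1 : ∀ y, t.z ∉ sc D hD (t.la y) := fun y k => f5 (t.la_clo ▸ clo_fx fun u hu x => by
    obtain ⟨n, hn, e⟩ := (t.mT.1 hu).2 x
    obtain ⟨p, hp, rfl⟩ := s.tr y x
    rw [← t.la_smul hu.1, e, t.la_smul (t.lZ hn).1]
    refine Subgroup.zpowers_le.2 (show t.z ∈ sc D hD (t.la (p • y)) from ?_) hn
    have := hD p _ k
    rwa [smul_sub, smul_smul, t.zc p hp, mul_smul, ← t.la_smul hp] at this)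
  have ab : ∀ a ∈ t.M, ∀ b ∈ t.M, a * b * a⁻¹ * b⁻¹ = 1 := fun a ha b hb =>
    eq_of_smul_eq_smul (α := X) fun y => by
      obtain ⟨n, hn, e⟩ := t.cD y a ha b hb
      have a1 : ∀ a ∈ t.M, ∀ b ∈ t.M, (((a * b) • t.la y - t.la y : A) : A ⧸ D) =
          (a • t.la y - t.la y : A) + (b • t.la y - t.la y : A) := fun a ha b hb => by
        rw [← QuotientAddGroup.mk_add, QuotientAddGroup.eq_iff_sub_mem]
        convert mem_fx.1 (f4 (mem_fx.1 (f2 (t.la_mem y)) b hb)) a (t.lM ha) using 1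
        rw [mul_smul, smul_sub]; abel
      have a2 : n ∈ sc D hD (t.la y) := by
        have b1 := a1 _ (t.TM (t.cT ha hb)) _ (mul_mem hb ha)
        rw [show a * b * a⁻¹ * b⁻¹ * (b * a) = a * b by group, a1 a ha b hb, a1 b hb a ha,
          add_comm, right_eq_add, ← t.la_smul (t.cT ha hb).1, e, t.la_smul (t.lZ hn).1] at b1
        exact (QuotientAddGroup.eq_zero_iff _).1 b1
      rw [e]
      congr 1
      by_contra k
      have b2 : Nat.card (Subgroup.zpowers t.z) = q := by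
        rw [Nat.card_zpowers, orderOf_eq_prime t.zq t.z0]
      obtain ⟨i, hi⟩ := mem_zpowers_of_prime_card b2 (g := ⟨n, hn⟩)
        (g' := ⟨_, Subgroup.mem_zpowers _⟩) fun e => k (congrArg Subtype.val e)
      exact z1 y ((show n ^ i = t.z from congrArg Subtype.val hi) ▸ zpow_mem a2 i)
  have e0 := t.mn (t.M ⊓ H) ⟨fun r hr g => gind t.dj t.ji
    (fun g => ∀ r ∈ t.M ⊓ H, g * r * g⁻¹ ∈ t.M ⊓ H) (fun p hp r hr => by
      obtain ⟨i, hi⟩ := t.gM h1 h3 hp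
      have := nE _ (H.pow_mem h2 i) r hr
      rwa [← mul_inv_eq_one.1 (ab _ hi r hr.1), show h ^ i * ((h ^ i)⁻¹ * p * r * ((h ^ i)⁻¹ * p)⁻¹) *
        (h ^ i)⁻¹ = p * r * p⁻¹ by group] at this)
    (nE _ (show s.e.c t.j ∈ La A t.z by rw [t.cj]; exact zero_mem _))
    (fun a b ha hb r hr => by simpa [mul_assoc] using ha _ (hb r hr)) g r hr⟩ inf_le_left
    fun n hn => hn.2
  refine n1 ((t.la_clo ▸ (AddSubgroup.closure_le S).2 (Set.range_subset_iff.2 fun x => ?_) :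
    La A t.z ≤ S).trans (f4.trans (fx_mono t.lM le_rfl)))
  obtain ⟨n, a1, a2⟩ := on x
  rw [e0, Subgroup.mem_bot] at a1
  simpa [a1, c_one] using a2

end Tw

end Pool.Agent.P.MP_6d14ae_al.B
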