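import Pool.Agent.P.MP_6d14ae_al.B.Tb

/-! Prime cubes: the twist, the symmetric function of the main line. -/

set_option autoImplicit false
set_option linter.unusedSectionVars false
set_option linter.dupNamespace false

namespace Pool.Agent.P.MP_6d14ae_al.B

open MulAction T V
open S hiding Dat Lay c_one c_div facN ext_b triK next chi chi_one

variable {G X A : Type} [Group G] [MulAction G X] [AddCommGroup A] [DistribMulAction G A] {q : ℕ}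

namespace Tw

variable {s : Su G X A q} (t : Tw s)

/-- the third coordinate -/
def F (x : X) : ZMod q := t.pb (s.e.b x)

/-- the left multiplications -/
def τ (x : X) : G := (t.ι (s.e.b x))⁻¹

/-- the symmetric function -/
def μ (x y : X) : ZMod q := t.pb (s.e.b x + s.e.b y) - t.F x - t.F y

/-- the preimage of the image of `z - 1` -/
def L : Subgroup G := s.e.W ⊓ Z.cz s.e.hc _ t.hL

theorem τP (x : X) : t.τ x ∈ s.e.W := inv_mem (t.ι1 _)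

theorem ψτ (x : X) : t.ψ (t.τ x) = -t.F x := t.ψi (t.ι1 _)

theorem μτ (x y : X) : t.μ x y = t.F (t.τ x • y) - t.F y := by
  rw [μ, t.pa, F, F, F, s.e.hb, τ]; ring

theorem μs (x y : X) : t.μ x y = t.μ y x := by rw [μ, μ, add_comm]; ring

theorem Fj (x : X) : t.F (t.j • x) = -t.F x := by rw [F, s.e.hb, t.pj, F]

theorem μj (x y : X) : t.μ (t.j • x) (t.j • y) = -t.μ x y := by
  rw [μ, μ, t.Fj, t.Fj, s.e.hb, s.e.hb, ← smul_add, t.pj]; ring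

theorem jL {g : G} (h : g ∈ t.L) : t.j * g * t.j⁻¹ ∈ t.L :=
  ⟨t.nP.conj_mem g h.1 _, show s.e.c _ ∈ La A t.z from t.cjj g ▸ t.hL _ _ h.2⟩

variable [Finite G] [FaithfulSMul G X]

theorem μ0 (h : ∀ x y, t.μ x y = 0) {p : G} (hp : p ∈ s.e.W) (x : X) : t.F (p • x) = t.F x := by
  refine (Z.gen s.e (pow_pos s.hq.pos s.a) s.hC
    (fun v => ∀ p ∈ s.e.W, s.e.c p⁻¹ = v → ∀ x, t.F (p • x) = t.F x) (fun p hp e x => ?_)
    (fun v y ih p hp e x => ?_) _) p hp rfl x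
  · rw [inv_eq_one.1 (s.inj (inv_mem hp) (one_mem _) (e.trans (c_one _).symm)), one_smul]
  · have h1 := s.inj (inv_mem hp) (mul_mem (t.ι1 v) (t.ι1 (s.e.b ((t.ι v)⁻¹ • y))))
      (by rw [e, s.e.hc, t.ι2, t.ι2, s.e.hb, smul_inv_smul])
    rw [inv_eq_iff_eq_inv.1 h1, mul_inv_rev, mul_smul, ← ih _ (inv_mem (t.ι1 v))
      (by rw [inv_inv, t.ι2]) x]
    exact sub_eq_zero.1 ((t.μτ _ _).symm.trans (h _ _))

theorem dat : ∃ (Y : AddSubgroup A) (k : ZMod q), k ≠ 0 ∧ (∀ p ∈ s.e.W, ∀ v ∈ Y, p • v ∈ Y) ∧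
    La A t.z ≤ fx s.e.W Y ∧ (∀ e ∈ s.e.W, s.e.c e ∈ Y ↔ e ∈ t.M ⊓ t.L) ∧
    (∀ v x, t.pb (v + t.la x) = t.pb v + k) ∧ (∀ l ∈ t.L, ∀ v, t.pb (l • v) = t.pb v) ∧
    t.j * t.z * t.j⁻¹ = t.z⁻¹ := by
  have := Fact.mk s.hq
  obtain ⟨Y, l1, hY, f1, h1⟩ := t.main
  have YM : ∀ h ∈ s.e.W, s.e.c h ∈ Y → h ∈ t.M := fun h a1 a2 => by
    by_contra a3
    refine l1.not_ge fun v hv => ?_
    obtain ⟨i, hi⟩ := t.gM a1 a3 (t.ι1 v)
    have b1 : s.e.c (h ^ i) ∈ Y := by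
      clear hi
      induction i with
      | zero => rw [pow_zero, c_one]; exact zero_mem _
      | succ i ih => rw [pow_succ', s.e.hc]; exact add_mem a2 (hY h a1 _ ih)
    have b2 := hY _ (pow_mem a1 i) _ (h1 _ hi (by
      rw [c_div, t.ι2]; exact t.hL _ _ (sub_mem hv (l1.le b1))))
    rw [c_div, t.ι2, smul_inv_smul] at b2
    simpa using add_mem b2 b1
  have YB : Y ≤ t.B := fun v hv g hg =>
    (t.ψ0 _ (t.ι1 _)).2 (YM _ (t.ι1 _) ((t.ι2 _).symm ▸ hY g hg v hv))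
  have pg : ∀ g ∈ s.e.W, ∀ w ∈ La A t.z, t.pb (g • w) = t.pb w := fun g hg w hw => by
    simpa using t.pB w (YB (mem_fx.1 (f1 hw) g hg))
  have pd : ∀ v, ∀ w ∈ La A t.z, t.pb (v + w) = t.pb v + t.pb w := fun v w hw => by
    rw [t.pa, pg _ (inv_mem (t.ι1 v)) w hw]
  have pk : ∀ x, t.pb (t.la x) = t.pb (t.la t.o) := fun x => by
    obtain ⟨p, hp, rfl⟩ := s.tr t.o x
    rw [t.la_smul hp, pg p hp _ (t.la_mem _)]
  have k0 : t.pb (t.la t.o) ≠ 0 := fun e => by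
    obtain ⟨h, a1, a2, a3⟩ := t.exL
    refine a3 ((t.ψ0 h a1).1 ?_)
    rw [← t.pc a1]
    rw [← t.la_clo] at a2 pd
    generalize s.e.c h = v at a2
    induction a2 using AddSubgroup.closure_induction with
    | mem _ h' => obtain ⟨x, rfl⟩ := h'; rw [pk, e]
    | zero => exact t.p0
    | add x y _ hy a b => rw [pd x y hy, a, b, add_zero]
    | neg x hx a => simpa [a, t.p0] using (pd (-x) x hx).symm
  refine ⟨Y, _, k0, hY, f1, fun e he => ⟨fun h => ⟨YM e he h, he, l1.le h⟩,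
    fun h => h1 e h.1 h.2.2⟩, fun v x => by rw [pd v _ (t.la_mem x), pk], fun l hl v => ?_,
    t.zj.resolve_left fun e => k0 (two0 s.h5 ?_)⟩
  · have := t.pa (s.e.c l) (l • v)
    rw [t.ιc hl.1, inv_smul_smul, add_comm, pd _ _ hl.2, add_comm] at this
    exact add_left_cancel this
  · rw [← t.pj, la, smul_sub, ← s.e.hb, ← s.e.hb, ← s.e.hb, t.jo, smul_smul,
      mul_inv_eq_iff_eq_mul.1 e, mul_smul, t.jo]

theorem exl : ∃ l ∈ t.L, t.ψ l = 1 ∧ t.j * l * t.j⁻¹ = l⁻¹ := by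
  have := Fact.mk s.hq
  obtain ⟨h, a1, a2, a3⟩ := t.exL
  have b1 := t.jL ⟨a1, a2⟩
  have b2 : h * (t.j * h * t.j⁻¹)⁻¹ ∈ t.L := mul_mem ⟨a1, a2⟩ (inv_mem b1)
  obtain ⟨k, hk⟩ := t.ψs b2.1 (fun e => a3 ((t.ψ0 h a1).1 (two0 s.h5 (by
    have := (t.ψ0 _ b2.1).2 e
    rw [t.ψa _ a1 _ (inv_mem b1.1), t.ψi b1.1, t.ψj h a1] at this
    linear_combination this)))) 1
  refine ⟨_, pow_mem b2 k, hk, ?_⟩
  rw [← conj_pow, ← inv_pow]
  congr 1
  simp only [mul_inv_rev, inv_inv, t.ji, mul_assoc]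
  rw [s.W2 _ t.hj, mul_one]

theorem DM {e m : G} (he : e ∈ t.M) (hm : m ∈ t.M) {x : X} (h : e ∈ t.D x) : e ∈ t.D (m • x) := by
  simpa [mul_assoc] using mul_mem (t.cD (m • x) e he m hm) (DD_conj t.nZ m h)

/-- a second central direction inside `L` -/
theorem exy [Group.IsSolvable G] (h : ∃ e ∈ t.M ⊓ t.L, e ≠ 1) :
    ∃ y ∈ t.M ⊓ t.L, (∀ x, y ∉ t.D x) ∧ y ^ q = 1 ∧ (∀ p ∈ s.e.W, y⁻¹ * p * y * p⁻¹ ∈ t.T) ∧
      (∀ p ∈ t.L, Commute p y) ∧ (t.j * y * t.j⁻¹ = y ∨ t.j * y * t.j⁻¹ = y⁻¹) := by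
  have := t.nT
  obtain ⟨e, he, e0⟩ := h
  obtain ⟨h, a1, a2, a3⟩ := t.exL
  have LT : ∀ g ∈ t.T, g ∈ t.L → g = 1 := fun g a b => t.LT a b.2
  have cj : ∀ g, (∀ r ∈ t.M ⊓ t.L, g * r * g⁻¹ ∈ t.M ⊓ t.L ⊔ t.T) →
      ∀ r ∈ t.M ⊓ t.L ⊔ t.T, g * r * g⁻¹ ∈ t.M ⊓ t.L ⊔ t.T := fun g hg r hr => by
    obtain ⟨a, ha, b, hb, rfl⟩ := Subgroup.mem_sup_of_normal_right.1 hr
    simpa [mul_assoc] using mul_mem (hg a ha) (Subgroup.mem_sup_right (this.conj_mem b hb g))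
  obtain ⟨n, hn, n0, n1, n2, n3⟩ := eig s.hq (K := t.T) (N := t.M ⊓ t.L ⊔ t.T) this
    ⟨fun r hr g => gind t.dj t.ji
      (fun g => ∀ r ∈ t.M ⊓ t.L ⊔ t.T, g * r * g⁻¹ ∈ t.M ⊓ t.L ⊔ t.T) (fun p hp r hr => by
        obtain ⟨i, hi⟩ := t.gM a1 a3 hp
        have b1 : h ^ i ∈ t.L := pow_mem (show h ∈ t.L from ⟨a1, a2⟩) i
        simpa [mul_assoc] using cj (h ^ i) (fun r hr => Subgroup.mem_sup_left
          ⟨t.nM.conj_mem r hr.1 _, t.L.mul_mem (t.L.mul_mem b1 hr.2) (inv_mem b1)⟩) _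
          (cj ((h ^ i)⁻¹ * p) (fun r hr => by
            simpa using mul_mem (Subgroup.mem_sup_right (t.cT hi hr.1))
              (Subgroup.mem_sup_left (T := t.T) hr)) r hr))
      (cj _ fun r hr => Subgroup.mem_sup_left ⟨t.nM.conj_mem r hr.1 _, t.jL hr.2⟩)
      (fun a b ha hb r hr => by simpa [mul_assoc] using ha _ (hb r hr)) g r hr⟩
    ⟨le_sup_right, fun k => e0 (LT e (k (Subgroup.mem_sup_left he)) he.2)⟩ t.nP s.pP
    (sup_le (inf_le_left.trans t.lM) inf_le_left) (s.W2 _ t.hj)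
  obtain ⟨y, hy, b, hb, rfl⟩ := Subgroup.mem_sup_of_normal_right.1 hn
  have hb' := (QuotientGroup.eq_one_iff b).2 hb
  simp only [← QuotientGroup.eq_one_iff, QuotientGroup.mk_mul, QuotientGroup.mk_pow,
    QuotientGroup.mk_inv, hb', mul_one] at n0 n1 n2 n3
  simp only [← QuotientGroup.mk_mul, ← QuotientGroup.mk_pow, ← QuotientGroup.mk_inv,
    QuotientGroup.eq_one_iff] at n0 n1 n2 n3
  have yL : y ∈ t.L := hy.2
  refine ⟨y, hy, fun x hx => n0 (t.mT.2 ⟨yL.1, fun x' => ?_⟩), LT _ n1 (pow_mem yL q), n2,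
    fun p hp => ?_, n3.imp (fun k => ?_) fun k => ?_⟩
  · obtain ⟨p, hp, rfl⟩ := s.tr x x'
    simpa [mul_assoc, D] using mul_mem (DD_conj t.nZ p hx)
      (inv_mem ((t.mT.1 (n2 p hp)).2 (p • x)))
  · have := LT _ (n2 p hp.1) (mul_mem (mul_mem (mul_mem (inv_mem yL) hp) yL) (inv_mem hp))
    rw [mul_inv_eq_one, mul_assoc, inv_mul_eq_iff_eq_mul] at this
    exact this
  · have := LT _ k (by simpa [mul_assoc] using mul_mem (inv_mem yL) (t.jL yL))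
    rw [mul_assoc, mul_assoc, inv_mul_eq_one, ← mul_assoc] at this
    exact this.symm
  · have := LT _ k (by simpa [mul_assoc] using mul_mem yL (t.jL yL))
    rw [mul_assoc, mul_assoc, ← mul_assoc t.j] at this
    exact eq_inv_of_mul_eq_one_right this

end Tw

end Pool.Agent.P.MP_6d14ae_al.B
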