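import Pool.Agent.P.MP_6d14ae_al.B.Tc

/-! Prime cubes: the twist, end of the main line. -/

set_option autoImplicit false
set_option linter.unusedSectionVars false
set_option linter.dupNamespace false

namespace Pool.Agent.P.MP_6d14ae_al.B

open MulAction T V
open S hiding Dat Lay c_one c_div facN ext_b triK next chi chi_one

variable {G X A : Type} [Group G] [MulAction G X] [AddCommGroup A] [DistribMulAction G A] {q : ℕ}

theorem bi (g : G) : ∀ v ∈ (⊥ : AddSubgroup A), g • v ∈ (⊥ : AddSubgroup A) := fun v hv => by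
  simp_all

namespace Tw

variable {s : Su G X A q} (t : Tw s) [Finite G] [FaithfulSMul G X]

theorem nat {k : G} (hk : k ∈ Subgroup.zpowers t.z) : ∃ n : ℕ, t.z ^ n = k :=
  mem_powers_iff_mem_zpowers.2 hk

include t in
theorem fin [Group.IsSolvable G] (H : ML q) : False := by
  have := Fact.mk s.hq
  have := s.fin
  obtain ⟨Y, k, k0, hY, f1, cY, pk, pL, jz⟩ := t.dat
  obtain ⟨l, lL, l1, jl⟩ := t.exl
  have lP : l ∈ s.e.W := lL.1
  have LT : ∀ g ∈ t.T, g ∈ t.L → g = 1 := fun g a b => t.LT a b.2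
  have bz : ∀ x, s.e.b (t.z • x) = s.e.b x + t.la x := fun x => by rw [la, s.e.hb]; abel
  have Fz : ∀ x, t.F (t.z • x) = t.F x + k := fun x => by rw [F, bz, pk, F]
  have FL : ∀ g ∈ t.L, ∀ x, t.F (g • x) = t.F x := fun g hg x => by rw [F, s.e.hb, pL g hg, F]
  have μL : ∀ g ∈ t.L, ∀ x y, t.μ (g • x) (g • y) = t.μ x y := fun g hg x y => by
    rw [μ, μ, FL g hg, FL g hg, s.e.hb, s.e.hb, ← smul_add, pL g hg]
  have μz : ∀ g ∈ Subgroup.zpowers t.z, ∀ x y, t.μ x (g • y) = t.μ x y := fun g hg x y => by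
    obtain ⟨n, rfl⟩ := t.nat hg
    clear hg
    induction n with
    | zero => simp
    | succ n ih => rw [pow_succ', mul_smul, ← ih, μ, μ, Fz, bz, ← add_assoc, pk]; ring
  have no : ¬∀ x y, t.μ x y = 0 := fun h => k0 (by simpa [Fz] using t.μ0 h t.zP t.o)
  have ψz : t.ψ t.z = 0 := (t.ψ0 _ t.zP).2 t.z1
  have τz : ∀ x, t.ψ (t.τ (t.z • x)) = t.ψ (t.τ x) + -k := fun x => by rw [t.ψτ, t.ψτ, Fz]; ring
  have nP : ∀ x, t.τ (t.z • x) * (t.τ x)⁻¹ ∈ s.e.W := fun x => mul_mem (t.τP _) (inv_mem (t.τP x))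
  have cn : ∀ x, s.e.c (t.τ (t.z • x) * (t.τ x)⁻¹)⁻¹ = t.la (t.τ x • x) := fun x => by
    rw [t.la_smul (t.τP x), mul_inv_rev, inv_inv, τ, τ, inv_inv, c_div, t.ι2, t.ι2, bz,
      add_sub_cancel_left]
  have ψl : ∀ i : ℕ, t.ψ (l ^ i) = i := fun i => by rw [t.ψp lP, l1, mul_one]
  have lE : ∀ g ∈ t.L, ∀ i : ℕ, t.ψ g = i → (l ^ i)⁻¹ * g ∈ t.M ⊓ t.L := fun g hg i e =>
    have a := inv_mem (pow_mem lL i)
    ⟨(t.ψ0 _ (mul_mem a hg).1).1 (by rw [t.ψa _ a.1 _ hg.1, t.ψi (pow_mem lP i), ψl, e]; ring),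
      mul_mem a hg⟩
  have lq : l ^ q ∈ t.M ⊓ t.L := ⟨(t.ψ0 _ (pow_mem lP q)).1 (by simp [ψl]), pow_mem lL q⟩
  have app := fun (y : G) (ρ κ : ZMod q) (ε : ℤ) => H G X A s t.j t.z l y t.o t.ψ t.τ t.T (-k) ρ κ ε
    t.hj t.nP t.jo t.ψa t.ψj (fun x p hp e => (t.ψ0 p hp).2 (t.st x p hp e)) t.zP t.zc t.zq jz ψz
    (fun g => t.mT.trans (and_congr_right' (forall_congr' fun x => ⟨fun ⟨n, hn, e⟩ =>
      let ⟨i, hi⟩ := t.nat hn; ⟨i, hi ▸ e⟩, fun ⟨i, e⟩ =>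
      ⟨_, pow_mem (Subgroup.mem_zpowers _) i, e⟩⟩))) lP l1
  have jl' : t.j * l * t.j⁻¹ * l ∈ t.T := by rw [jl, inv_mul_cancel]; exact one_mem _
  have τc : ∀ x, s.e.c (t.τ x)⁻¹ = s.e.b x := fun x => by rw [τ, inv_inv, t.ι2]
  by_cases hE : ∀ e ∈ t.M ⊓ t.L, e = 1
  · obtain ⟨y, hy, y0, y1, y2, y3⟩ := eig s.hq t.nT t.nM ⟨t.TM, fun h => s.hq.one_lt.ne
      ((Subgroup.relIndex_eq_one.2 fun g hg => (t.mT.1 (h hg)).2 t.o).symm.trans (t.iD t.o))⟩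
      t.nP s.pP t.lM (s.W2 _ t.hj)
    obtain ⟨ε, e1, e2⟩ : ∃ ε : ℤ, (ε = 1 ∨ ε = -1) ∧ (y ^ ε)⁻¹ * (t.j * y * t.j⁻¹) ∈ t.T :=
      y3.elim (fun h => ⟨1, .inl rfl, by simpa [mul_assoc] using h⟩)
        fun h => ⟨-1, .inr rfl, by simpa [mul_assoc] using h⟩
    refine app y 0 0 ε (hE _ lq ▸ one_mem _) jl' (t.lM hy) ((t.ψ0 _ (t.lM hy)).2 hy) y0 y1 y2 e1 e2
      t.τP τc (neg_ne_zero.2 k0) τz (fun x g _ _ => ?_) (fun _ => rfl) fun h => (h rfl).elim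
    have a : t.τ (t.z • x) * (t.τ x)⁻¹ ∈ t.L :=
      t.L.inv_mem_iff.1 ⟨s.e.W.inv_mem (nP x), show s.e.c _ ∈ La A t.z from cn x ▸ t.la_mem _⟩
    have := hE _ (lE _ a (-k).val (by
      rw [t.ψa _ (t.τP _) _ (inv_mem (t.τP x)), t.ψi (t.τP x), τz, ZMod.natCast_zmod_val]; ring))
    simp [this]
  obtain ⟨y, yE, yD, yq, y2, yc, jy⟩ := t.exy (by push Not at hE; exact hE)
  have yL : y ∈ t.L := yE.2
  have yP : y ∈ s.e.W := yL.1
  have yM : y ∈ t.M := yE.1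
  have gD : ∀ x, ∀ e ∈ t.M, e ∉ t.D x → ∀ m ∈ t.M, ∃ i : ℕ, ∃ n ∈ Subgroup.zpowers t.z,
      m • x = e ^ i • n • x := fun x e he e0 m hm => by
    obtain ⟨i, n, hn, h⟩ := gen s.hq (t.iD x) (t.cD x) he e0 m hm
    exact ⟨i, n, hn, by rw [← h, ← mul_smul, mul_inv_cancel_left]⟩
  have cz : ∀ g ∈ s.e.W, ∀ n ∈ Subgroup.zpowers t.z, ∀ x : X, g • n • x = n • g • x := by
    rintro g hg _ ⟨i, rfl⟩ x
    rw [smul_smul, smul_smul, ((show Commute g t.z from t.zc g hg).zpow_right i).eq]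
  have cov : ∀ g ∈ s.e.W, ∃ a u : ℕ, ∃ n ∈ Subgroup.zpowers t.z,
      g • t.o = (l ^ a * y ^ u) • n • t.o ∧ t.ψ g = a := fun g hg => by
    have a := inv_mem (pow_mem lP (t.ψ g).val)
    obtain ⟨u, n, hn, e⟩ := gD t.o y yM (yD _) ((l ^ (t.ψ g).val)⁻¹ * g)
      ((t.ψ0 _ (mul_mem a hg)).1 (by
        rw [t.ψa _ a _ hg, t.ψi (pow_mem lP _), ψl, ZMod.natCast_zmod_val]; ring))
    exact ⟨_, u, n, hn, by rw [mul_smul, ← e, ← mul_smul, mul_inv_cancel_left],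
      (ZMod.natCast_zmod_val _).symm⟩
  have red : ∀ g ∈ t.L, ∀ g' ∈ s.e.W, ∀ n ∈ Subgroup.zpowers t.z, ∀ n' ∈ Subgroup.zpowers t.z,
      t.μ (g • n • t.o) (g' • n' • t.o) = t.μ t.o ((g⁻¹ * g') • t.o) := fun g hg g' hg' n a n' b => by
    rw [cz g hg.1 n a, cz g' hg' n' b, μz _ b, t.μs, μz _ a, t.μs, ← μL _ (inv_mem hg),
      inv_smul_smul, mul_smul]
  have ev : ∀ g ∈ t.L, t.μ t.o (g⁻¹ • t.o) = t.μ t.o (g • t.o) := fun g hg => by
    rw [← μL g hg, smul_inv_smul, t.μs]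
  have jj : ∀ g, t.μ t.o ((t.j * g * t.j⁻¹) • t.o) = -t.μ t.o (g • t.o) := fun g => by
    rw [← t.μj, t.jo, mul_smul, mul_smul, t.ji, t.jo]
  have ly := yc l lL
  have all : (∀ a u : ℤ, t.μ t.o ((l ^ a * y ^ u) • t.o) = 0) → False := fun h => no fun x x' => by
    obtain ⟨g, hg, rfl⟩ := s.tr t.o x
    obtain ⟨g', hg', rfl⟩ := s.tr t.o x'
    obtain ⟨a, u, n, hn, e, -⟩ := cov g hg
    obtain ⟨a', u', n', hn', e', -⟩ := cov g' hg'
    rw [e, e', red _ (mul_mem (pow_mem lL a) (pow_mem yL u)) _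
      (mul_mem (pow_mem lP _) (pow_mem yP _)) n hn n' hn', ← h (-a + a') (-u + u'), zpow_add,
      zpow_add, ← (ly.pow_pow a u).symm.eq]
    have := (ly.zpow_zpow a' (-u)).eq
    have h2 := (ly.zpow_zpow (-a) (-u)).eq
    simp only [zpow_neg, zpow_natCast] at this h2 ⊢
    rw [(ly.pow_pow a u).symm.eq, mul_inv_rev, ← h2, mul_assoc, mul_assoc, ← mul_assoc (y ^ u)⁻¹,
      ← this, mul_assoc]
  have cj : ∀ a u : ℤ, t.j * (l ^ a * y ^ u) * t.j⁻¹ = l⁻¹ ^ a * (t.j * y * t.j⁻¹) ^ u :=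
    fun a u => by rw [← jl, conj_zpow, conj_zpow]; group
  have iv : ∀ a u : ℤ, (l ^ a * y ^ u)⁻¹ = l⁻¹ ^ a * y⁻¹ ^ u := fun a u => by
    rw [(ly.zpow_zpow a u).eq, mul_inv_rev, inv_zpow, inv_zpow]
  have gL : ∀ a u : ℤ, l ^ a * y ^ u ∈ t.L := fun a u => mul_mem (zpow_mem lL a) (zpow_mem yL u)
  rcases jy with jy | jy
  swap
  · refine all fun a u => two0 s.h5 ?_
    rw [← jj, cj, jy, ← iv, ev _ (gL a u)]
  have od : ∀ a u : ℤ, t.μ t.o ((l ^ a * y ^ (-u)) • t.o) = -t.μ t.o ((l ^ a * y ^ u) • t.o) :=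
    fun a u => by rw [← jj, cj, jy, ← ev _ (gL a _), iv, inv_zpow' y, neg_neg]
  have m0 : ∀ m ∈ t.M, t.μ t.o (m • t.o) = 0 := fun m hm => by
    obtain ⟨i, n, hn, e⟩ := gD t.o y yM (yD _) m hm
    rw [e, cz _ (pow_mem yP i) n hn, μz n hn]
    refine two0 s.h5 ?_
    rw [← jj, ← conj_pow, jy]
  obtain ⟨h, hL, h0, hD⟩ : ∃ h ∈ t.L, h ∉ t.M ∧ ∀ e ∈ t.M ⊓ t.L, e ∈ t.D t.o → e ∈ t.D (h • t.o) := by
    by_contra! hh
    refine all fun a u => ?_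
    by_cases ha : l ^ a ∈ t.M
    · exact m0 _ (mul_mem ha (zpow_mem yM u))
    obtain ⟨e, he, ⟨n0, a0, e1⟩, e2⟩ := hh _ (zpow_mem lL a) ha
    obtain ⟨i, n, hn, e3⟩ := gD _ e he.1 e2 (y ^ u * y ^ u) (mul_mem (zpow_mem yM u)
      (zpow_mem yM u))
    have eL : e ^ i ∈ t.L := pow_mem (show e ∈ t.L from he.2) i
    obtain ⟨n1, a1, e4⟩ := pow_mem (show e ∈ t.D t.o from ⟨n0, a0, e1⟩) i
    refine two0 s.h5 ?_
    rw [← od, ← μL _ eL t.o ((l ^ a * y ^ (-u)) • t.o), e4, t.μs (n1 • t.o), μz _ a1, t.μs _ t.o,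
      ← μz n hn t.o (e ^ i • _), ← cz _ eL.1 n hn, (ly.zpow_zpow a (-u)).eq, mul_smul (y ^ (-u)),
      ← cz _ (zpow_mem yP _) n hn, smul_smul (e ^ i), ((yc _ eL).zpow_right _).eq,
      mul_smul (y ^ (-u)), ← e3, smul_smul, smul_smul, (ly.zpow_zpow a u).eq, zpow_neg,
      inv_mul_cancel_left]
  have E1 : ∀ e ∈ t.M ⊓ t.L, e ∈ t.D t.o → e = 1 := fun e he e0 => by
    have st : ∀ i : ℕ, ∀ e ∈ t.M ⊓ t.L, e ∈ t.D t.o → e ∈ t.D (h ^ i • t.o) := fun i => by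
      induction i with
      | zero => simp
      | succ i ih =>
        intro e he e0
        have := DD_conj t.nZ h (ih (h⁻¹ * e * h) ⟨t.nM.conj_mem' e he.1 h,
          t.L.mul_mem (t.L.mul_mem (inv_mem hL) he.2) hL⟩
          (by simpa [D] using DD_conj t.nZ h⁻¹ (hD e he e0)))
        simpa [pow_succ', mul_smul, mul_assoc, D] using this
    refine LT e (t.mT.2 ⟨he.2.1, fun x => ?_⟩) he.2
    obtain ⟨p, hp, rfl⟩ := s.tr t.o x
    obtain ⟨i, hi⟩ := t.gM hL.1 h0 hp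
    simpa [smul_smul] using t.DM he.1 (t.nM.conj_mem _ hi (h ^ i)) (st i e he e0)
  have Ey : ∀ y' ∈ t.M ⊓ t.L, y' ≠ 1 → ∀ e ∈ t.M ⊓ t.L, ∃ i : ℕ, e = y' ^ i :=
    fun y' a b e he => by
      obtain ⟨i, hi⟩ := gen s.hq (t.iD t.o) (t.cD t.o) a.1 (fun c => b (E1 _ a c)) e he.1
      exact ⟨i, (inv_mul_eq_one.1 (E1 _ (mul_mem (inv_mem (pow_mem a i)) he) hi)).symm⟩
  have y0 : y ≠ 1 := fun e => yD t.o (e ▸ one_mem _)
  have cp : ∀ g ∈ s.e.W, g • s.e.c g = s.e.c g → ∀ i : ℕ, s.e.c (g ^ i) = i • s.e.c g :=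
    fun g _ e i => by
      induction i with
      | zero => simp [c_one]
      | succ i ih => rw [pow_succ', s.e.hc, ih, smul_comm, e, succ_nsmul']
  have fu : ∀ p ∈ s.e.W, p • s.e.c y = s.e.c y := fun p hp => by
    obtain ⟨v, v1, v0, v2⟩ := fxq s.hq s.hC s.pP (D := ⊥) (fun g _ => bi g) hY
      fun c => y0 (s.inj yP (one_mem _) ((c ((cY y yP).2 yE)).trans (c_one _).symm))
    obtain ⟨w, hw, rfl⟩ := s.e.hs v
    obtain ⟨i, rfl⟩ := Ey w ((cY w hw).1 v1) (fun e => v0 (by rw [e, c_one]; exact zero_mem _)) y yE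
    rw [cp w hw (sub_eq_zero.1 (v2 w hw)), smul_comm, sub_eq_zero.1 (v2 p hp)]
  have cy := cp y yP (fu y yP)
  have oy := orderOf_eq_prime yq y0
  have py : ∀ i i' : ℕ, y ^ i = y ^ i' ↔ (i : ZMod q) = i' := fun i i' => by
    rw [pow_eq_pow_iff_modEq, oy, ZMod.natCast_eq_natCast_iff]
  obtain ⟨r, hr⟩ : ∃ r : X → ℕ, ∀ x, t.la x = t.la t.o + r x • s.e.c y := by
    refine (Classical.skolem (p := fun x (i : ℕ) => t.la x = t.la t.o + i • s.e.c y)).1 fun x => ?_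
    obtain ⟨p, hp, rfl⟩ := s.tr t.o x
    have a := mem_fx.1 (f1 (t.la_mem t.o)) p hp
    rw [← t.ι2 (_ - _)] at a
    obtain ⟨i, hi⟩ := Ey y yE y0 _ ((cY _ (t.ι1 _)).1 a)
    exact ⟨i, by rw [← cy, ← hi, t.ι2, t.la_smul hp]; abel⟩
  have un : ∀ x (i : ℕ), t.la x = t.la t.o + i • s.e.c y → (r x : ZMod q) = i := fun x i e =>
    (py _ _).1 (s.inj (pow_mem yP _) (pow_mem yP _)
      (by rw [cy, cy]; exact add_left_cancel ((hr x).symm.trans e)))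
  have ra : ∀ g ∈ s.e.W, ∀ x, (r (g • x) : ZMod q) = r (g • t.o) + r x := fun g hg x => by
    rw [← Nat.cast_add]
    refine un _ _ ?_
    rw [t.la_smul hg, hr x, smul_add, smul_comm, fu g hg, ← t.la_smul hg, hr (g • t.o), add_nsmul,
      add_assoc]
  have rp : ∀ g ∈ s.e.W, ∀ (i : ℕ) x, (r (g ^ i • x) : ZMod q) = i * r (g • t.o) + r x :=
    fun g hg i x => by
      induction i with
      | zero => simp
      | succ i ih => rw [pow_succ', mul_smul, ra g hg, ih]; push_cast; ring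
  have r0 : (r t.o : ZMod q) = 0 := by simpa using un t.o 0 (by simp)
  let w := t.ι (t.la t.o)
  have wL : w ∈ t.L := ⟨t.ι1 _, show s.e.c _ ∈ La A t.z from (t.ι2 _).symm ▸ t.la_mem _⟩
  have wP : w ∈ s.e.W := t.ι1 _
  have ry : (r (y • t.o) : ZMod q) = 0 := by
    have := congrArg s.e.c (yc w wL).eq
    rw [s.e.hc, s.e.hc, fu w wP, t.ι2, add_comm, add_right_inj] at this
    simpa using un (y • t.o) 0 (by rw [t.la_smul yP, ← this]; simp)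
  have F0 : t.F t.o = 0 := two0 s.h5 (by rw [← t.Fj, t.jo])
  have Fp : ∀ (i : ℕ) x, t.F (t.z ^ i • x) = t.F x + i * k := fun i x => by
    induction i with
    | zero => simp
    | succ i ih => rw [pow_succ', mul_smul, Fz, ih]; push_cast; ring
  have rel : ∀ g ∈ s.e.W, k * r (g • t.o) =
      k * r (l • t.o) * t.ψ g + r (t.z • t.o) * t.F (g • t.o) := fun g hg => by
    obtain ⟨a, u, n, hn, e, e'⟩ := cov g hg
    obtain ⟨i, rfl⟩ := t.nat hn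
    rw [e, e', FL _ (mul_mem (pow_mem lL a) (pow_mem yL u)), Fp, F0, mul_smul, rp l lP,
      rp y yP, rp _ t.zP, ry, r0]
    ring
  by_cases hγ : (r (t.z • t.o) : ZMod q) = 0
  swap
  · have a : ∀ x x', t.μ x x' = t.μ x t.o := fun x x' => by
      obtain ⟨g, hg, rfl⟩ := s.tr t.o x'
      have b1 := rel _ (mul_mem (t.τP x) hg)
      rw [mul_smul, ra _ (t.τP x), t.ψa _ (t.τP x) _ hg] at b1
      rw [t.μτ, t.μτ, F0]
      exact mul_left_cancel₀ hγ (by linear_combination rel _ (t.τP x) + rel g hg - b1)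
    exact no fun x x' => by rw [a, t.μs, a]; simpa using m0 1 (one_mem _)
  have rψ : ∀ g ∈ s.e.W, (r (g • t.o) : ZMod q) = r (l • t.o) * t.ψ g := fun g hg =>
    mul_left_cancel₀ k0 (by rw [rel g hg, hγ]; ring)
  obtain ⟨i, hi⟩ := Ey y yE y0 _ (lE _ (inv_mem wL) (-k).val (by
    rw [t.ψi wP, ZMod.natCast_zmod_val]
    have := pk 0 t.o
    rw [zero_add, t.p0, zero_add] at this
    exact congrArg Neg.neg this))
  rw [inv_mul_eq_iff_eq_mul] at hi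
  refine app y (-r (l • t.o)) i 1 ?_ jl' yP ((t.ψ0 _ yP).2 yM)
    (fun c => yD t.o ((t.mT.1 c).2 _)) (yq ▸ one_mem _) y2 (.inl rfl) (by simp [jy]) t.τP τc
    (neg_ne_zero.2 k0) τz (fun x g hg e => ?_) (fun c => two0 s.h5 ?_) fun _ x m hm e => ?_
  · obtain ⟨n, hn⟩ := Ey y yE y0 _ lq
    have a : t.j * l ^ q * t.j⁻¹ = l ^ q := by rw [hn, ← conj_pow, jy]
    rw [← conj_pow, jl, inv_pow, hn, inv_eq_iff_mul_eq_one, ← pow_add, ← pow_zero y, py] at a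
    have b : (n : ZMod q) = (0 : ℕ) := by
      simpa using two0 s.h5 (x := n) (by push_cast at a; linear_combination a)
    rw [hn, (py _ _).2 b, pow_zero]; exact one_mem _
  · have a := s.inj (inv_mem (nP x)) (mul_mem wP (pow_mem yP (r (g • t.o)))) (by
      rw [cn, ← e, s.e.hc, t.ι2, cy, smul_comm, fu w wP, ← hr])
    have b : y ^ ((-r (l • t.o) * t.ψ g + i : ZMod q).val + r (g • t.o)) = y ^ i := (py _ _).2 (by
      rw [Nat.cast_add, ZMod.natCast_zmod_val, rψ g hg]; ring)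
    rw [inv_eq_iff_eq_inv.1 a, mul_inv_rev w, hi, ← b, pow_add, ← mul_assoc (l ^ _),
      ((yc _ (mul_mem (pow_mem lL _) (pow_mem yL _))).pow_right _).eq, inv_mul_cancel_left,
      inv_mul_cancel]
    exact one_mem _
  · have a : ∀ p ∈ s.e.W, p • t.la t.o = t.la t.o := fun p hp => by
      have b : y ^ r (p • t.o) = y ^ 0 := (py _ _).2 (by rw [rψ p hp, neg_eq_zero.1 c]; simp)
      rw [← t.la_smul hp, hr, ← cy, b, pow_zero, c_one, add_zero]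
    have b : t.j * w * t.j⁻¹ = w⁻¹ := s.inj (t.jL wL).1 (inv_mem wP) (by
      have b1 := c_div s.e w 1
      have b2 := a _ (inv_mem t.zP)
      rw [mul_one, c_one, t.ι2, zero_sub, smul_neg, a _ (inv_mem wP)] at b1
      have b3 : t.j • t.la t.o = -(t.z⁻¹ • t.la t.o) := by
        rw [la, smul_sub, smul_sub, inv_smul_smul, neg_sub, smul_smul,
          mul_inv_eq_iff_eq_mul.1 jz, mul_smul, ← s.e.hb t.j, t.jo]
      rw [b1, t.cjj, t.ι2, b3, b2])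
    have b3 := congrArg (fun g => t.j * g * t.j⁻¹) hi
    have b4 := cj (-k).val i
    simp only [zpow_natCast] at b4
    simp only [b4, jy] at b3
    rw [conj_inv.symm, b, inv_inv, inv_eq_iff_eq_inv.1 hi, (ly.pow_pow _ _).eq, mul_inv_rev, inv_pow,
      mul_right_inj, inv_eq_iff_mul_eq_one, ← pow_add, ← pow_zero y, py] at b3
    push_cast at b3
    linear_combination b3
  · obtain ⟨g, hg, rfl⟩ := s.tr t.o x
    obtain ⟨a, u, n, hn, e1, -⟩ := cov g hg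
    have a1 := mul_mem (pow_mem lL a) (pow_mem yL u)
    have := red _ a1 _ (mul_mem hm a1.1) n hn n hn
    rw [← mul_assoc _ m, m0 _ (t.nM.conj_mem' m ((t.ψ0 m hm).1 e) _), mul_smul m, ← e1, t.μτ] at this
    rw [t.ψτ, t.ψτ, sub_eq_zero.1 this]

end Tw

theorem tw (H : ML q) : TW q := by
  intro G X A _ _ _ _ _ _ _ s j M hj nP dj nM lM iM st inv
  classical
  have := Fact.mk s.hq
  have := s.fin
  have := s.pre
  have ji := s.winv hj
  obtain ⟨o, ho⟩ := s.pW.nonempty_fixed_point_of_prime_not_dvd_card X s.n2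
  let φ : s.e.W ⧸ M.subgroupOf s.e.W ≃* Multiplicative (ZMod q) :=
    mulEquivOfPrimeCardEq iM (by simp)
  let ψ : G → ZMod q := fun g => if h : g ∈ s.e.W then (φ (⟨g, h⟩ : s.e.W)).toAdd else 0
  have ψa : ∀ p ∈ s.e.W, ∀ p' ∈ s.e.W, ψ (p * p') = ψ p + ψ p' := fun p hp p' hp' => by
    simp only [ψ, dif_pos hp, dif_pos hp', dif_pos (mul_mem hp hp')]
    rw [← toAdd_mul, ← map_mul]; rfl
  have ψ0 : ∀ p ∈ s.e.W, ψ p = 0 ↔ p ∈ M := fun p hp => by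
    simp only [ψ, dif_pos hp]
    rw [toAdd_eq_zero, map_eq_one_iff _ φ.injective, QuotientGroup.eq_one_iff]; rfl
  choose ι ι1 ι2 using s.e.hs
  have ex : ∀ N : Subgroup G, N.Normal → N ≤ M → N ≠ ⊥ → ∃ z ∈ N, z ≠ 1 ∧ z ^ q = 1 ∧
      (∀ p ∈ s.e.W, p * z = z * p) ∧ (j * z * j⁻¹ = z ∨ j * z * j⁻¹ = z⁻¹) := fun N hN l h => by
    obtain ⟨z, a1, a2, a3, a4, a5⟩ := eig s.hq inferInstance hN (bot_lt_iff_ne_bot.2 h) nP s.pP
      (l.trans lM) (s.W2 j hj)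
    simp only [Subgroup.mem_bot] at a2 a3 a4 a5
    refine ⟨z, a1, a2, a3, fun p hp => ?_, a5.imp (fun k => ?_) fun k => ?_⟩
    · have := a4 p hp
      rwa [mul_inv_eq_one, mul_assoc, inv_mul_eq_iff_eq_mul] at this
    · rw [mul_assoc, mul_assoc, inv_mul_eq_one, ← mul_assoc] at k
      exact k.symm
    · rw [mul_assoc, mul_assoc, ← mul_assoc j] at k
      exact eq_inv_of_mul_eq_one_right k
  obtain ⟨z0, b0⟩ := ex M nM le_rfl fun h => by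
    have h1 := s.gen o ⊥ (fun g _ => bi g) fun p hp e => by
      rw [Subgroup.mem_bot.1 (h ▸ st o p hp e : p ∈ (⊥ : Subgroup G)), c_one]; exact zero_mem _
    refine s.hq.one_lt.ne ((Subgroup.relIndex_eq_one.2 fun p hp => ?_).symm.trans iM)
    rw [s.one hp ((s.hW p).2 (AddSubgroup.mem_bot.1 (h1 ▸ trivial)))]
    exact one_mem _
  obtain ⟨_, ⟨z, ⟨z1, z2, z3, z4, z5⟩, rfl⟩, mn⟩ := wellFounded_lt.has_min
    (La A '' {z | z ∈ M ∧ z ≠ 1 ∧ z ^ q = 1 ∧ (∀ p ∈ s.e.W, p * z = z * p) ∧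
      (j * z * j⁻¹ = z ∨ j * z * j⁻¹ = z⁻¹)}) ⟨_, z0, b0, rfl⟩
  refine Tw.fin (s := s) ⟨j, M, o, ψ, ι, z, hj, nP, dj, nM, lM, iM, st, ho ⟨j, hj⟩, ψa,
    fun p hp => ?_, ψ0, ι1, ι2, z1, z2, z3, z4, z5, fun N hN l h => by_contra fun k => ?_⟩ H
  · have a := nP.conj_mem p hp j
    have := (ψ0 _ (mul_mem hp a)).2 (by simpa [mul_assoc] using inv p hp)
    rw [ψa _ hp _ a] at this
    linear_combination this
  · obtain ⟨n, a1, a2, a3⟩ := ex N hN l k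
    obtain ⟨Y, -, b2, -, b4⟩ := maxs s.hq s.hC s.pP (Y := ⊥) (fun g _ => bi g)
      (fun p _ => La_smul dj ji z4 z5 p) (bot_lt_iff_ne_bot.2 fun e => a2
        (s.one (lM (l a1)) ((s.hW n).2 (AddSubgroup.mem_bot.1 (e ▸ h n a1)))))
    refine mn _ ⟨n, ⟨l a1, a2, a3⟩, rfl⟩ (lt_of_le_of_lt ?_ b2)
    rintro _ ⟨v, rfl⟩
    have e := congrArg s.e.c (a3.2.1 _ (ι1 v))
    rw [s.e.hc, s.e.hc, ι2] at e
    convert mem_fx.1 (b4 (h n a1)) _ (ι1 v) using 1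
    show n • v - v = _
    rw [eq_sub_of_add_eq' e.symm]; abel

end Pool.Agent.P.MP_6d14ae_al.B
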